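import Pool.Agent.Lib.MP_d1e4d8_al.Targets

/-!
# Target E for MP_d1e4d8_al: finite fields `K` with `3 ^ m ∣ #K - 1`
-/

set_option autoImplicit false

namespace Pool.Agent.Lib.MP_d1e4d8_al

theorem four_pow_dvd (m : ℕ) : (3 : ℤ) ^ (m + 1) ∣ 4 ^ (3 ^ m) - 1 := by
  induction m with
  | zero => norm_num
  | succ m ih =>
    have h1 : (4 : ℤ) ^ (3 ^ (m + 1)) - 1 =
        (4 ^ (3 ^ m) - 1) * ((4 ^ (3 ^ m)) ^ 2 + 4 ^ (3 ^ m) + 1) := by
      rw [pow_succ 3 m, pow_mul]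
      ring
    rw [h1, pow_succ 3 (m + 1)]
    apply mul_dvd_mul ih
    obtain ⟨t, ht⟩ : (3 : ℤ) ∣ 4 ^ (3 ^ m) - 1 := dvd_trans (dvd_pow_self 3 (by omega)) ih
    have h2 : (4 : ℤ) ^ (3 ^ m) = 3 * t + 1 := by linarith
    rw [h2]
    exact ⟨3 * t ^ 2 + 3 * t + 1, by ring⟩

theorem targetE : TargetE := by
  intro m
  have hp : Fact (Nat.Prime 2) := ⟨Nat.prime_two⟩
  have hm : 2 * 3 ^ m ≠ 0 := by positivity
  have hcard : Nat.card (GaloisField 2 (2 * 3 ^ m)) = 4 ^ (3 ^ m) := by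
    rw [GaloisField.card 2 _ hm, pow_mul]
    norm_num
  have hdvd : 3 ^ (m + 1) ∣ 4 ^ (3 ^ m) - 1 := by
    have h1 : 1 ≤ 4 ^ (3 ^ m) := Nat.one_le_pow _ _ (by norm_num)
    have h2 := four_pow_dvd m
    zify [h1]
    exact h2
  have hfin : Finite (GaloisField 2 (2 * 3 ^ m)) := by
    apply Nat.finite_of_card_ne_zero
    rw [hcard]
    positivity
  refine ⟨GaloisField 2 (2 * 3 ^ m), inferInstance, hfin, ?_, ?_, ?_⟩
  · rw [hcard]
    simp [Nat.pow_mod]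
  · rw [hcard]
    exact Nat.le_self_pow (by positivity) 4
  · rw [hcard]
    exact dvd_trans (pow_dvd_pow 3 (by omega)) hdvd

end Pool.Agent.Lib.MP_d1e4d8_al
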