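import Pool.Agent.Lib.MP_d1e4d8_al.Targets

/-!
# Target B of MP_d1e4d8_al: `PGL(3, K)` acting on the projective plane over `K`
-/

set_option autoImplicit false

namespace Pool.Agent.Lib.MP_d1e4d8_al

open scoped LinearAlgebra.Projectivization MatrixGroups
open Matrix

section

variable {K : Type*} [Field K]

theorem elt_aux (v φ : Fin 3 → K) (h : φ ⬝ᵥ v = 0) :
    vecMulVec v φ * vecMulVec v φ = 0 := by
  rw [vecMulVec_mul_vecMulVec, h]; simp

/-- The elation `1 + v φᵀ` (`φ · v = 0`). -/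
def elt (v φ : Fin 3 → K) (h : φ ⬝ᵥ v = 0) : GL (Fin 3) K :=
  ⟨1 + vecMulVec v φ, 1 - vecMulVec v φ, by
    have := elt_aux v φ h
    rw [add_mul, mul_sub, mul_sub, this]; simp, by
    have := elt_aux v φ h
    rw [sub_mul, mul_add, mul_add, this]; simp⟩

theorem elt_smul (v φ : Fin 3 → K) (h : φ ⬝ᵥ v = 0) (w : Fin 3 → K) :
    elt v φ h • w = w + (φ ⬝ᵥ w) • v := by
  change (1 + vecMulVec v φ) *ᵥ w = _
  rw [add_mulVec, one_mulVec, vecMulVec_mulVec]
  ext i
  simp

theorem contra_elt (v φ : Fin 3 → K) (h : φ ⬝ᵥ v = 0) :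
    contra (elt v φ h) = elt φ (-v) (by rw [neg_dotProduct, dotProduct_comm, h, neg_zero]) := by
  apply Units.ext
  change (1 - vecMulVec v φ).transpose = 1 + vecMulVec φ (-v)
  rw [transpose_sub, transpose_one, transpose_vecMulVec, vecMulVec_neg, sub_eq_add_neg]

/-- The linear forms vanishing on `v`. -/
def annih (v : Fin 3 → K) : AddSubgroup (Fin 3 → K) where
  carrier := {φ | φ ⬝ᵥ v = 0}
  zero_mem' := by simp
  add_mem' := by
    intro a b ha hb
    simp only [Set.mem_ofPred_eq] at *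
    rw [add_dotProduct, ha, hb, add_zero]
  neg_mem' := by
    intro a ha
    simp only [Set.mem_ofPred_eq] at *
    rw [neg_dotProduct, ha, neg_zero]

theorem mem_annih (v φ : Fin 3 → K) : φ ∈ annih v ↔ φ ⬝ᵥ v = 0 := Iff.rfl

/-- `φ ↦ 1 + v φᵀ`. -/
noncomputable def homP (v : Fin 3 → K) : Multiplicative (annih v) →* PGL(3, K) where
  toFun φ := Matrix.ProjGenLinGroup.mk (elt v φ.toAdd.1 φ.toAdd.2)
  map_one' := by
    rw [← Matrix.ProjGenLinGroup.mk_one]
    congr 1
    apply Units.ext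
    change 1 + vecMulVec v (0 : Fin 3 → K) = 1
    simp
  map_mul' φ ψ := by
    rw [← map_mul]
    congr 1
    apply Units.ext
    have h := φ.toAdd.2
    rw [mem_annih] at h
    change 1 + vecMulVec v (φ.toAdd.1 + ψ.toAdd.1) =
      (1 + vecMulVec v φ.toAdd.1) * (1 + vecMulVec v ψ.toAdd.1)
    rw [add_mul, mul_add, mul_add, vecMulVec_mul_vecMulVec, h, vecMulVec_add]
    simp only [mul_one, one_mul, zero_smul, add_zero, vecMulVec_zero]
    abel

/-- `v ↦ 1 + v φᵀ`. -/
noncomputable def homL (φ : Fin 3 → K) : Multiplicative (annih φ) →* PGL(3, K) where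
  toFun v := Matrix.ProjGenLinGroup.mk (elt v.toAdd.1 φ (by rw [dotProduct_comm]; exact v.toAdd.2))
  map_one' := by
    rw [← Matrix.ProjGenLinGroup.mk_one]
    congr 1
    apply Units.ext
    change 1 + vecMulVec (0 : Fin 3 → K) φ = 1
    simp
  map_mul' v w := by
    rw [← map_mul]
    congr 1
    apply Units.ext
    have h := w.toAdd.2
    rw [mem_annih, dotProduct_comm] at h
    change 1 + vecMulVec (v.toAdd.1 + w.toAdd.1) φ =
      (1 + vecMulVec v.toAdd.1 φ) * (1 + vecMulVec w.toAdd.1 φ)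
    rw [add_mul, mul_add, mul_add, vecMulVec_mul_vecMulVec, h, add_vecMulVec]
    simp only [mul_one, one_mul, zero_smul, add_zero, vecMulVec_zero]
    abel

theorem card_range_not_dvd [Finite K] (hK : Nat.card K % 3 = 1) (v : Fin 3 → K) {H : Type*}
    [Group H] (f : Multiplicative (annih v) →* H) : ¬ (3 ∣ Nat.card f.range) := by
  intro h
  have h1 : Nat.card f.range ∣ Nat.card (Multiplicative (annih v)) := Subgroup.card_range_dvd f
  have h2 : Nat.card (Multiplicative (annih v)) ∣ Nat.card (Fin 3 → K) := by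
    exact AddSubgroup.card_addSubgroup_dvd_card (annih v)
  have h3 : 3 ∣ Nat.card K ^ 3 := by
    have := (h.trans h1).trans h2
    rwa [Nat.card_fun, Nat.card_eq_fintype_card (α := Fin 3), Fintype.card_fin] at this
  have h4 : 3 ∣ Nat.card K := Nat.Prime.dvd_of_dvd_pow Nat.prime_three h3
  omega

theorem smul_point (v φ : Fin 3 → K) (h : φ ⬝ᵥ v = 0) (w : Fin 3 → K) (hw : w ≠ 0) (w' : Fin 3 → K)
    (hw' : w' ≠ 0) (a : K) (ha : a • w' = w + (φ ⬝ᵥ w) • v) :
    (Matrix.ProjGenLinGroup.mk (elt v φ h) : PGL(3, K)) • Projectivization.mk K w hw =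
      Projectivization.mk K w' hw' := by
  rw [Projectivization.PGL.mk_smul_mk, Projectivization.mk_eq_mk_iff']
  exact ⟨a, by rw [ha, elt_smul]⟩

theorem smul_line (v φ : Fin 3 → K) (h : φ ⬝ᵥ v = 0) (w : Fin 3 → K) (hw : w ≠ 0) (w' : Fin 3 → K)
    (hw' : w' ≠ 0) (a : K) (ha : a • w' = w - (v ⬝ᵥ w) • φ) :
    (Matrix.ProjGenLinGroup.mk (elt v φ h) : PGL(3, K)) •
      (show LineT K from Projectivization.mk K w hw) = (show LineT K from
      Projectivization.mk K w' hw') := by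
  rw [mk_smul_line]
  change (contra (elt v φ h)) • Projectivization.mk K w hw = Projectivization.mk K w' hw'
  rw [contra_elt, Projectivization.smul_mk, Projectivization.mk_eq_mk_iff']
  refine ⟨a, ?_⟩
  rw [ha, elt_smul, neg_dotProduct, neg_smul, sub_eq_add_neg]

/-- dependency in the plane: if `x`, `y`, `z` are all orthogonal to a nonzero vector `u`, and
`x`, `y` are not proportional, then `z` is a combination of `x` and `y`. -/
theorem exists_comb (u x y z : Fin 3 → K) (hu : u ≠ 0) (hx : x ⬝ᵥ u = 0) (hy : y ⬝ᵥ u = 0)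
    (hz : z ⬝ᵥ u = 0) (hli : LinearIndependent K ![x, y]) : ∃ a b : K, z = a • x + b • y := by
  by_contra hcon
  have hli3 : LinearIndependent K (Fin.snoc ![x, y] z : Fin 3 → (Fin 3 → K)) := by
    rw [linearIndependent_finSnoc]
    refine ⟨hli, fun hmem => hcon ?_⟩
    rw [show Set.range ![x, y] = {x, y} by simp [Matrix.range_cons, Matrix.range_empty, Set.pair_comm]] at hmem
    obtain ⟨a, b, hab⟩ := Submodule.mem_span_pair.1 hmem
    exact ⟨a, b, hab.symm⟩
  have htop := hli3.span_eq_top_of_card_eq_finrank (by simp)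
  apply hu
  apply dotProduct_eq_zero
  intro w
  rw [dotProduct_comm]
  have hw : w ∈ Submodule.span K (Set.range (Fin.snoc ![x, y] z : Fin 3 → (Fin 3 → K))) := by
    rw [htop]; trivial
  induction hw using Submodule.span_induction with
  | mem t ht =>
    obtain ⟨i, rfl⟩ := ht
    fin_cases i
    · exact hx
    · exact hy
    · exact hz
  | zero => simp
  | add a b _ _ ha hb => rw [add_dotProduct, ha, hb, add_zero]
  | smul c a _ ha => rw [smul_dotProduct, ha, smul_zero]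

theorem exists_form (x y : Fin 3 → K) (hli : LinearIndependent K ![x, y]) (c : K) :
    ∃ φ : Fin 3 → K, φ ⬝ᵥ x = 0 ∧ φ ⬝ᵥ y = c := by
  have h : y ∉ Submodule.span K {x} := by
    intro hmem
    obtain ⟨a, ha⟩ := Submodule.mem_span_singleton.1 hmem
    rw [LinearIndependent.pair_iff] at hli
    have := (hli a (-1) (by rw [ha]; simp)).2
    simp at this
  obtain ⟨f, hf, hf'⟩ := Submodule.exists_dual_map_eq_bot_of_notMem h inferInstance
  have hfx : f x = 0 := by
    have : f x ∈ Submodule.map f (Submodule.span K {x}) :=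
      Submodule.mem_map_of_mem (Submodule.mem_span_singleton_self x)
    rw [hf'] at this
    simpa using this
  have key : ∀ w : Fin 3 → K, (fun i => f (Pi.single i 1)) ⬝ᵥ w = f w := by
    intro w
    rw [LinearMap.pi_apply_eq_sum_univ f w]
    simp only [dotProduct, smul_eq_mul]
    refine Finset.sum_congr rfl fun i _ => ?_
    rw [mul_comm]
    congr 2
    ext j
    simp [Pi.single_apply, eq_comm]
  refine ⟨(c / f y) • (fun i => f (Pi.single i 1)), ?_, ?_⟩
  · rw [smul_dotProduct, key, hfx, smul_zero]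
  · rw [smul_dotProduct, key, smul_eq_mul, div_mul_cancel₀ _ hf]

theorem pair_li {p q : ℙ K (Fin 3 → K)} (h : p ≠ q) : LinearIndependent K ![p.rep, q.rep] :=
  Projectivization.linearIndependent_pair_iff_ne.2 h

theorem key (u x y z : Fin 3 → K) (hu : u ≠ 0) (hx : x ⬝ᵥ u = 0) (hy : y ⬝ᵥ u = 0)
    (hz : z ⬝ᵥ u = 0) (hli : LinearIndependent K ![x, y]) (hli' : LinearIndependent K ![x, z]) :
    ∃ (φ : Fin 3 → K) (b : K), φ ⬝ᵥ x = 0 ∧ b ≠ 0 ∧ b • z = y + (φ ⬝ᵥ y) • x := by
  obtain ⟨a, b, hab⟩ := exists_comb u x y z hu hx hy hz hli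
  have hb : b ≠ 0 := by
    rintro rfl
    rw [LinearIndependent.pair_iff] at hli'
    have := (hli' a (-1) (by rw [hab]; simp)).2
    simp at this
  obtain ⟨φ, h1, h2⟩ := exists_form x y hli (a / b)
  refine ⟨φ, b⁻¹, h1, inv_ne_zero hb, ?_⟩
  rw [h2, hab, smul_add, smul_smul, smul_smul, inv_mul_cancel₀ hb, one_smul, add_comm, div_eq_inv_mul]

/-- The elations with centre `p`. -/
noncomputable def EPd (p : ℙ K (Fin 3 → K)) : Subgroup PGL(3, K) := (homP p.rep).range

/-- The elations with axis `l`. -/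
noncomputable def ELd (l : LineT K) : Subgroup PGL(3, K) :=
  (homL (show ℙ K (Fin 3 → K) from l).rep).range

/-- The point of the dual plane. -/
def toP (l : LineT K) : ℙ K (Fin 3 → K) := l

theorem inc_iff (p : ℙ K (Fin 3 → K)) (l : LineT K) : inc p l ↔ p.rep ⬝ᵥ (toP l).rep = 0 := by
  change Projectivization.orthogonal p (toP l) ↔ _
  conv_lhs => rw [← Projectivization.mk_rep p, ← Projectivization.mk_rep (toP l)]
  rw [Projectivization.orthogonal_mk]

theorem smul_point' (v φ : Fin 3 → K) (h : φ ⬝ᵥ v = 0) (p p' : ℙ K (Fin 3 → K)) (a : K)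
    (ha : a • p'.rep = p.rep + (φ ⬝ᵥ p.rep) • v) :
    (Matrix.ProjGenLinGroup.mk (elt v φ h) : PGL(3, K)) • p = p' := by
  rw [← Projectivization.mk_rep p, ← Projectivization.mk_rep p']
  exact smul_point v φ h _ p.rep_nonzero _ p'.rep_nonzero a ha

theorem smul_line' (v φ : Fin 3 → K) (h : φ ⬝ᵥ v = 0) (p p' : LineT K) (a : K)
    (ha : a • (toP p').rep = (toP p).rep - (v ⬝ᵥ (toP p).rep) • φ) :
    (Matrix.ProjGenLinGroup.mk (elt v φ h) : PGL(3, K)) • p = p' := by
  have := smul_line v φ h _ (toP p).rep_nonzero _ (toP p').rep_nonzero a ha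
  rw [Projectivization.mk_rep, Projectivization.mk_rep] at this
  exact this

theorem mem_EPd (p : ℙ K (Fin 3 → K)) (e : PGL(3, K)) : e ∈ EPd p ↔
    ∃ (φ : Fin 3 → K) (h : φ ⬝ᵥ p.rep = 0), e = Matrix.ProjGenLinGroup.mk (elt p.rep φ h) := by
  constructor
  · rintro ⟨φ, rfl⟩
    exact ⟨φ.toAdd.1, φ.toAdd.2, rfl⟩
  · rintro ⟨φ, h, rfl⟩
    exact ⟨Multiplicative.ofAdd ⟨φ, h⟩, rfl⟩

theorem mem_ELd (l : LineT K) (e : PGL(3, K)) : e ∈ ELd l ↔
    ∃ (v : Fin 3 → K) (h : (toP l).rep ⬝ᵥ v = 0),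
      e = Matrix.ProjGenLinGroup.mk (elt v (toP l).rep h) := by
  constructor
  · rintro ⟨v, rfl⟩
    exact ⟨v.toAdd.1, by rw [dotProduct_comm]; exact v.toAdd.2, rfl⟩
  · rintro ⟨v, h, rfl⟩
    exact ⟨Multiplicative.ofAdd ⟨v, by rw [mem_annih, dotProduct_comm]; exact h⟩, rfl⟩

theorem EP_fix (p : ℙ K (Fin 3 → K)) (e : PGL(3, K)) (he : e ∈ EPd p) : e • p = p := by
  obtain ⟨φ, h, rfl⟩ := (mem_EPd p e).1 he
  exact smul_point' _ _ _ _ _ 1 (by rw [h]; simp)

theorem EP_fix_line (p : ℙ K (Fin 3 → K)) (e : PGL(3, K)) (he : e ∈ EPd p) (l : LineT K)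
    (hl : inc p l) : e • l = l := by
  obtain ⟨φ, h, rfl⟩ := (mem_EPd p e).1 he
  rw [inc_iff] at hl
  exact smul_line' _ _ _ _ _ 1 (by rw [hl]; simp)

theorem EL_fix (l : LineT K) (e : PGL(3, K)) (he : e ∈ ELd l) : e • l = l := by
  obtain ⟨φ, h, rfl⟩ := (mem_ELd l e).1 he
  exact smul_line' _ _ _ _ _ 1 (by rw [dotProduct_comm, h]; simp)

theorem EL_fix_point (l : LineT K) (e : PGL(3, K)) (he : e ∈ ELd l) (p : ℙ K (Fin 3 → K))
    (hl : inc p l) : e • p = p := by
  obtain ⟨φ, h, rfl⟩ := (mem_ELd l e).1 he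
  rw [inc_iff] at hl
  exact smul_point' _ _ _ _ _ 1 (by rw [dotProduct_comm, hl]; simp)

theorem EP_trans (p : ℙ K (Fin 3 → K)) (l : LineT K) (p' p'' : ℙ K (Fin 3 → K))
    (h : inc p l) (h' : inc p' l) (h'' : inc p'' l) (hp' : p' ≠ p) (hp'' : p'' ≠ p) :
    ∃ e ∈ EPd p, e • p' = p'' := by
  rw [inc_iff] at h h' h''
  obtain ⟨φ, b, h1, _, h2⟩ := key (toP l).rep p.rep p'.rep p''.rep (toP l).rep_nonzero h h' h''
    (pair_li hp'.symm) (pair_li hp''.symm)
  exact ⟨_, (mem_EPd p _).2 ⟨φ, h1, rfl⟩, smul_point' _ _ _ _ _ b h2⟩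

theorem EL_trans (l : LineT K) (p : ℙ K (Fin 3 → K)) (l' l'' : LineT K)
    (h : inc p l) (h' : inc p l') (h'' : inc p l'') (hl' : l' ≠ l) (hl'' : l'' ≠ l) :
    ∃ e ∈ ELd l, e • l' = l'' := by
  rw [inc_iff, dotProduct_comm] at h h' h''
  obtain ⟨φ, b, h1, _, h2⟩ := key p.rep (toP l).rep (toP l').rep (toP l'').rep p.rep_nonzero h h' h''
    (pair_li (p := toP l) (q := toP l') hl'.symm) (pair_li (p := toP l) (q := toP l'') hl''.symm)
  have h3 : (toP l).rep ⬝ᵥ (-φ) = 0 := by rw [dotProduct_neg, dotProduct_comm, h1, neg_zero]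
  refine ⟨_, (mem_ELd l _).2 ⟨-φ, h3, rfl⟩, smul_line' _ _ _ _ _ b ?_⟩
  rw [h2, neg_dotProduct, neg_smul, sub_neg_eq_add]

theorem EP_trans_line (p : ℙ K (Fin 3 → K)) (l l' : LineT K) (h : ¬ inc p l) (h' : ¬ inc p l') :
    ∃ e ∈ EPd p, e • l = l' := by
  rw [inc_iff] at h h'
  have h1 : ((p.rep ⬝ᵥ (toP l).rep)⁻¹ • (toP l).rep - (p.rep ⬝ᵥ (toP l').rep)⁻¹ • (toP l').rep) ⬝ᵥ
      p.rep = 0 := by
    rw [sub_dotProduct, smul_dotProduct, smul_dotProduct, dotProduct_comm (toP l).rep,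
      dotProduct_comm (toP l').rep, smul_eq_mul, smul_eq_mul, inv_mul_cancel₀ h,
      inv_mul_cancel₀ h', sub_self]
  refine ⟨_, (mem_EPd p _).2 ⟨_, h1, rfl⟩, smul_line' _ _ _ _ _
    ((p.rep ⬝ᵥ (toP l).rep) / (p.rep ⬝ᵥ (toP l').rep)) ?_⟩
  rw [smul_sub, smul_smul, smul_smul, mul_inv_cancel₀ h, one_smul, sub_sub_cancel, div_eq_mul_inv]

theorem EL_trans_point (l : LineT K) (p p' : ℙ K (Fin 3 → K)) (h : ¬ inc p l) (h' : ¬ inc p' l) :
    ∃ e ∈ ELd l, e • p = p' := by
  rw [inc_iff, dotProduct_comm] at h h'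
  have h1 : (toP l).rep ⬝ᵥ
      (((toP l).rep ⬝ᵥ p'.rep)⁻¹ • p'.rep - ((toP l).rep ⬝ᵥ p.rep)⁻¹ • p.rep) = 0 := by
    rw [dotProduct_sub, dotProduct_smul, dotProduct_smul, smul_eq_mul, smul_eq_mul,
      inv_mul_cancel₀ h, inv_mul_cancel₀ h', sub_self]
  refine ⟨_, (mem_ELd l _).2 ⟨_, h1, rfl⟩, smul_point' _ _ _ _ _
    (((toP l).rep ⬝ᵥ p.rep) / ((toP l).rep ⬝ᵥ p'.rep)) ?_⟩
  rw [smul_sub, smul_smul, smul_smul, mul_inv_cancel₀ h, one_smul, add_sub_cancel, div_eq_mul_inv]

theorem inc_smul (g : PGL(3, K)) (p : ℙ K (Fin 3 → K)) (l : LineT K) (h : inc p l) :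
    inc (g • p) (g • l) := by
  obtain ⟨g, rfl⟩ := Matrix.ProjGenLinGroup.mk_surjective g
  rw [inc_iff] at h
  rw [mk_smul_line]
  change Projectivization.orthogonal ((Matrix.ProjGenLinGroup.mk g : PGL(3, K)) • p)
    (contra g • toP l)
  rw [← Projectivization.mk_rep p, ← Projectivization.mk_rep (toP l),
    Projectivization.PGL.mk_smul_mk, Projectivization.smul_mk, Projectivization.orthogonal_mk]
  change (g.val *ᵥ p.rep) ⬝ᵥ (((g⁻¹ : GL (Fin 3) K).val.transpose) *ᵥ (toP l).rep) = 0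
  rw [dotProduct_mulVec, vecMul_transpose, mulVec_mulVec, ← Units.val_mul, inv_mul_cancel,
    Units.val_one, one_mulVec]
  exact h

theorem two_points (p p' r r' : ℙ K (Fin 3 → K)) (h : p ≠ p') (h' : r ≠ r') :
    ∃ g : PGL(3, K), g • p = r ∧ g • p' = r' := by
  have h2 : MulAction.IsMultiplyPretransitive (Matrix.SpecialLinearGroup (Fin 3) K)
    (ℙ K (Fin 3 → K)) 2 := inferInstance
  rw [MulAction.is_two_pretransitive_iff] at h2
  obtain ⟨g, h3, h4⟩ := h2 h h'
  exact ⟨Matrix.SpecialLinearGroup.toPGL g, h3, h4⟩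

theorem contra_contra (g : GL (Fin 3) K) : contra (contra g) = g := by
  apply Units.ext
  change ((contra g)⁻¹ : GL (Fin 3) K).val.transpose = g.val
  rw [← map_inv]
  change ((((g⁻¹)⁻¹ : GL (Fin 3) K).val).transpose).transpose = g.val
  rw [transpose_transpose, inv_inv]

theorem two_lines (p p' r r' : LineT K) (h : p ≠ p') (h' : r ≠ r') :
    ∃ g : PGL(3, K), g • p = r ∧ g • p' = r' := by
  have h2 : MulAction.IsMultiplyPretransitive (Matrix.SpecialLinearGroup (Fin 3) K)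
    (ℙ K (Fin 3 → K)) 2 := inferInstance
  rw [MulAction.is_two_pretransitive_iff] at h2
  obtain ⟨g, h3, h4⟩ := h2 (a := toP p) (b := toP p') (c := toP r) (d := toP r') h h'
  refine ⟨Matrix.ProjGenLinGroup.mk (contra (g : GL (Fin 3) K)), ?_, ?_⟩
  · rw [mk_smul_line]
    change contra (contra (g : GL (Fin 3) K)) • toP p = toP r
    rw [contra_contra]
    exact h3
  · rw [mk_smul_line]
    change contra (contra (g : GL (Fin 3) K)) • toP p' = toP r'
    rw [contra_contra]
    exact h4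

open Classical in
theorem card_plane [Finite K] :
    Nat.card (ℙ K (Fin 3 → K)) = Nat.card K ^ 2 + Nat.card K + 1 := by
  rw [Projectivization.card_of_finrank K (Fin 3 → K) (n := 3) (by simp)]
  simp [Finset.sum_range_succ]
  ring

open Classical in
theorem order_eq [Finite K] :
    Configuration.ProjectivePlane.order (ℙ K (Fin 3 → K)) (ℙ K (Fin 3 → K)) = Nat.card K := by
  have : Finite (ℙ K (Fin 3 → K)) := inferInstance
  have := Fintype.ofFinite (ℙ K (Fin 3 → K))
  have h := Configuration.ProjectivePlane.card_points (ℙ K (Fin 3 → K)) (ℙ K (Fin 3 → K))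
  rw [← Nat.card_eq_fintype_card, card_plane] at h
  nlinarith [h]

open Classical in
theorem card_line' [Finite K] (l : LineT K) :
    Nat.card {p : ℙ K (Fin 3 → K) // inc p l} = Nat.card K + 1 := by
  have h := Configuration.ProjectivePlane.pointCount_eq (ℙ K (Fin 3 → K)) (toP l)
  rw [order_eq] at h
  exact h

open Classical in
theorem card_point' [Finite K] (p : ℙ K (Fin 3 → K)) :
    Nat.card {l : LineT K // inc p l} = Nat.card K + 1 := by
  have h := Configuration.ProjectivePlane.lineCount_eq (ℙ K (Fin 3 → K)) p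
  rw [order_eq] at h
  exact h

open Classical in
theorem exists_line (p p' : ℙ K (Fin 3 → K)) (h : p ≠ p') :
    ∃! l : LineT K, inc p l ∧ inc p' l :=
  Configuration.HasLines.existsUnique_line (ℙ K (Fin 3 → K)) (ℙ K (Fin 3 → K)) p p' h

open Classical in
theorem exists_point (l l' : LineT K) (h : l ≠ l') :
    ∃! p : ℙ K (Fin 3 → K), inc p l ∧ inc p l' :=
  Configuration.HasPoints.existsUnique_point (ℙ K (Fin 3 → K)) (ℙ K (Fin 3 → K)) (toP l) (toP l') h

theorem mk_elt_eq (v φ : Fin 3 → K) (h : φ ⬝ᵥ v = 0) (i j i' j' : Fin 3) (hij : i ≠ j)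
    (hij' : i' ≠ j') (a b : K) (hab : (1 + vecMulVec v φ : Matrix (Fin 3) (Fin 3) K) =
      Matrix.transvection i j a * Matrix.transvection i' j' b) :
    (Matrix.ProjGenLinGroup.mk (elt v φ h) : PGL(3, K)) = tv i j hij a * tv i' j' hij' b := by
  refine Eq.trans ?_ (map_mul Matrix.SpecialLinearGroup.toPGL _ _)
  change Matrix.ProjGenLinGroup.mk _ = Matrix.ProjGenLinGroup.mk _
  congr 1
  apply Units.ext
  exact hab

end

theorem targetB : TargetB := by
  intro K _ _ hK hK4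
  have hPL : Nat.card (LineT K) = Nat.card K ^ 2 + Nat.card K + 1 := card_plane (K := K)
  refine ⟨EPd, ELd, ⟨inc_smul, exists_line, exists_point, hK4, hK, card_line', card_point',
    card_plane, hPL, two_points, two_lines, fun p => card_range_not_dvd hK _ _, EP_fix, EP_fix_line,
    EP_trans, EP_trans_line, fun p => card_range_not_dvd hK _ _, EL_fix, EL_fix_point, EL_trans,
    EL_trans_point⟩, ?_, ?_, ?_⟩
  · refine ⟨Projectivization.mk K ![1, 0, 0] (by simp), ?_⟩
    intro e he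
    obtain ⟨φ, h, rfl⟩ := (mem_EPd _ e).1 he
    obtain ⟨c, hc⟩ := Projectivization.exists_smul_eq_mk_rep K (![1, 0, 0] : Fin 3 → K) (by simp)
    rw [Units.smul_def] at hc
    generalize (Projectivization.mk K (![1, 0, 0] : Fin 3 → K) (by simp)).rep = r at hc h
    have r0 : r 0 = c := by rw [← hc]; simp
    have r1 : r 1 = 0 := by rw [← hc]; simp
    have r2 : r 2 = 0 := by rw [← hc]; simp
    have h0 : φ 0 = 0 := by
      simpa [dotProduct, Fin.sum_univ_three, r0, r1, r2] using h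
    rw [mk_elt_eq _ _ _ 0 1 0 2 (by decide) (by decide) (c * φ 1) (c * φ 2)]
    · exact mul_mem (Subgroup.subset_closure (Or.inl ⟨_, rfl⟩))
        (Subgroup.subset_closure (Or.inr ⟨_, rfl⟩))
    · ext i j
      fin_cases i <;> fin_cases j <;>
        simp [Matrix.transvection, Matrix.mul_apply, Fin.sum_univ_three, vecMulVec_apply, h0,
          Matrix.single_apply, Matrix.one_apply, r0, r1, r2]
  · refine ⟨Projectivization.mk K ![0, 1, 0] (by simp), ?_⟩
    intro e he
    obtain ⟨φ, h, rfl⟩ := (mem_EPd _ e).1 he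
    obtain ⟨c, hc⟩ := Projectivization.exists_smul_eq_mk_rep K (![0, 1, 0] : Fin 3 → K) (by simp)
    rw [Units.smul_def] at hc
    generalize (Projectivization.mk K (![0, 1, 0] : Fin 3 → K) (by simp)).rep = r at hc h
    have r0 : r 0 = 0 := by rw [← hc]; simp
    have r1 : r 1 = c := by rw [← hc]; simp
    have r2 : r 2 = 0 := by rw [← hc]; simp
    have h0 : φ 1 = 0 := by
      simpa [dotProduct, Fin.sum_univ_three, r0, r1, r2] using h
    rw [mk_elt_eq _ _ _ 1 0 1 2 (by decide) (by decide) (c * φ 0) (c * φ 2)]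
    · exact mul_mem (Subgroup.subset_closure (Or.inl ⟨_, rfl⟩))
        (Subgroup.subset_closure (Or.inr ⟨_, rfl⟩))
    · ext i j
      fin_cases i <;> fin_cases j <;>
        simp [Matrix.transvection, Matrix.mul_apply, Fin.sum_univ_three, vecMulVec_apply, h0,
          Matrix.single_apply, Matrix.one_apply, r0, r1, r2]
  · obtain ⟨l, hl⟩ : ∃ l : LineT K, toP l = Projectivization.mk K ![0, 0, 1] (by simp) :=
      ⟨(Projectivization.mk K ![0, 0, 1] (by simp) : ℙ K (Fin 3 → K)), rfl⟩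
    refine ⟨l, ?_⟩
    intro e he
    obtain ⟨v, h, rfl⟩ := (mem_ELd _ e).1 he
    obtain ⟨c, hc⟩ := Projectivization.exists_smul_eq_mk_rep K (![0, 0, 1] : Fin 3 → K) (by simp)
    rw [Units.smul_def, ← hl] at hc
    clear he hl
    generalize (toP l).rep = r at hc h
    have r0 : r 0 = 0 := by rw [← hc]; simp
    have r1 : r 1 = 0 := by rw [← hc]; simp
    have r2 : r 2 = c := by rw [← hc]; simp
    have h0 : v 2 = 0 := by
      simpa [dotProduct, Fin.sum_univ_three, r0, r1, r2] using h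
    rw [mk_elt_eq _ _ _ 0 2 1 2 (by decide) (by decide) (c * v 0) (c * v 1)]
    · exact mul_mem (Subgroup.subset_closure (Or.inl ⟨_, rfl⟩))
        (Subgroup.subset_closure (Or.inr ⟨_, rfl⟩))
    · ext i j
      fin_cases i <;> fin_cases j <;>
        simp [Matrix.transvection, Matrix.mul_apply, Fin.sum_univ_three, vecMulVec_apply, h0,
          Matrix.single_apply, Matrix.one_apply, r0, r1, r2, mul_comm]

end Pool.Agent.Lib.MP_d1e4d8_al
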