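import Pool.Agent.Lib.MP_d1e4d8_al.Targets

/-!
# Target D for MP_d1e4d8_al: the subgroup `N = T ⋊ ⟨σ⟩` of `PGL(3, K)`
-/

set_option autoImplicit false

namespace Pool.Agent.Lib.MP_d1e4d8_al

open scoped LinearAlgebra.Projectivization MatrixGroups

section

variable {K : Type*} [Field K]

/-- The diagonal matrix in `GL`. -/
def dgG (x y z : Kˣ) : GL (Fin 3) K :=
  ⟨Matrix.diagonal ![(x : K), y, z],
    Matrix.diagonal ![((x⁻¹ : Kˣ) : K), (y⁻¹ : Kˣ), (z⁻¹ : Kˣ)], by
      rw [Matrix.diagonal_mul_diagonal, ← Matrix.diagonal_one]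
      congr 1; ext i; fin_cases i <;> simp, by
      rw [Matrix.diagonal_mul_diagonal, ← Matrix.diagonal_one]
      congr 1; ext i; fin_cases i <;> simp⟩

theorem dgG_val (x y z : Kˣ) : (dgG x y z).val = Matrix.diagonal ![(x : K), y, z] := rfl

/-- The cyclic permutation matrix in `GL`. -/
def sgG : GL (Fin 3) K :=
  ⟨!![0, 0, 1; 1, 0, 0; 0, 1, 0], !![0, 1, 0; 0, 0, 1; 1, 0, 0], by
      ext i j; fin_cases i <;> fin_cases j <;> simp [Matrix.mul_apply, Fin.sum_univ_three], by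
      ext i j; fin_cases i <;> fin_cases j <;> simp [Matrix.mul_apply, Fin.sum_univ_three]⟩

theorem sgG_val : (sgG (K := K)).val = !![0, 0, 1; 1, 0, 0; 0, 1, 0] := rfl

theorem dg_eq (x y z : Kˣ) : dg x y z = Matrix.ProjGenLinGroup.mk (dgG x y z) := rfl

theorem sg_eq : sg (K := K) = Matrix.ProjGenLinGroup.mk sgG := rfl

theorem dg_mul (x y z x' y' z' : Kˣ) :
    dg x y z * dg x' y' z' = dg (x * x') (y * y') (z * z') := by
  rw [dg_eq, dg_eq, dg_eq, ← map_mul]
  congr 1
  apply Units.ext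
  rw [Units.val_mul, dgG_val, dgG_val, dgG_val, Matrix.diagonal_mul_diagonal]
  congr 1
  ext i
  fin_cases i <;> simp

theorem scalar_eq (c : Kˣ) : (Matrix.GeneralLinearGroup.scalar (Fin 3) c : GL (Fin 3) K).val =
    Matrix.diagonal ![(c : K), c, c] := by
  change Matrix.scalar (Fin 3) (c : K) = _
  rw [Matrix.scalar_apply]
  congr 1
  ext i
  fin_cases i <;> simp

theorem dg_eq_iff (x y z x' y' z' : Kˣ) :
    dg x y z = dg x' y' z' ↔ ∃ c : Kˣ, x * c = x' ∧ y * c = y' ∧ z * c = z' := by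
  rw [dg_eq, dg_eq, Matrix.ProjGenLinGroup.mk_eq_mk_iff]
  apply exists_congr
  intro c
  constructor
  · intro h
    have h1 := congrArg (fun g : GL (Fin 3) K => g.val) h
    simp only [Units.val_mul, dgG_val, scalar_eq, Matrix.diagonal_mul_diagonal] at h1
    have h2 := Matrix.diagonal_injective h1
    refine ⟨Units.ext ?_, Units.ext ?_, Units.ext ?_⟩
    · simpa using congrFun h2 0
    · simpa using congrFun h2 1
    · simpa using congrFun h2 2
  · rintro ⟨rfl, rfl, rfl⟩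
    apply Units.ext
    rw [Units.val_mul, dgG_val, dgG_val, scalar_eq, Matrix.diagonal_mul_diagonal]
    congr 1
    ext i
    fin_cases i <;> simp

theorem dg_norm (x y z : Kˣ) : dg x y z = dg (x * z⁻¹) (y * z⁻¹) 1 :=
  (dg_eq_iff _ _ _ _ _ _).2 ⟨z⁻¹, rfl, rfl, mul_inv_cancel z⟩

theorem dg_one : dg (1 : Kˣ) 1 1 = 1 := by
  rw [dg_eq, ← map_one (Matrix.ProjGenLinGroup.mk (n := Fin 3) (R := K))]
  congr 1
  apply Units.ext
  rw [dgG_val]
  change _ = (1 : Matrix (Fin 3) (Fin 3) K)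
  rw [← Matrix.diagonal_one]
  congr 1
  ext i
  fin_cases i <;> simp

theorem dg_const (x : Kˣ) : dg x x x = 1 := by
  rw [← dg_one, dg_eq_iff]
  exact ⟨x⁻¹, by simp⟩

theorem dg_inv (x y z : Kˣ) : (dg x y z)⁻¹ = dg x⁻¹ y⁻¹ z⁻¹ := by
  rw [inv_eq_iff_mul_eq_one, dg_mul]
  simp [dg_one]

theorem sg_dg (x y z : Kˣ) : sg * dg x y z = dg z x y * sg := by
  rw [dg_eq, dg_eq, sg_eq, ← map_mul, ← map_mul]
  congr 1
  apply Units.ext
  rw [Units.val_mul, Units.val_mul, dgG_val, dgG_val, sgG_val]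
  ext i j
  rw [Matrix.mul_diagonal, Matrix.diagonal_mul]
  fin_cases i <;> fin_cases j <;> simp

theorem sg_cube : sg * sg * sg = (1 : PGL(3, K)) := by
  rw [sg_eq, ← map_mul, ← map_mul, ← map_one (Matrix.ProjGenLinGroup.mk (n := Fin 3) (R := K))]
  congr 1
  apply Units.ext
  rw [Units.val_mul, Units.val_mul, sgG_val, Units.val_one]
  ext i j
  fin_cases i <;> fin_cases j <;> simp [Matrix.mul_apply, Fin.sum_univ_three]

theorem sg_ne_dg (x y z : Kˣ) : sg ≠ dg x y z := by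
  rw [dg_eq, sg_eq, Ne, Matrix.ProjGenLinGroup.mk_eq_mk_iff]
  rintro ⟨c, h⟩
  have h1 := congrArg (fun g : GL (Fin 3) K => g.val 0 0) h
  simp only [Units.val_mul, dgG_val, sgG_val, scalar_eq, Matrix.mul_diagonal] at h1
  simp at h1
  exact x.ne_zero h1.symm

theorem sg_sg_ne_dg (x y z : Kˣ) : sg * sg ≠ dg x y z := by
  intro h
  have h1 : sg * (sg * sg) = sg * dg x y z := by rw [h]
  rw [← mul_assoc, sg_cube] at h1
  have h2 : sg = dg x⁻¹ y⁻¹ z⁻¹ := by
    rw [← dg_inv]
    exact eq_inv_of_mul_eq_one_left h1.symm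
  exact sg_ne_dg _ _ _ h2

/-- The square of `sg`. -/
noncomputable def sh : PGL(3, K) := sg * sg

theorem sg_sg : sg * sg = (sh : PGL(3, K)) := rfl

theorem sg_sh : sg * sh = (1 : PGL(3, K)) := by rw [sh, ← mul_assoc, sg_cube]

theorem sh_sg : sh * sg = (1 : PGL(3, K)) := by rw [sh, sg_cube]

theorem sh_sh : sh * sh = (sg : PGL(3, K)) := by
  rw [sh, mul_assoc, ← mul_assoc sg sg sg, sg_cube, mul_one]

theorem sg_inv : (sg : PGL(3, K))⁻¹ = sh := by
  rw [inv_eq_iff_mul_eq_one, sg_sh]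

theorem sh_inv : (sh : PGL(3, K))⁻¹ = sg := by
  rw [inv_eq_iff_mul_eq_one, sh_sg]

theorem sh_dg (x y z : Kˣ) : sh * dg x y z = dg y z x * sh := by
  rw [sh, mul_assoc, sg_dg, ← mul_assoc, sg_dg, mul_assoc]

theorem sh_ne_dg (x y z : Kˣ) : sh ≠ dg x y z := sg_sg_ne_dg x y z

/-- The image of the diagonal torus. -/
def torus (K : Type*) [Field K] : Subgroup PGL(3, K) where
  carrier := {g | ∃ x y z : Kˣ, g = dg x y z}
  one_mem' := ⟨1, 1, 1, dg_one.symm⟩
  mul_mem' := by
    rintro _ _ ⟨x, y, z, rfl⟩ ⟨x', y', z', rfl⟩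
    exact ⟨_, _, _, dg_mul _ _ _ _ _ _⟩
  inv_mem' := by
    rintro _ ⟨x, y, z, rfl⟩
    exact ⟨_, _, _, dg_inv _ _ _⟩

theorem mem_torus {g : PGL(3, K)} : g ∈ torus K ↔ ∃ x y z : Kˣ, g = dg x y z := Iff.rfl

theorem dg_mem (x y z : Kˣ) : dg x y z ∈ torus K := ⟨x, y, z, rfl⟩

/-- The group generated by the torus and the cyclic permutation matrix. -/
def torusN (K : Type*) [Field K] : Subgroup PGL(3, K) where
  carrier := {g | ∃ x y z : Kˣ, g = dg x y z ∨ g = dg x y z * sg ∨ g = dg x y z * sh}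
  one_mem' := ⟨1, 1, 1, Or.inl dg_one.symm⟩
  mul_mem' := by
    rintro _ _ ⟨x, y, z, rfl | rfl | rfl⟩ ⟨x', y', z', rfl | rfl | rfl⟩
    · exact ⟨_, _, _, Or.inl (dg_mul _ _ _ _ _ _)⟩
    · exact ⟨_, _, _, Or.inr (Or.inl (by rw [← mul_assoc, dg_mul]))⟩
    · exact ⟨_, _, _, Or.inr (Or.inr (by rw [← mul_assoc, dg_mul]))⟩
    · exact ⟨_, _, _, Or.inr (Or.inl (by rw [mul_assoc, sg_dg, ← mul_assoc, dg_mul]))⟩
    · exact ⟨_, _, _, Or.inr (Or.inr (by
        rw [mul_assoc, ← mul_assoc sg, sg_dg, mul_assoc, sg_sg, ← mul_assoc, dg_mul]))⟩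
    · exact ⟨_, _, _, Or.inl (by
        rw [mul_assoc, ← mul_assoc sg, sg_dg, mul_assoc, sg_sh, ← mul_assoc, dg_mul, mul_one])⟩
    · exact ⟨_, _, _, Or.inr (Or.inr (by rw [mul_assoc, sh_dg, ← mul_assoc, dg_mul]))⟩
    · exact ⟨_, _, _, Or.inl (by
        rw [mul_assoc, ← mul_assoc sh, sh_dg, mul_assoc, sh_sg, ← mul_assoc, dg_mul, mul_one])⟩
    · exact ⟨_, _, _, Or.inr (Or.inl (by
        rw [mul_assoc, ← mul_assoc sh, sh_dg, mul_assoc, sh_sh, ← mul_assoc, dg_mul]))⟩
  inv_mem' := by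
    rintro _ ⟨x, y, z, rfl | rfl | rfl⟩
    · exact ⟨_, _, _, Or.inl (dg_inv _ _ _)⟩
    · exact ⟨_, _, _, Or.inr (Or.inr (by rw [mul_inv_rev, sg_inv, dg_inv, sh_dg]))⟩
    · exact ⟨_, _, _, Or.inr (Or.inl (by rw [mul_inv_rev, sh_inv, dg_inv, sg_dg]))⟩

theorem mem_torusN {g : PGL(3, K)} : g ∈ torusN K ↔
    ∃ x y z : Kˣ, g = dg x y z ∨ g = dg x y z * sg ∨ g = dg x y z * sh := Iff.rfl

theorem torus_le : torus K ≤ torusN K := by
  rintro _ ⟨x, y, z, rfl⟩
  exact ⟨x, y, z, Or.inl rfl⟩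

theorem sg_notMem : (sg : PGL(3, K)) ∉ torus K := by
  rintro ⟨x, y, z, h⟩
  exact sg_ne_dg _ _ _ h

theorem sh_notMem : (sh : PGL(3, K)) ∉ torus K := by
  rintro ⟨x, y, z, h⟩
  exact sh_ne_dg _ _ _ h

theorem mul_sg_notMem {g : PGL(3, K)} (h : g ∈ torus K) : g * sg ∉ torus K := by
  intro h'
  exact sg_notMem ((Subgroup.mul_mem_cancel_left _ h).1 h')

theorem mul_sh_notMem {g : PGL(3, K)} (h : g ∈ torus K) : g * sh ∉ torus K := by
  intro h'
  exact sh_notMem ((Subgroup.mul_mem_cancel_left _ h).1 h')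

theorem torus_comm {a b : PGL(3, K)} (ha : a ∈ torus K) (hb : b ∈ torus K) : a * b = b * a := by
  obtain ⟨x, y, z, rfl⟩ := ha
  obtain ⟨x', y', z', rfl⟩ := hb
  rw [dg_mul, dg_mul, mul_comm x, mul_comm y, mul_comm z]

theorem sg_conj (x y z : Kˣ) : sg * dg x y z * sg⁻¹ = dg z x y := by
  rw [sg_dg, mul_inv_cancel_right]

theorem sh_conj (x y z : Kˣ) : sh * dg x y z * sh⁻¹ = dg y z x := by
  rw [sh_dg, mul_inv_cancel_right]

theorem dg_conj_dg (x y z x' y' z' : Kˣ) :
    dg x y z * dg x' y' z' * (dg x y z)⁻¹ = dg x' y' z' := by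
  rw [torus_comm (dg_mem x y z) (dg_mem x' y' z'), mul_inv_cancel_right]

theorem mul_conj_aux {G : Type*} [Group G] (a b c : G) :
    (a * b) * c * (a * b)⁻¹ = a * (b * c * b⁻¹) * a⁻¹ := by group

theorem dgsg_conj (x y z x' y' z' : Kˣ) :
    (dg x y z * sg) * dg x' y' z' * (dg x y z * sg)⁻¹ = dg z' x' y' := by
  rw [mul_conj_aux, sg_conj, dg_conj_dg]

theorem dgsh_conj (x y z x' y' z' : Kˣ) :
    (dg x y z * sh) * dg x' y' z' * (dg x y z * sh)⁻¹ = dg y' z' x' := by
  rw [mul_conj_aux, sh_conj, dg_conj_dg]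

theorem dg_injective : Function.Injective (fun t : Kˣ × Kˣ => dg t.1 t.2 1) := by
  rintro ⟨x, y⟩ ⟨x', y'⟩ h
  obtain ⟨c, h1, h2, h3⟩ := (dg_eq_iff _ _ _ _ _ _).1 h
  rw [one_mul] at h3
  subst h3
  simp only [mul_one] at h1 h2
  rw [Prod.mk.injEq]
  exact ⟨h1, h2⟩

theorem torus_eq : (torus K : Set PGL(3, K)) = {g | ∃ x y : Kˣ, g = dg x y 1} := by
  ext g
  constructor
  · rintro ⟨x, y, z, rfl⟩
    exact ⟨_, _, dg_norm x y z⟩
  · rintro ⟨x, y, rfl⟩
    exact dg_mem x y 1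

theorem card_torus : Nat.card (torus K) = Nat.card Kˣ ^ 2 := by
  have h : Function.Bijective (fun t : Kˣ × Kˣ => (⟨dg t.1 t.2 1, dg_mem _ _ _⟩ : torus K)) := by
    constructor
    · intro a b h
      exact dg_injective (Subtype.ext_iff.1 h)
    · rintro ⟨g, hg⟩
      have hg' : g ∈ (torus K : Set PGL(3, K)) := hg
      rw [torus_eq] at hg'
      obtain ⟨x, y, rfl⟩ := hg'
      exact ⟨(x, y), rfl⟩
  rw [← Nat.card_eq_of_bijective _ h, Nat.card_prod, pow_two]

/-- Bijection between `T × {1, σ, σ²}` and `N`. -/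
theorem card_torusN : Nat.card (torusN K) = Nat.card (torus K) * 3 := by
  let f : torus K × Fin 3 → torusN K := fun t =>
    ⟨t.1 * (![1, sg, sh] t.2 : PGL(3, K)), by
      obtain ⟨⟨g, x, y, z, rfl⟩, k⟩ := t
      refine ⟨x, y, z, ?_⟩
      fin_cases k
      · exact Or.inl (mul_one _)
      · exact Or.inr (Or.inl rfl)
      · exact Or.inr (Or.inr rfl)⟩
  have hf : Function.Bijective f := by
    constructor
    · rintro ⟨⟨a, ha⟩, k⟩ ⟨⟨b, hb⟩, l⟩ h
      have h1 : a * (![1, sg, sh] k : PGL(3, K)) = b * (![1, sg, sh] l : PGL(3, K)) :=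
        congrArg Subtype.val h
      have h2 : b⁻¹ * a = (![1, sg, sh] l : PGL(3, K)) * (![1, sg, sh] k : PGL(3, K))⁻¹ := by
        rw [eq_mul_inv_iff_mul_eq, mul_assoc, h1, inv_mul_cancel_left]
      have h3 : (![1, sg, sh] l : PGL(3, K)) * (![1, sg, sh] k : PGL(3, K))⁻¹ ∈ torus K := by
        rw [← h2]
        exact mul_mem (inv_mem hb) ha
      have h4 : l = k := by
        fin_cases k <;> fin_cases l <;> first | rfl | skip
        · exfalso
          apply sg_notMem (K := K)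
          simpa using h3
        · exfalso
          apply sh_notMem (K := K)
          simpa using h3
        · exfalso
          apply sh_notMem (K := K)
          simpa [sg_inv] using h3
        · exfalso
          apply sg_notMem (K := K)
          simpa [sg_inv, sh_sh] using h3
        · exfalso
          apply sg_notMem (K := K)
          simpa [sh_inv] using h3
        · exfalso
          apply sh_notMem (K := K)
          simpa [sh_inv, sg_sg] using h3
      subst h4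
      have h5 : a = b := mul_right_cancel h1
      subst h5
      rfl
    · rintro ⟨g, x, y, z, rfl | rfl | rfl⟩
      · exact ⟨(⟨_, dg_mem x y z⟩, 0), Subtype.ext (mul_one _)⟩
      · exact ⟨(⟨_, dg_mem x y z⟩, 1), rfl⟩
      · exact ⟨(⟨_, dg_mem x y z⟩, 2), rfl⟩
  rw [← Nat.card_eq_of_bijective f hf, Nat.card_prod]
  simp

/-- The order of `PGL(3, K)`. -/
theorem card_PGL [Finite K] : Nat.card PGL(3, K) * (Nat.card K - 1) =
    (Nat.card K ^ 3 - 1) * (Nat.card K ^ 3 - Nat.card K) * (Nat.card K ^ 3 - Nat.card K ^ 2) := by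
  have := Fintype.ofFinite K
  have h1 := Matrix.card_GL_field (𝔽 := K) 3
  rw [Fin.prod_univ_three] at h1
  have h2 : Nat.card PGL(3, K) * Nat.card (Subgroup.center (GL (Fin 3) K)) =
      Nat.card (GL (Fin 3) K) :=
    (Subgroup.card_eq_card_quotient_mul_card_subgroup _).symm
  have h3 : Nat.card (Subgroup.center (GL (Fin 3) K)) = Nat.card K - 1 := by
    rw [Matrix.GeneralLinearGroup.center_eq_range_scalar]
    have hinj : Function.Injective (Matrix.GeneralLinearGroup.scalar (Fin 3) :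
        Kˣ →* GL (Fin 3) K) := by
      intro a b h
      have h4 := congrArg (fun g : GL (Fin 3) K => g.val) h
      simp only [scalar_eq] at h4
      have h5 := congrFun (Matrix.diagonal_injective h4) 0
      exact Units.ext (by simpa using h5)
    rw [← Nat.card_congr (MonoidHom.ofInjective hinj).toEquiv, Nat.card_units]
  rw [h3, h1] at h2
  rw [h2, Nat.card_eq_fintype_card]
  simp

end

theorem index_arith {q i : ℕ} (hq : q % 3 = 1) (h2 : 2 ≤ q)
    (h : i * ((q - 1) ^ 2 * 3) * (q - 1) = (q ^ 3 - 1) * (q ^ 3 - q) * (q ^ 3 - q ^ 2)) :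
    ¬ (3 ∣ i) := by
  obtain ⟨k, rfl⟩ : ∃ k, q = 3 * k + 1 := ⟨q / 3, by omega⟩
  have hk : 1 ≤ k := by omega
  rintro ⟨j, rfl⟩
  have e1 : (3 * k + 1) ^ 3 - 1 = 3 * k * (9 * k ^ 2 + 9 * k + 3) := by
    rw [Nat.sub_eq_iff_eq_add (Nat.one_le_pow _ _ (by omega))]; ring
  have e2 : (3 * k + 1) ^ 3 - (3 * k + 1) = 3 * k * ((3 * k + 1) * (3 * k + 2)) := by
    rw [Nat.sub_eq_iff_eq_add (Nat.le_self_pow (by norm_num) _)]; ring
  have e3 : (3 * k + 1) ^ 3 - (3 * k + 1) ^ 2 = 3 * k * ((3 * k + 1) ^ 2) := by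
    rw [Nat.sub_eq_iff_eq_add (Nat.pow_le_pow_right (by omega) (by norm_num))]; ring
  rw [e1, e2, e3] at h
  have e4 : 3 * k + 1 - 1 = 3 * k := by omega
  rw [e4] at h
  have h5 : (3 * k) ^ 3 * (9 * j) =
      (3 * k) ^ 3 * ((9 * k ^ 2 + 9 * k + 3) * ((3 * k + 1) * (3 * k + 2)) * (3 * k + 1) ^ 2) := by
    calc _ = 3 * j * ((3 * k) ^ 2 * 3) * (3 * k) := by ring
      _ = _ := h
      _ = _ := by ring
  have h6 := Nat.eq_of_mul_eq_mul_left (by positivity) h5
  have h7 : 3 * j = (3 * k ^ 2 + 3 * k + 1) * ((3 * k + 1) * (3 * k + 2)) * (3 * k + 1) ^ 2 := by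
    have : 3 * (3 * j) =
        3 * ((3 * k ^ 2 + 3 * k + 1) * ((3 * k + 1) * (3 * k + 2)) * (3 * k + 1) ^ 2) := by
      calc _ = 9 * j := by ring
        _ = _ := h6
        _ = _ := by ring
    omega
  have h8 : ((3 * k ^ 2 + 3 * k + 1) * ((3 * k + 1) * (3 * k + 2)) * (3 * k + 1) ^ 2) % 3 = 2 := by
    simp [Nat.mul_mod, Nat.add_mod, Nat.pow_mod]
  omega

/-- The torus elements centralised by `σ`. -/
theorem card_fixed {K : Type*} [Field K] [Finite K] (hK : Nat.card K % 3 = 1) :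
    Nat.card {a : PGL(3, K) // a ∈ torus K ∧ sg * a = a * sg} = 3 := by
  let f : (powMonoidHom 3 : Kˣ →* Kˣ).ker → {a : PGL(3, K) // a ∈ torus K ∧ sg * a = a * sg} :=
    fun c => ⟨dg 1 c.1 (c.1 * c.1), dg_mem _ _ _, by
      rw [sg_dg]
      congr 1
      rw [dg_eq_iff]
      have hc : (c.1 : Kˣ) ^ 3 = 1 := c.2
      refine ⟨c.1, ?_, ?_, rfl⟩
      · rw [← hc, pow_succ, pow_two]
      · rw [one_mul]⟩
  have hf : Function.Bijective f := by
    constructor
    · intro a b h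
      have h1 : dg 1 a.1 (a.1 * a.1) = dg 1 b.1 (b.1 * b.1) := congrArg Subtype.val h
      rw [dg_eq_iff] at h1
      obtain ⟨c, h1, h2, -⟩ := h1
      rw [one_mul] at h1
      subst h1
      rw [mul_one] at h2
      exact Subtype.ext h2
    · rintro ⟨_, ⟨x, y, z, rfl⟩, h⟩
      rw [sg_dg] at h
      have h1 := mul_right_cancel h
      rw [dg_eq_iff] at h1
      obtain ⟨c, h1, h2, h3⟩ := h1
      subst h2
      subst h3
      have hc : c ^ 3 = 1 := by
        have : x * c ^ 3 = x * 1 := by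
          rw [mul_one]
          calc x * c ^ 3 = x * c * c * c := by rw [pow_succ, pow_two, mul_assoc, mul_assoc, mul_assoc]
            _ = x := h1
        exact mul_left_cancel this
      refine ⟨⟨c, hc⟩, Subtype.ext ?_⟩
      change dg 1 c (c * c) = dg x (x * c) (x * c * c)
      rw [dg_eq_iff]
      refine ⟨x, by simp, mul_comm _ _, ?_⟩
      rw [mul_comm, mul_assoc]
  rw [← Nat.card_eq_of_bijective f hf, IsCyclic.card_powMonoidHom_ker, Nat.card_units]
  have : 3 ∣ Nat.card K - 1 := by omega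
  exact Nat.gcd_eq_right this

theorem comm_iff_sg {K : Type*} [Field K] (b a : PGL(3, K)) (hb : b ∈ torus K) (ha : a ∈ torus K) :
    (b * sg * a = a * (b * sg)) ↔ sg * a = a * sg := by
  rw [mul_assoc, ← mul_assoc a, torus_comm ha hb, mul_assoc]
  exact mul_right_inj b

theorem comm_iff_sh {K : Type*} [Field K] (b a : PGL(3, K)) (hb : b ∈ torus K) (ha : a ∈ torus K) :
    (b * sh * a = a * (b * sh)) ↔ sg * a = a * sg := by
  rw [mul_assoc, ← mul_assoc a, torus_comm ha hb, mul_assoc, mul_right_inj b]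
  constructor
  · intro h
    rw [← sh_sh, mul_assoc, h, ← mul_assoc, h, mul_assoc]
  · intro h
    rw [← sg_sg, mul_assoc, h, ← mul_assoc, h, mul_assoc]

theorem targetD : TargetD := by
  intro K _ _ hK
  have := Fintype.ofFinite K
  have h2 : 2 ≤ Nat.card K := by
    have := Finite.one_lt_card (α := K)
    omega
  refine ⟨torus K, torusN K, torus_eq, torus_le, dg_injective, ?_, ?_, ?_, ?_, ?_⟩
  · rw [card_torus, Nat.card_units]
  · have h3 := Subgroup.index_mul_card (torusN K)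
    have h4 := card_PGL (K := K)
    rw [← h3, card_torusN, card_torus, Nat.card_units] at h4
    exact index_arith hK h2 h4
  · intro a ha b hb
    exact torus_comm ha hb
  · rintro g ⟨x, y, z, rfl | rfl | rfl⟩ _ ⟨x', y', z', rfl⟩
    · rw [dg_conj_dg]; exact dg_mem _ _ _
    · rw [dgsg_conj]; exact dg_mem _ _ _
    · rw [dgsh_conj]; exact dg_mem _ _ _
  · rintro g ⟨x, y, z, hg⟩ hgT
    rcases hg with rfl | rfl | rfl
    · exact absurd (dg_mem x y z) hgT
    · have e1 : dg x y z * sg * (dg x y z * sg) = dg (x * z) (y * x) (z * y) * sh := by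
        rw [mul_assoc, ← mul_assoc sg, sg_dg, mul_assoc, sg_sg, ← mul_assoc, dg_mul]
      refine ⟨?_, ?_, ?_, ?_, ?_⟩
      · rw [e1]
        exact mul_sh_notMem (dg_mem _ _ _)
      · rw [e1, mul_assoc, ← mul_assoc sh, sh_dg, mul_assoc, sh_sg, mul_one, dg_mul]
        have : dg (x * z * y) (y * x * z) (z * y * x) = 1 := by
          rw [show y * x * z = x * z * y by rw [mul_comm y, mul_assoc, mul_comm y, mul_assoc],
            show z * y * x = x * z * y by rw [mul_comm, mul_assoc]]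
          exact dg_const _
        exact this
      · rintro h ⟨x', y', z', rfl | rfl | rfl⟩
        · exact Or.inl (dg_mem _ _ _)
        · refine Or.inr (Or.inl ?_)
          rw [mul_inv_rev, mul_assoc, ← mul_assoc sg, mul_inv_cancel, one_mul, dg_inv, dg_mul]
          exact dg_mem _ _ _
        · refine Or.inr (Or.inr ?_)
          rw [e1, mul_inv_rev, mul_assoc, ← mul_assoc sh, mul_inv_cancel, one_mul, dg_inv, dg_mul]
          exact dg_mem _ _ _
      · rintro _ ⟨x', y', z', rfl⟩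
        rw [dgsg_conj, dgsg_conj, dg_mul, dg_mul]
        have : dg (x' * z' * y') (y' * x' * z') (z' * y' * x') = 1 := by
          rw [show y' * x' * z' = x' * z' * y' by
              rw [mul_comm y', mul_assoc, mul_comm y', mul_assoc],
            show z' * y' * x' = x' * z' * y' by rw [mul_comm, mul_assoc]]
          exact dg_const _
        exact this
      · refine Eq.trans (Nat.card_congr (Equiv.subtypeEquivRight ?_)) (card_fixed hK)
        intro a
        exact and_congr_right fun ha => comm_iff_sg _ _ (dg_mem _ _ _) ha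
    · have e1 : dg x y z * sh * (dg x y z * sh) = dg (x * y) (y * z) (z * x) * sg := by
        rw [mul_assoc, ← mul_assoc sh, sh_dg, mul_assoc, sh_sh, ← mul_assoc, dg_mul]
      refine ⟨?_, ?_, ?_, ?_, ?_⟩
      · rw [e1]
        exact mul_sg_notMem (dg_mem _ _ _)
      · rw [e1, mul_assoc, ← mul_assoc sg, sg_dg, mul_assoc, sg_sh, mul_one, dg_mul]
        have : dg (x * y * z) (y * z * x) (z * x * y) = 1 := by
          rw [show y * z * x = x * y * z by rw [mul_comm, mul_assoc],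
            show z * x * y = x * y * z by rw [mul_assoc, mul_comm]]
          exact dg_const _
        exact this
      · rintro h ⟨x', y', z', rfl | rfl | rfl⟩
        · exact Or.inl (dg_mem _ _ _)
        · refine Or.inr (Or.inr ?_)
          rw [e1, mul_inv_rev, mul_assoc, ← mul_assoc sg, mul_inv_cancel, one_mul, dg_inv, dg_mul]
          exact dg_mem _ _ _
        · refine Or.inr (Or.inl ?_)
          rw [mul_inv_rev, mul_assoc, ← mul_assoc sh, mul_inv_cancel, one_mul, dg_inv, dg_mul]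
          exact dg_mem _ _ _
      · rintro _ ⟨x', y', z', rfl⟩
        rw [dgsh_conj, dgsh_conj, dg_mul, dg_mul]
        have : dg (x' * y' * z') (y' * z' * x') (z' * x' * y') = 1 := by
          rw [show y' * z' * x' = x' * y' * z' by rw [mul_comm, mul_assoc],
            show z' * x' * y' = x' * y' * z' by rw [mul_assoc, mul_comm]]
          exact dg_const _
        exact this
      · refine Eq.trans (Nat.card_congr (Equiv.subtypeEquivRight ?_)) (card_fixed hK)
        intro a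
        exact and_congr_right fun ha => comm_iff_sh _ _ (dg_mem _ _ _) ha

end Pool.Agent.Lib.MP_d1e4d8_al
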