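import Pool.Agent.Lib.MP_d1e4d8_al.Targets

/-!
# Target A: a cuspidal simple module for a two-transitive group of a projective plane, in
characteristic `3`
-/

set_option autoImplicit false

namespace Pool.Agent.Lib.MP_d1e4d8_al

open scoped Classical
open Finset

universe u

/-! ### Permutation representations on functions -/

/-- The permutation representation on functions. -/
def permRep (F G Ω : Type*) [Group G] [Field F] [MulAction G Ω] : Representation F G (Ω → F) where
  toFun g := LinearMap.funLeft F F (fun ω => g⁻¹ • ω)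
  map_one' := by
    apply LinearMap.ext; intro f; funext ω
    simp [LinearMap.funLeft_apply]
  map_mul' g h := by
    apply LinearMap.ext; intro f; funext ω
    simp [LinearMap.funLeft_apply, mul_smul]

theorem permRep_apply (F G Ω : Type*) [Group G] [Field F] [MulAction G Ω] (g : G) (f : Ω → F)
    (ω : Ω) : permRep F G Ω g f ω = f (g⁻¹ • ω) := rfl

theorem hom_comm {F G V W : Type*} [Group G] [Field F] [AddCommGroup V] [Module F V]
    [AddCommGroup W] [Module F W] (ρ : Representation F G V) (σ : Representation F G W)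
    (T : V →ₗ[F] W) (h : ∀ g v, T (ρ g v) = σ g (T v)) (b : MonoidAlgebra F G) (v : V) :
    T (ρ.asAlgebraHom b v) = σ.asAlgebraHom b (T v) := by
  induction b using MonoidAlgebra.induction_linear with
  | zero => simp
  | add x y hx hy => simp only [map_add, LinearMap.add_apply, hx, hy]
  | single g a =>
    simp only [Representation.asAlgebraHom_single, LinearMap.smul_apply, map_smul, h]

theorem central_comm {F G V : Type*} [Group G] [Field F] [AddCommGroup V] [Module F V]
    (ρ : Representation F G V) (b : MonoidAlgebra F G)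
    (hb : b ∈ Subring.center (MonoidAlgebra F G)) (g : G) (v : V) :
    ρ g (ρ.asAlgebraHom b v) = ρ.asAlgebraHom b (ρ g v) := by
  have h := Subring.mem_center_iff.1 hb (MonoidAlgebra.of F G g)
  have h2 := congrArg (fun x => ρ.asAlgebraHom x v) h
  simp only [map_mul, Representation.asAlgebraHom_of, Module.End.mul_apply] at h2
  exact h2

theorem idem_idem {F G V : Type*} [Group G] [Field F] [AddCommGroup V] [Module F V]
    (ρ : Representation F G V) (b : MonoidAlgebra F G)
    (hb : b * b = b) (v : V) :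
    ρ.asAlgebraHom b (ρ.asAlgebraHom b v) = ρ.asAlgebraHom b v := by
  rw [← Module.End.mul_apply, ← map_mul, hb]

theorem aug_const {F G Ω : Type*} [Group G] [Field F] [MulAction G Ω] (b : MonoidAlgebra F G)
    (h0 : MonoidAlgebra.lift F F G 1 b = 0) (c : F) :
    (permRep F G Ω).asAlgebraHom b (fun _ => c) = 0 := by
  have h : ∀ b : MonoidAlgebra F G, (permRep F G Ω).asAlgebraHom b (fun _ => c) =
      fun _ => MonoidAlgebra.lift F F G 1 b * c := by
    intro b
    induction b using MonoidAlgebra.induction_linear with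
    | zero => simp; rfl
    | add x y hx hy =>
      simp only [map_add, LinearMap.add_apply, hx, hy]
      funext ω; simp only [Pi.add_apply]; ring
    | single g a =>
      funext ω
      simp [Representation.asAlgebraHom_single, permRep_apply]
  rw [h, h0]
  funext ω
  simp

/-- A central idempotent with augmentation zero kills a two-transitive permutation module whose
degree is zero in `F`. -/
theorem perm_zero {F G Ω : Type*} [Group G] [Field F] [MulAction G Ω] [Fintype Ω]
    (two : ∀ p p' r r' : Ω, p ≠ p' → r ≠ r' → ∃ g : G, g • p = r ∧ g • p' = r')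
    (hΩ : (Fintype.card Ω : F) = 0) (a0 b0 : Ω) (hab : a0 ≠ b0) (b : MonoidAlgebra F G)
    (hb : b ∈ Subring.center (MonoidAlgebra F G)) (hbb : b * b = b)
    (h0 : MonoidAlgebra.lift F F G 1 b = 0) (f : Ω → F) :
    (permRep F G Ω).asAlgebraHom b f = 0 := by
  set B := (permRep F G Ω).asAlgebraHom b with hB
  have key : ∀ (g : G) (p r : Ω), B (Pi.single (g • p) 1) (g • r) = B (Pi.single p 1) r := by
    intro g p r
    have h1 : (Pi.single (g • p) (1:F) : Ω → F) = permRep F G Ω g (Pi.single p 1) := by
      funext ω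
      rw [permRep_apply]
      simp only [Pi.single_apply]
      congr 1
      simp [inv_smul_eq_iff]
    rw [h1, ← central_comm (permRep F G Ω) b hb, permRep_apply, inv_smul_smul]
  have one : ∀ p r : Ω, ∃ g : G, g • p = r := by
    intro p r
    by_cases hp : p = a0
    · by_cases hr : r = a0
      · obtain ⟨g, h1, h2⟩ := two p b0 r b0 (by rw [hp]; exact hab) (by rw [hr]; exact hab)
        exact ⟨g, h1⟩
      · obtain ⟨g, h1, h2⟩ := two p b0 r a0 (by rw [hp]; exact hab) hr
        exact ⟨g, h1⟩
    · by_cases hr : r = a0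
      · obtain ⟨g, h1, h2⟩ := two p a0 r b0 hp (by rw [hr]; exact hab)
        exact ⟨g, h1⟩
      · obtain ⟨g, h1, h2⟩ := two p a0 r a0 hp hr
        exact ⟨g, h1⟩
  set ν := B (Pi.single a0 1) a0 with hν
  set μ := B (Pi.single a0 1) b0 with hμ
  have kd : ∀ p, B (Pi.single p 1) p = ν := by
    intro p
    obtain ⟨g, rfl⟩ := one a0 p
    rw [key]
  have ko : ∀ p r, p ≠ r → B (Pi.single p 1) r = μ := by
    intro p r hpr
    obtain ⟨g, h1, h2⟩ := two a0 b0 p r hab hpr
    rw [← h1, ← h2, key]
  have form : ∀ f : Ω → F, ∀ r, B f r = μ * ∑ p, f p + (ν - μ) * f r := by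
    intro f r
    have h1 : f = ∑ p, f p • (Pi.single p (1:F) : Ω → F) := by
      funext ω
      simp [Finset.sum_apply, Pi.single_apply]
    conv_lhs => rw [h1]
    rw [map_sum, Finset.sum_apply]
    simp only [map_smul, Pi.smul_apply, smul_eq_mul]
    rw [← Finset.add_sum_erase univ _ (mem_univ r)]
    rw [kd]
    have h2 : ∑ x ∈ univ.erase r, f x * B (Pi.single x 1) r = ∑ x ∈ univ.erase r, f x * μ := by
      apply Finset.sum_congr rfl
      intro x hx
      rw [ko x r (Finset.ne_of_mem_erase hx)]
    rw [h2, ← Finset.sum_mul, ← Finset.add_sum_erase univ f (mem_univ r)]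
    ring
  have hνμ : ν - μ = 0 := by
    have h1 := congrFun (aug_const (Ω := Ω) b h0 1) a0
    rw [← hB, form] at h1
    simp [hΩ] at h1
    exact h1
  have form2 : ∀ f : Ω → F, B f = fun _ => μ * ∑ p, f p := by
    intro f
    funext r
    rw [form, hνμ]
    ring
  have h3 := idem_idem (permRep F G Ω) b hbb f
  rw [← hB] at h3
  rw [← h3, form2 f]
  exact aug_const b h0 _

/-! ### Simple quotient -/

theorem exists_simple_quotient {F : Type u} {G : Type*} {Y : Type u} [Group G] [Field F]
    [AddCommGroup Y] [Module F Y]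
    [Module.Finite F Y] (ρ : Representation F G Y) (S N : Submodule F Y)
    (hS : ∀ g, ∀ x ∈ S, ρ g x ∈ S) (hN : ∀ g, ∀ x ∈ N, ρ g x ∈ N) (hSN : ¬ S ≤ N) :
    ∃ (V : Type u) (_ : AddCommGroup V) (_ : Module F V) (_ : Module.Finite F V)
      (σ : Representation F G V) (π : S →ₗ[F] V), σ.IsIrreducible ∧ Function.Surjective π ∧
      (∀ g x, π ⟨ρ g x.1, hS g x.1 x.2⟩ = σ g (π x)) ∧ (∀ x : S, x.1 ∈ N → π x = 0) := by
  -- choose a maximal proper invariant submodule
  let C : Set (Submodule F Y) := {M | M ≤ S ∧ M ≠ S ∧ S ⊓ N ≤ M ∧ ∀ g, ∀ x ∈ M, ρ g x ∈ M}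
  have hC : C.Nonempty := by
    refine ⟨S ⊓ N, inf_le_left, ?_, le_rfl, ?_⟩
    · intro h; exact hSN (by rw [← h]; exact inf_le_right)
    · intro g x hx; exact ⟨hS g x hx.1, hN g x hx.2⟩
  obtain ⟨M, hM, hmax⟩ := wellFounded_gt.has_min C hC
  obtain ⟨hMS, hMne, hNM, hMi⟩ := hM
  let ρS : Representation F G S := (Subrepresentation.mk (ρ := ρ) S (fun g x hx => hS g x hx)).toRepresentation
  have hρS : ∀ g (x : S), (ρS g x).1 = ρ g x.1 := fun g x => rfl
  let M' : Submodule F S := M.comap S.subtype
  have hM' : ∀ g, M' ≤ M'.comap (ρS g) := by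
    intro g x hx
    exact hMi g x.1 hx
  let σ : Representation F G (S ⧸ M') := ρS.quotient M' hM'
  refine ⟨S ⧸ M', inferInstance, inferInstance, inferInstance, σ, M'.mkQ, ?_, M'.mkQ_surjective, ?_, ?_⟩
  · refine @IsSimpleOrder.mk _ _ _ ?_ ?_
    · refine ⟨⟨⊥, ⊤, ?_⟩⟩
      intro h
      have h2 : (⊥ : Submodule F (S ⧸ M')) = ⊤ := congrArg Subrepresentation.toSubmodule h
      apply hMne
      apply le_antisymm hMS
      intro x hx
      have h3 : M'.mkQ ⟨x, hx⟩ ∈ (⊥ : Submodule F (S ⧸ M')) := by rw [h2]; trivial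
      rw [Submodule.mem_bot, Submodule.mkQ_apply, Submodule.Quotient.mk_eq_zero] at h3
      exact h3
    · intro W
      let W1 : Submodule F Y := (W.toSubmodule.comap M'.mkQ).map S.subtype
      have hMW : M ≤ W1 := by
        intro x hx
        refine ⟨⟨x, hMS hx⟩, ?_, rfl⟩
        change M'.mkQ _ ∈ W.toSubmodule
        have : M'.mkQ ⟨x, hMS hx⟩ = 0 := by
          rw [Submodule.mkQ_apply, Submodule.Quotient.mk_eq_zero]
          exact hx
        rw [this]
        exact W.toSubmodule.zero_mem
      have hWS : W1 ≤ S := by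
        rintro _ ⟨x, _, rfl⟩
        exact x.2
      have hWi : ∀ g, ∀ x ∈ W1, ρ g x ∈ W1 := by
        rintro g _ ⟨x, hx, rfl⟩
        refine ⟨ρS g x, ?_, rfl⟩
        exact W.apply_mem_toSubmodule g hx
      by_cases hW : W1 = S
      · right
        apply Subrepresentation.toSubmodule_injective
        change W.toSubmodule = ⊤
        rw [eq_top_iff]
        intro y _
        obtain ⟨x, rfl⟩ := M'.mkQ_surjective y
        have hx : x.1 ∈ W1 := by rw [hW]; exact x.2
        obtain ⟨x', hx', hxx⟩ := hx
        have : x' = x := Subtype.ext hxx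
        rw [← this]
        exact hx'
      · left
        have hW1 : W1 = M := by
          by_contra hne
          exact hmax W1 ⟨hWS, hW, hNM.trans hMW, hWi⟩ (lt_of_le_of_ne hMW (Ne.symm hne))
        apply Subrepresentation.toSubmodule_injective
        change W.toSubmodule = ⊥
        rw [eq_bot_iff]
        intro y hy
        obtain ⟨x, rfl⟩ := M'.mkQ_surjective y
        rw [Submodule.mem_bot, Submodule.mkQ_apply, Submodule.Quotient.mk_eq_zero]
        change x.1 ∈ M
        rw [← hW1]
        exact ⟨x, hy, rfl⟩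
  · intro g x
    rfl
  · intro x hx
    rw [Submodule.mkQ_apply, Submodule.Quotient.mk_eq_zero]
    exact hNM ⟨x.2, hx⟩


/-! ### The combinatorial lemma (A1) -/

theorem PlaneData.dual {G P L : Type*} [Group G] [MulAction G P] [MulAction G L]
    {I : P → L → Prop} {EP : P → Subgroup G} {EL : L → Subgroup G} {n : ℕ}
    (D : PlaneData G P L I EP EL n) : PlaneData G L P (fun l p => I p l) EL EP n where
  inv g l p h := D.inv g p l h
  line l l' h := D.point l l' h
  point p p' h := D.line p p' h
  four_le := D.four_le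
  n_mod := D.n_mod
  card_line := D.card_point
  card_point := D.card_line
  card_P := D.card_L
  card_L := D.card_P
  twoP := D.twoL
  twoL := D.twoP
  EP_card := D.EL_card
  EP_fix := D.EL_fix
  EP_fix_line := D.EL_fix_point
  EP_trans := D.EL_trans
  EP_trans_line := D.EL_trans_point
  EL_card := D.EP_card
  EL_fix := D.EP_fix
  EL_fix_point := D.EP_fix_line
  EL_trans := D.EP_trans
  EL_trans_point := D.EP_trans_line

/-- The value at `(p', l')` of the function `h_l`. -/
noncomputable def hf (F : Type*) [Field F] {P L : Type*} (I : P → L → Prop) (l : L) (c : P × L) : F :=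
  if I c.1 c.2 then (if I c.1 l then 1 else 0) + (if c.2 = l then 1 else 0) else 0

/-- The value at `(p', l')` of the function `g_p`. -/
noncomputable def gf (F : Type*) [Field F] {P L : Type*} (I : P → L → Prop) (p : P) (c : P × L) : F :=
  if I c.1 c.2 then (if I p c.2 then 1 else 0) + (if c.1 = p then 1 else 0) else 0

variable {G P L : Type*} [Group G] [Fintype P] [Fintype L] [MulAction G P] [MulAction G L]
    {I : P → L → Prop} {EP : P → Subgroup G} {EL : L → Subgroup G} {n : ℕ}

theorem three_zero (F : Type*) [Field F] [CharP F 3] : (3 : F) = 0 := by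
  exact_mod_cast CharP.cast_eq_zero F 3

omit [Fintype P] [Fintype L] in
theorem n_one (D : PlaneData G P L I EP EL n) (F : Type*) [Field F] [CharP F 3] : (n : F) = 1 := by
  have h := Nat.div_add_mod n 3
  rw [D.n_mod] at h
  rw [← h]
  push_cast
  rw [three_zero]
  ring

theorem card_others {α : Type*} [Fintype α] (Q : α → Prop) (a : α) (ha : Q a) (m : ℕ)
    (h : Nat.card {x // Q x} = m + 1) : (univ.filter fun x => Q x ∧ x ≠ a).card = m := by
  rw [Nat.card_eq_fintype_card, Fintype.card_subtype] at h
  have h2 : (univ.filter fun x => Q x ∧ x ≠ a) = (univ.filter Q).erase a := by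
    ext x; simp [and_comm]
  rw [h2, card_erase_of_mem (by simpa using ha), h]
  rfl

theorem sum_const_others {α : Type*} [Fintype α] (F : Type*) [Field F] (Q : α → Prop) (a : α)
    (ha : Q a) (m : ℕ) (hm : (m : F) = 1) (h : Nat.card {x // Q x} = m + 1) (f : α → F)
    (hs : ∀ x, ¬ Q x → f x = 0) (c : F) (hc : ∀ x, Q x → x ≠ a → f x = c) (h0 : ∑ x, f x = 0) :
    c = - f a := by
  have h1 : ∑ x, f x = f a + ∑ x ∈ univ.filter (fun x => Q x ∧ x ≠ a), f x := by
    rw [← Finset.add_sum_erase univ f (mem_univ a)]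
    congr 1
    symm
    apply Finset.sum_subset
    · intro x hx; simp at hx ⊢; exact hx.2
    · intro x hx hx2
      simp at hx hx2
      by_cases hq : Q x
      · exact absurd (hx2 hq) hx
      · exact hs x hq
  have h2 : ∑ x ∈ univ.filter (fun x => Q x ∧ x ≠ a), f x =
      ∑ x ∈ univ.filter (fun x => Q x ∧ x ≠ a), c := by
    apply Finset.sum_congr rfl
    intro x hx
    simp only [Finset.mem_filter, Finset.mem_univ, true_and] at hx
    exact hc x hx.1 hx.2
  rw [h2, Finset.sum_const, card_others Q a ha m h, nsmul_eq_mul, hm, one_mul, h0] at h1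
  linear_combination -h1

theorem A1 (D : PlaneData G P L I EP EL n) (F : Type*) [Field F] [CharP F 3] (f : P × L → F)
    (hs : ∀ p l, ¬ I p l → f (p, l) = 0) (hr : ∀ p, ∑ l, f (p, l) = 0) (hc : ∀ l, ∑ p, f (p, l) = 0)
    (p0 : P) (hf0 : ∀ e ∈ EP p0, ∀ c, f (e • c) = f c) :
    f = ∑ l, f (p0, l) • hf F I l := by
  have hn := n_one D F
  have h3 := three_zero F
  -- claim 1
  have c1 : ∀ l p', I p0 l → I p' l → p' ≠ p0 → f (p', l) = - f (p0, l) := by
    intro l p' h0 h1 hne
    refine sum_const_others F (fun p => I p l) p0 h0 n hn (D.card_line l) (fun p => f (p, l))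
      (fun p hp => hs p l hp) _ ?_ (hc l)
    intro p hp hpn
    obtain ⟨e, he, hep⟩ := D.EP_trans p0 l p' p h0 h1 hp hne hpn
    have := hf0 e he (p', l)
    rw [Prod.smul_mk, hep, D.EP_fix_line p0 e he l h0] at this
    exact this
  -- claim 2
  have c2 : ∀ m l p', I p0 m → I p' m → p' ≠ p0 → I p' l → ¬ I p0 l → f (p', l) = f (p0, m) := by
    intro m l p' h0 h1 hne h2 h3'
    have hml : m ≠ l := fun h => h3' (h ▸ h0)
    have := sum_const_others F (fun l => I p' l) m h1 n hn (D.card_point p') (fun l => f (p', l))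
      (fun l hl => hs p' l hl) (f (p', l)) ?_ (hr p')
    · rw [this, c1 m p' h0 h1 hne, neg_neg]
    · intro l2 hl2 hl2m
      have h4 : ¬ I p0 l2 := by
        intro h
        obtain ⟨x, hx, hu⟩ := D.line p0 p' hne.symm
        exact hl2m ((hu l2 ⟨h, hl2⟩).trans (hu m ⟨h0, h1⟩).symm)
      obtain ⟨e, he, hel⟩ := D.EP_trans_line p0 l l2 h3' h4
      have hem : e • m = m := D.EP_fix_line p0 e he m h0
      have hep : e • p' = p' := by
        obtain ⟨x, hx, hu⟩ := D.point m l2 (Ne.symm hl2m)
        have a1 := D.inv e p' m h1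
        have a2 := D.inv e p' l h2
        rw [hem] at a1
        rw [hel] at a2
        exact (hu _ ⟨a1, a2⟩).trans (hu p' ⟨h1, hl2⟩).symm
      have := hf0 e he (p', l)
      rw [Prod.smul_mk, hep, hel] at this
      exact this
  funext ⟨p', l'⟩
  rw [Finset.sum_apply]
  simp only [Pi.smul_apply, smul_eq_mul, hf]
  by_cases hI : I p' l'
  · simp only [hI, if_true]
    have e1 : ∑ l, f (p0, l) * ((if I p' l then (1:F) else 0) + (if l' = l then 1 else 0)) =
        ∑ l, f (p0, l) * (if I p' l then 1 else 0) + f (p0, l') := by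
      simp only [mul_add, Finset.sum_add_distrib]
      congr 1
      rw [Finset.sum_eq_single l']
      · simp
      · intro b _ hb; rw [if_neg (Ne.symm hb), mul_zero]
      · simp
    rw [e1]
    by_cases hp : p' = p0
    · subst hp
      have : ∑ l, f (p', l) * (if I p' l then (1:F) else 0) = 0 := by
        rw [← hr p']
        apply Finset.sum_congr rfl
        intro l _
        by_cases h : I p' l
        · simp [h]
        · simp [h, hs p' l h]
      rw [this, zero_add]
    · obtain ⟨m, ⟨hm0, hm1⟩, hmu⟩ := D.line p0 p' (Ne.symm hp)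
      have e2 : ∑ l, f (p0, l) * (if I p' l then (1:F) else 0) = f (p0, m) := by
        rw [Finset.sum_eq_single m]
        · simp [hm1]
        · intro b _ hb
          by_cases h1 : I p' b
          · have : ¬ I p0 b := fun h => hb (hmu b ⟨h, h1⟩)
            rw [hs p0 b this, zero_mul]
          · simp [h1]
        · simp
      rw [e2]
      by_cases hl : I p0 l'
      · have : l' = m := hmu l' ⟨hl, hI⟩
        subst this
        rw [c1 l' p' hl hI hp]
        linear_combination (-f (p0, l')) * h3
      · rw [c2 m l' p' hm0 hm1 hp hI hl, hs p0 l' hl, add_zero]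
  · simp only [hI, if_false, mul_zero, Finset.sum_const_zero]
    exact hs p' l' hI

theorem A1' (D : PlaneData G P L I EP EL n) (F : Type*) [Field F] [CharP F 3] (f : P × L → F)
    (hs : ∀ p l, ¬ I p l → f (p, l) = 0) (hr : ∀ p, ∑ l, f (p, l) = 0) (hc : ∀ l, ∑ p, f (p, l) = 0)
    (l0 : L) (hf0 : ∀ e ∈ EL l0, ∀ c, f (e • c) = f c) :
    f = ∑ p, f (p, l0) • gf F I p := by
  have := A1 D.dual F (fun c => f (c.2, c.1)) (fun l p h => hs p l h) hc hr l0
    (fun e he c => hf0 e he (c.2, c.1))
  funext c
  have h2 := congrFun this (c.2, c.1)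
  simp only [Finset.sum_apply, Pi.smul_apply] at h2 ⊢
  rw [Prod.mk.eta] at h2
  rw [h2]
  apply Finset.sum_congr rfl
  intro p _
  simp only [hf, gf]


/-! ### The submodules -/

omit [Fintype P] [Fintype L] in
theorem I_inv_iff (D : PlaneData G P L I EP EL n) (g : G) (p : P) (l : L) :
    I (g⁻¹ • p) (g⁻¹ • l) ↔ I p l := by
  constructor
  · intro h
    have := D.inv g _ _ h
    simpa using this
  · intro h; exact D.inv g⁻¹ _ _ h

/-- The sums over the lines. -/
noncomputable def rowMap (F P L : Type*) [Field F] [Fintype L] : (P × L → F) →ₗ[F] (P → F) where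
  toFun f p := ∑ l, f (p, l)
  map_add' f g := by funext p; simp [Finset.sum_add_distrib]
  map_smul' a f := by funext p; simp [Finset.mul_sum]

/-- The sums over the points. -/
noncomputable def colMap (F P L : Type*) [Field F] [Fintype P] : (P × L → F) →ₗ[F] (L → F) where
  toFun f l := ∑ p, f (p, l)
  map_add' f g := by funext p; simp [Finset.sum_add_distrib]
  map_smul' a f := by funext p; simp [Finset.mul_sum]

theorem rowMap_apply (F P L : Type*) [Field F] [Fintype L] (f : P × L → F) (p : P) :
    rowMap F P L f p = ∑ l, f (p, l) := rfl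

theorem colMap_apply (F P L : Type*) [Field F] [Fintype P] (f : P × L → F) (l : L) :
    colMap F P L f l = ∑ p, f (p, l) := rfl

omit [Fintype P] in
theorem rowMap_comm (F : Type*) [Field F] (g : G) (f : P × L → F) :
    rowMap F P L (permRep F G (P × L) g f) = permRep F G P g (rowMap F P L f) := by
  funext p
  rw [rowMap_apply, permRep_apply, rowMap_apply]
  simp only [permRep_apply, Prod.smul_mk]
  exact Equiv.sum_comp (MulAction.toPerm g⁻¹) (fun l => f (g⁻¹ • p, l))

omit [Fintype L] in
theorem colMap_comm (F : Type*) [Field F] (g : G) (f : P × L → F) :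
    colMap F P L (permRep F G (P × L) g f) = permRep F G L g (colMap F P L f) := by
  funext l
  rw [colMap_apply, permRep_apply, colMap_apply]
  simp only [permRep_apply, Prod.smul_mk]
  exact Equiv.sum_comp (MulAction.toPerm g⁻¹) (fun p => f (p, g⁻¹ • l))

/-- The functions supported on flags. -/
def Xs (F : Type*) [Field F] (I : P → L → Prop) : Submodule F (P × L → F) where
  carrier := {f | ∀ p l, ¬ I p l → f (p, l) = 0}
  zero_mem' := by intro p l _; rfl
  add_mem' := by
    intro f g hf hg p l h
    rw [Pi.add_apply, hf p l h, hg p l h, add_zero]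
  smul_mem' := by
    intro a f hf p l h
    rw [Pi.smul_apply, hf p l h, smul_zero]

/-- The functions supported on flags with zero row and column sums. -/
noncomputable def Ss (F : Type*) [Field F] (I : P → L → Prop) : Submodule F (P × L → F) :=
  Xs F I ⊓ LinearMap.ker (rowMap F P L) ⊓ LinearMap.ker (colMap F P L)

theorem mem_Ss {F : Type*} [Field F] {f : P × L → F} : f ∈ Ss F I ↔
    (∀ p l, ¬ I p l → f (p, l) = 0) ∧ (∀ p, ∑ l, f (p, l) = 0) ∧ (∀ l, ∑ p, f (p, l) = 0) := by
  unfold Ss
  rw [Submodule.mem_inf, Submodule.mem_inf, LinearMap.mem_ker, LinearMap.mem_ker]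
  constructor
  · rintro ⟨⟨h1, h2⟩, h3⟩
    exact ⟨h1, fun p => congrFun h2 p, fun l => congrFun h3 l⟩
  · rintro ⟨h1, h2, h3⟩
    exact ⟨⟨h1, funext h2⟩, funext h3⟩

omit [Fintype P] [Fintype L] in
theorem Xs_inv (D : PlaneData G P L I EP EL n) (F : Type*) [Field F] (g : G) (f : P × L → F)
    (hf : f ∈ Xs F I) : permRep F G (P × L) g f ∈ Xs F I := by
  intro p l h
  rw [permRep_apply, Prod.smul_mk]
  exact hf _ _ (fun h' => h ((I_inv_iff D g p l).1 h'))

theorem Ss_inv (D : PlaneData G P L I EP EL n) (F : Type*) [Field F] (g : G) (f : P × L → F)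
    (hf : f ∈ Ss F I) : permRep F G (P × L) g f ∈ Ss F I := by
  obtain ⟨⟨h1, h2⟩, h3⟩ := hf
  refine ⟨⟨Xs_inv D F g f h1, ?_⟩, ?_⟩
  · change _ ∈ LinearMap.ker _
    rw [LinearMap.mem_ker, rowMap_comm, LinearMap.mem_ker.1 h2, map_zero]
  · change _ ∈ LinearMap.ker _
    rw [LinearMap.mem_ker, colMap_comm, LinearMap.mem_ker.1 h3, map_zero]

/-- The map `k^P → k^(P × L)`, `δ_p ↦ g_p`. -/
noncomputable def phiP (F : Type*) [Field F] (I : P → L → Prop) : (P → F) →ₗ[F] (P × L → F) where
  toFun u := ∑ p, u p • gf F I p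
  map_add' u v := by simp [add_smul, Finset.sum_add_distrib]
  map_smul' a u := by simp [Finset.smul_sum, mul_smul]

/-- The map `k^L → k^(P × L)`, `δ_l ↦ h_l`. -/
noncomputable def phiL (F : Type*) [Field F] (I : P → L → Prop) : (L → F) →ₗ[F] (P × L → F) where
  toFun u := ∑ l, u l • hf F I l
  map_add' u v := by simp [add_smul, Finset.sum_add_distrib]
  map_smul' a u := by simp [Finset.smul_sum, mul_smul]

omit [Fintype L] in
theorem phiP_apply (F : Type*) [Field F] (u : P → F) (c : P × L) :
    phiP F I u c = ∑ p, u p * gf F I p c := by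
  change (∑ p, u p • gf F I p) c = _
  rw [Finset.sum_apply]; rfl

omit [Fintype P] in
theorem phiL_apply (F : Type*) [Field F] (u : L → F) (c : P × L) :
    phiL F I u c = ∑ l, u l * hf F I l c := by
  change (∑ l, u l • hf F I l) c = _
  rw [Finset.sum_apply]; rfl

omit [Fintype P] [Fintype L] in
theorem gf_inv (D : PlaneData G P L I EP EL n) (F : Type*) [Field F] (g : G) (p : P) (c : P × L) :
    gf F I (g⁻¹ • p) (g⁻¹ • c) = gf F I p c := by
  simp only [gf, Prod.smul_fst, Prod.smul_snd, I_inv_iff D, smul_left_cancel_iff]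

omit [Fintype P] [Fintype L] in
theorem hf_inv (D : PlaneData G P L I EP EL n) (F : Type*) [Field F] (g : G) (l : L) (c : P × L) :
    hf F I (g⁻¹ • l) (g⁻¹ • c) = hf F I l c := by
  simp only [hf, Prod.smul_fst, Prod.smul_snd, I_inv_iff D, smul_left_cancel_iff]

theorem phiP_comm (D : PlaneData G P L I EP EL n) (F : Type*) [Field F] (g : G) (u : P → F) :
    phiP F I (permRep F G P g u) = permRep F G (P × L) g (phiP F I u) := by
  funext c
  rw [permRep_apply, phiP_apply, phiP_apply]
  rw [← Equiv.sum_comp (MulAction.toPerm g)]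
  apply Finset.sum_congr rfl
  intro p _
  rw [MulAction.toPerm_apply, permRep_apply, inv_smul_smul, ← gf_inv D F g (g • p) c,
    inv_smul_smul]

theorem phiL_comm (D : PlaneData G P L I EP EL n) (F : Type*) [Field F] (g : G) (u : L → F) :
    phiL F I (permRep F G L g u) = permRep F G (P × L) g (phiL F I u) := by
  funext c
  rw [permRep_apply, phiL_apply, phiL_apply]
  rw [← Equiv.sum_comp (MulAction.toPerm g)]
  apply Finset.sum_congr rfl
  intro p _
  rw [MulAction.toPerm_apply, permRep_apply, inv_smul_smul, ← hf_inv D F g (g • p) c,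
    inv_smul_smul]

/-- The span of the `g_p` and the `h_l`. -/
noncomputable def Is (F : Type*) [Field F] (I : P → L → Prop) : Submodule F (P × L → F) :=
  LinearMap.range (phiP F I) ⊔ LinearMap.range (phiL F I)

theorem Is_inv (D : PlaneData G P L I EP EL n) (F : Type*) [Field F] (g : G) (f : P × L → F)
    (hf : f ∈ Is F I) : permRep F G (P × L) g f ∈ Is F I := by
  obtain ⟨_, ⟨u, rfl⟩, _, ⟨v, rfl⟩, rfl⟩ := Submodule.mem_sup.1 hf
  rw [map_add, ← phiP_comm D, ← phiL_comm D]
  exact Submodule.add_mem_sup ⟨_, rfl⟩ ⟨_, rfl⟩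

/-- Extension by zero of functions on flags. -/
noncomputable def extMap (F : Type*) [Field F] (I : P → L → Prop) :
    ({c : P × L // I c.1 c.2} → F) →ₗ[F] (P × L → F) where
  toFun f c := if h : I c.1 c.2 then f ⟨c, h⟩ else 0
  map_add' f g := by
    funext c
    by_cases h : I c.1 c.2
    · simp [h]
    · simp [h]
  map_smul' a f := by
    funext c
    by_cases h : I c.1 c.2
    · simp [h]
    · simp [h]

theorem card_flags (D : PlaneData G P L I EP EL n) :
    Fintype.card {c : P × L // I c.1 c.2} = (n ^ 2 + n + 1) * (n + 1) := by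
  have e : {c : P × L // I c.1 c.2} ≃ (Σ l : L, {p : P // I p l}) :=
    { toFun := fun c => ⟨c.1.2, c.1.1, c.2⟩
      invFun := fun x => ⟨(x.2.1, x.1), x.2.2⟩
      left_inv := fun c => rfl
      right_inv := fun x => rfl }
  rw [Fintype.card_congr e, Fintype.card_sigma]
  have h : ∀ l : L, Fintype.card {p : P // I p l} = n + 1 := by
    intro l
    rw [← Nat.card_eq_fintype_card]
    exact D.card_line l
  simp only [h, Finset.sum_const, Finset.card_univ, smul_eq_mul]
  rw [← Nat.card_eq_fintype_card, D.card_L]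

theorem Ss_not_le (D : PlaneData G P L I EP EL n) (F : Type*) [Field F] : ¬ Ss F I ≤ Is F I := by
  intro hle
  set N := n ^ 2 + n + 1 with hN
  have cP : Module.finrank F (P → F) = N := by
    rw [Module.finrank_fintype_fun_eq_card, ← Nat.card_eq_fintype_card, D.card_P]
  have cL : Module.finrank F (L → F) = N := by
    rw [Module.finrank_fintype_fun_eq_card, ← Nat.card_eq_fintype_card, D.card_L]
  have hIs : Module.finrank F (Is F I) ≤ 2 * N := by
    unfold Is
    have h1 := Submodule.finrank_add_le_finrank_add_finrank (LinearMap.range (phiP F I))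
      (LinearMap.range (phiL F I))
    have h2 := LinearMap.finrank_range_le (phiP F I)
    have h3 := LinearMap.finrank_range_le (phiL F I)
    rw [cP] at h2
    rw [cL] at h3
    omega
  let T : ({c : P × L // I c.1 c.2} → F) →ₗ[F] (P → F) × (L → F) :=
    ((rowMap F P L).comp (extMap F I)).prod ((colMap F P L).comp (extMap F I))
  have hT := LinearMap.finrank_range_add_finrank_ker T
  rw [Module.finrank_fintype_fun_eq_card, card_flags D] at hT
  have hr : Module.finrank F (LinearMap.range T) ≤ 2 * N := by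
    have h1 := Submodule.finrank_le (LinearMap.range T)
    rw [Module.finrank_prod, cP, cL] at h1
    omega
  have hinj : Function.Injective (extMap F I) := by
    intro f g hfg
    funext c
    have := congrFun hfg c.1
    change (if h : I c.1.1 c.1.2 then f ⟨c.1, h⟩ else 0) =
      (if h : I c.1.1 c.1.2 then g ⟨c.1, h⟩ else 0) at this
    rw [dif_pos c.2, dif_pos c.2] at this
    exact this
  have hk : Module.finrank F (LinearMap.ker T) ≤ 2 * N := by
    have h1 : (LinearMap.ker T).map (extMap F I) ≤ Is F I := by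
      refine le_trans ?_ hle
      rintro _ ⟨f, hf, rfl⟩
      have hf' : T f = 0 := hf
      have h1 : rowMap F P L (extMap F I f) = 0 := congrArg Prod.fst hf'
      have h2 : colMap F P L (extMap F I f) = 0 := congrArg Prod.snd hf'
      refine ⟨⟨?_, h1⟩, h2⟩
      intro p l hpl
      change (if h : I p l then f ⟨(p, l), h⟩ else 0) = 0
      rw [dif_neg hpl]
    have h2 := Submodule.finrank_mono h1
    rw [← (Submodule.equivMapOfInjective (extMap F I) hinj (LinearMap.ker T)).finrank_eq] at h2
    exact h2.trans hIs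
  have h4 := D.four_le
  have : N * (n + 1) ≤ N * 4 := by
    rw [← hT]; omega
  have hNpos : 0 < N := by rw [hN]; positivity
  have := Nat.le_of_mul_le_mul_left this hNpos
  omega

theorem fixed_mem_Is (D : PlaneData G P L I EP EL n) (F : Type*) [Field F] [CharP F 3]
    (f : P × L → F) (hf : f ∈ Ss F I) (p0 : P)
    (hfix : ∀ e ∈ EP p0, permRep F G (P × L) e f = f) : f ∈ Is F I := by
  obtain ⟨h1, h2, h3⟩ := mem_Ss.1 hf
  have := A1 D F f h1 h2 h3 p0 (fun e he c => by
    have := congrFun (hfix e he) (e • c)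
    rw [permRep_apply, inv_smul_smul] at this
    exact this.symm)
  rw [this]
  apply Submodule.mem_sup_right
  exact ⟨fun l => f (p0, l), rfl⟩

theorem fixed_mem_Is' (D : PlaneData G P L I EP EL n) (F : Type*) [Field F] [CharP F 3]
    (f : P × L → F) (hf : f ∈ Ss F I) (l0 : L)
    (hfix : ∀ e ∈ EL l0, permRep F G (P × L) e f = f) : f ∈ Is F I := by
  obtain ⟨h1, h2, h3⟩ := mem_Ss.1 hf
  have := A1' D F f h1 h2 h3 l0 (fun e he c => by
    have := congrFun (hfix e he) (e • c)
    rw [permRep_apply, inv_smul_smul] at this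
    exact this.symm)
  rw [this]
  apply Submodule.mem_sup_left
  exact ⟨fun p => f (p, l0), rfl⟩

theorem not_dvd_ne_zero (F : Type*) [Field F] [CharP F 3] (m : ℕ) (h : ¬ 3 ∣ m) : (m : F) ≠ 0 := by
  intro h2
  exact h ((CharP.cast_eq_zero_iff F 3 m).1 h2)

theorem b_zero [Finite G] (D : PlaneData G P L I EP EL n) (F : Type*) [Field F] [CharP F 3]
    (b : MonoidAlgebra F G) (hb : b ∈ Subring.center (MonoidAlgebra F G)) (hbb : b * b = b)
    (h0 : MonoidAlgebra.lift F F G 1 b = 0) (f : P × L → F) (hf : f ∈ Xs F I) :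
    (permRep F G (P × L)).asAlgebraHom b f = 0 := by
  have hn := n_one D F
  have h3 := three_zero F
  have hNz : ((n ^ 2 + n + 1 : ℕ) : F) = 0 := by
    push_cast; rw [hn]; linear_combination h3
  have cP : (Fintype.card P : F) = 0 := by
    rw [← Nat.card_eq_fintype_card, D.card_P, hNz]
  have cL : (Fintype.card L : F) = 0 := by
    rw [← Nat.card_eq_fintype_card, D.card_L, hNz]
  have nP : 1 < Fintype.card P := by
    rw [← Nat.card_eq_fintype_card, D.card_P]; have := D.four_le; nlinarith
  have nL : 1 < Fintype.card L := by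
    rw [← Nat.card_eq_fintype_card, D.card_L]; have := D.four_le; nlinarith
  obtain ⟨a, a', haa⟩ := Fintype.one_lt_card_iff.1 nP
  obtain ⟨m, m', hmm⟩ := Fintype.one_lt_card_iff.1 nL
  have zP : ∀ u : P → F, (permRep F G P).asAlgebraHom b u = 0 :=
    perm_zero D.twoP cP a a' haa b hb hbb h0
  have zL : ∀ u : L → F, (permRep F G L).asAlgebraHom b u = 0 :=
    perm_zero D.twoL cL m m' hmm b hb hbb h0
  set B := (permRep F G (P × L)).asAlgebraHom b with hB
  -- b X ⊂ Ss
  have hBX : ∀ f ∈ Xs F I, B f ∈ Ss F I := by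
    intro f hf
    refine ⟨⟨?_, ?_⟩, ?_⟩
    · exact Representation.asAlgebraHom_mem_of_forall_mem (permRep F G (P × L)) (Xs F I)
        (fun g v hv => Xs_inv D F g v hv) f hf b
    · change _ ∈ LinearMap.ker _
      rw [LinearMap.mem_ker, hB, hom_comm (permRep F G (P × L)) (permRep F G P) (rowMap F P L)
        (fun g v => rowMap_comm F g v), zP]
    · change _ ∈ LinearMap.ker _
      rw [LinearMap.mem_ker, hB, hom_comm (permRep F G (P × L)) (permRep F G L) (colMap F P L)
        (fun g v => colMap_comm F g v), zL]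
  have hBI : ∀ f ∈ Is F I, B f = 0 := by
    intro f hf
    obtain ⟨_, ⟨u, rfl⟩, _, ⟨v, rfl⟩, rfl⟩ := Submodule.mem_sup.1 hf
    rw [map_add, hB,
      ← hom_comm (permRep F G P) (permRep F G (P × L)) (phiP F I) (fun g v => phiP_comm D F g v),
      ← hom_comm (permRep F G L) (permRep F G (P × L)) (phiL F I) (fun g v => phiL_comm D F g v),
      zP, zL, map_zero, map_zero, add_zero]
  have hd : ∀ c : P × L, I c.1 c.2 → B (Pi.single c 1) = 0 := by
    rintro ⟨p, l⟩ hc
    have hX : (Pi.single (p, l) (1:F) : P × L → F) ∈ Xs F I := by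
      intro p' l' h
      rw [Pi.single_apply, if_neg]
      intro h2
      rw [Prod.mk.injEq] at h2
      obtain ⟨rfl, rfl⟩ := h2
      exact h hc
    have h1 : B (Pi.single (p, l) 1) ∈ Is F I := by
      apply fixed_mem_Is D F _ (hBX _ hX) p
      intro e he
      rw [hB, central_comm _ b hb]
      congr 1
      funext ω
      rw [permRep_apply]
      simp only [Pi.single_apply]
      congr 1
      rw [inv_smul_eq_iff, Prod.smul_mk, D.EP_fix p e he, D.EP_fix_line p e he l hc]
    have h2 := hBI _ h1
    rw [hB, idem_idem _ b hbb] at h2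
    exact h2
  have hfs : f = ∑ c, f c • (Pi.single c (1:F) : P × L → F) := by
    funext ω
    simp [Finset.sum_apply, Pi.single_apply]
  rw [hfs, map_sum]
  apply Finset.sum_eq_zero
  intro c _
  rw [map_smul]
  by_cases hc : I c.1 c.2
  · rw [hd c hc, smul_zero]
  · rw [hf c.1 c.2 hc, zero_smul]

theorem targetA : TargetA.{u} := by
  intro G P L _ _ _ _ _ _ I EP EL n D F _ _
  have : Fintype P := Fintype.ofFinite P
  have : Fintype L := Fintype.ofFinite L
  have : Fintype G := Fintype.ofFinite G
  obtain ⟨V, iV1, iV2, iV3, σ, π, hirr, hsurj, hcomm, hker⟩ :=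
    exists_simple_quotient (permRep F G (P × L)) (Ss F I) (Is F I)
      (fun g x hx => Ss_inv D F g x hx) (fun g x hx => Is_inv D F g x hx) (Ss_not_le D F)
  -- no fixed vectors
  have hfix : ∀ (E : Subgroup G), ¬ (3 ∣ Nat.card E) →
      (∀ f ∈ Ss F I, (∀ e ∈ E, permRep F G (P × L) e f = f) → f ∈ Is F I) →
      ∀ x : V, (∀ e ∈ E, σ e x = x) → x = 0 := by
    intro E hE hI x hx
    obtain ⟨⟨f, hf⟩, rfl⟩ := hsurj x
    have hmem : ∀ e : E, permRep F G (P × L) e.1 f ∈ Ss F I := fun e => Ss_inv D F e.1 f hf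
    let f' : Ss F I := ∑ e : E, ⟨permRep F G (P × L) e.1 f, hmem e⟩
    have hf'v : f'.1 = ∑ e : E, permRep F G (P × L) e.1 f := by
      simp [f']
    have h1 : f'.1 ∈ Is F I := by
      apply hI f'.1 f'.2
      intro e he
      rw [hf'v, map_sum]
      have : ∀ e' : E, permRep F G (P × L) e (permRep F G (P × L) e'.1 f) =
          permRep F G (P × L) ((⟨e, he⟩ * e' : E) : G) f := by
        intro e'
        rw [Subgroup.coe_mul, map_mul]; rfl
      rw [Finset.sum_congr rfl (fun e' _ => this e')]
      exact Equiv.sum_comp (Equiv.mulLeft (⟨e, he⟩ : E)) (fun e' => permRep F G (P × L) e'.1 f)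
    have h2 := hker f' h1
    have h3 : π f' = (Nat.card E : F) • π ⟨f, hf⟩ := by
      simp only [f', map_sum]
      rw [Finset.sum_congr rfl (g := fun _ => π ⟨f, hf⟩)]
      · rw [Finset.sum_const, Finset.card_univ, ← Nat.card_eq_fintype_card, Nat.cast_smul_eq_nsmul]
      · intro e _
        exact (hcomm e.1 ⟨f, hf⟩).trans (hx e.1 e.2)
    rw [h2] at h3
    exact (smul_eq_zero.1 h3.symm).resolve_left (not_dvd_ne_zero F _ hE)
  refine ⟨V, iV1, iV2, iV3, σ, hirr, ?_, ?_, ?_⟩
  · intro p
    exact hfix (EP p) (D.EP_card p) (fun f hf h => fixed_mem_Is D F f hf p h)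
  · intro l
    exact hfix (EL l) (D.EL_card l) (fun f hf h => fixed_mem_Is' D F f hf l h)
  · intro b hb hbb hid h0
    have hz : ∀ x : V, x = 0 := by
      intro x
      obtain ⟨⟨f, hf⟩, rfl⟩ := hsurj x
      rw [← hid (π ⟨f, hf⟩)]
      let ρS : Representation F G (Ss F I) :=
        (Subrepresentation.mk (ρ := permRep F G (P × L)) (Ss F I)
          (fun g x hx => Ss_inv D F g x hx)).toRepresentation
      have e1 : σ.asAlgebraHom b (π ⟨f, hf⟩) = π (ρS.asAlgebraHom b ⟨f, hf⟩) :=
        (hom_comm ρS σ π (fun g v => hcomm g v) b ⟨f, hf⟩).symm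
      have e2 : (ρS.asAlgebraHom b ⟨f, hf⟩).1 = (permRep F G (P × L)).asAlgebraHom b f :=
        hom_comm ρS (permRep F G (P × L)) (Ss F I).subtype (fun g v => rfl) b ⟨f, hf⟩
      rw [e1]
      have e3 : ρS.asAlgebraHom b ⟨f, hf⟩ = 0 := by
        apply Subtype.ext
        rw [e2]
        exact b_zero D F b hb hbb h0 f hf.1.1
      rw [e3, map_zero]
    have hne : (⊥ : Subrepresentation σ) ≠ ⊤ := hirr.toNontrivial.exists_pair_ne.elim (by
      intro a h
      obtain ⟨c, hc⟩ := h
      intro hbt
      apply hc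
      apply Subrepresentation.toSubmodule_injective
      apply SetLike.ext
      intro x
      rw [hz x]
      exact ⟨fun _ => Submodule.zero_mem _, fun _ => Submodule.zero_mem _⟩)
    apply hne
    apply Subrepresentation.toSubmodule_injective
    apply SetLike.ext
    intro x
    rw [hz x]
    exact ⟨fun _ => Submodule.zero_mem _, fun _ => Submodule.zero_mem _⟩

end Pool.Agent.Lib.MP_d1e4d8_al
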