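import Pool.Agent.Lib.MP_d1e4d8_al.Targets

/-!
# Target C for MP_d1e4d8_al: projectivity of a cuspidal module on restriction to the torus
-/

set_option autoImplicit false

namespace Pool.Agent.Lib.MP_d1e4d8_al

open scoped LinearAlgebra.Projectivization MatrixGroups

universe u

section matrices

variable {K : Type*} [Field K]

/-- The elementary transvection in the special linear group. -/
def slt (i j : Fin 3) (h : i ≠ j) (a : K) : Matrix.SpecialLinearGroup (Fin 3) K :=
  ⟨Matrix.transvection i j a, Matrix.det_transvection_of_ne i j h a⟩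

theorem slt_val (i j : Fin 3) (h : i ≠ j) (a : K) :
    (slt i j h a : Matrix (Fin 3) (Fin 3) K) = Matrix.transvection i j a := rfl

theorem tv_eq (i j : Fin 3) (h : i ≠ j) (a : K) :
    tv i j h a = Matrix.SpecialLinearGroup.toPGL (slt i j h a) := rfl

theorem tv_add (i j : Fin 3) (h : i ≠ j) (a b : K) :
    tv i j h (a + b) = tv i j h a * tv i j h b := by
  rw [tv_eq, tv_eq, tv_eq, ← map_mul]
  congr 1
  apply Subtype.ext
  rw [Matrix.SpecialLinearGroup.coe_mul]
  exact (Matrix.transvection_mul_transvection_same i j h a b).symm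

theorem tv_zero (i j : Fin 3) (h : i ≠ j) : tv i j h (0 : K) = 1 := by
  rw [tv_eq, ← map_one (Matrix.SpecialLinearGroup.toPGL (n := Fin 3) (R := K))]
  congr 1
  apply Subtype.ext
  rw [slt_val]
  simp

theorem comm_02_12 (a b : K) :
    tv 0 2 (by decide) a * tv 1 2 (by decide) b = tv 1 2 (by decide) b * tv 0 2 (by decide) a := by
  rw [tv_eq, tv_eq, ← map_mul, ← map_mul]
  congr 1
  apply Subtype.ext
  rw [Matrix.SpecialLinearGroup.coe_mul, Matrix.SpecialLinearGroup.coe_mul, slt_val, slt_val]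
  ext i j
  fin_cases i <;> fin_cases j <;>
    simp [Matrix.transvection, Matrix.mul_apply, Fin.sum_univ_three, Matrix.single_apply,
      Matrix.one_apply]

theorem comm_02_01 (a b : K) :
    tv 0 2 (by decide) a * tv 0 1 (by decide) b = tv 0 1 (by decide) b * tv 0 2 (by decide) a := by
  rw [tv_eq, tv_eq, ← map_mul, ← map_mul]
  congr 1
  apply Subtype.ext
  rw [Matrix.SpecialLinearGroup.coe_mul, Matrix.SpecialLinearGroup.coe_mul, slt_val, slt_val]
  ext i j
  fin_cases i <;> fin_cases j <;>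
    simp [Matrix.transvection, Matrix.mul_apply, Fin.sum_univ_three, Matrix.single_apply,
      Matrix.one_apply]

theorem comm_12_10 (a b : K) :
    tv 1 2 (by decide) a * tv 1 0 (by decide) b = tv 1 0 (by decide) b * tv 1 2 (by decide) a := by
  rw [tv_eq, tv_eq, ← map_mul, ← map_mul]
  congr 1
  apply Subtype.ext
  rw [Matrix.SpecialLinearGroup.coe_mul, Matrix.SpecialLinearGroup.coe_mul, slt_val, slt_val]
  ext i j
  fin_cases i <;> fin_cases j <;>
    simp [Matrix.transvection, Matrix.mul_apply, Fin.sum_univ_three, Matrix.single_apply,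
      Matrix.one_apply]

/-- The commutator of `tv 0 1` and `tv 1 2`. -/
theorem comm_01_12 (a b : K) :
    tv 0 1 (by decide) a * tv 1 2 (by decide) b =
      tv 1 2 (by decide) b * (tv 0 1 (by decide) a * tv 0 2 (by decide) (a * b)) := by
  rw [tv_eq, tv_eq, tv_eq, ← map_mul, ← map_mul, ← map_mul]
  congr 1
  apply Subtype.ext
  rw [Matrix.SpecialLinearGroup.coe_mul, Matrix.SpecialLinearGroup.coe_mul,
    Matrix.SpecialLinearGroup.coe_mul, slt_val, slt_val, slt_val]
  ext i j
  fin_cases i <;> fin_cases j <;>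
    simp [Matrix.transvection, Matrix.mul_apply, Fin.sum_univ_three, Matrix.single_apply,
      Matrix.one_apply]

/-- The commutator of `tv 1 0` and `tv 0 2`. -/
theorem comm_10_02 (a b : K) :
    tv 1 0 (by decide) a * tv 0 2 (by decide) b =
      tv 0 2 (by decide) b * (tv 1 0 (by decide) a * tv 1 2 (by decide) (a * b)) := by
  rw [tv_eq, tv_eq, tv_eq, ← map_mul, ← map_mul, ← map_mul]
  congr 1
  apply Subtype.ext
  rw [Matrix.SpecialLinearGroup.coe_mul, Matrix.SpecialLinearGroup.coe_mul,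
    Matrix.SpecialLinearGroup.coe_mul, slt_val, slt_val, slt_val]
  ext i j
  fin_cases i <;> fin_cases j <;>
    simp [Matrix.transvection, Matrix.mul_apply, Fin.sum_univ_three, Matrix.single_apply,
      Matrix.one_apply]

/-- Conjugation of a transvection by a diagonal matrix. -/
theorem dg_conj (x y z : Kˣ) (i j : Fin 3) (h : i ≠ j) (a : K) :
    dg x y z * tv i j h a =
      tv i j h ((![(x : K), y, z] i) * a * (![((x⁻¹ : Kˣ) : K), (y⁻¹ : Kˣ), (z⁻¹ : Kˣ)] j)) *
        dg x y z := by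
  rw [tv_eq, tv_eq]
  unfold dg
  rw [Matrix.SpecialLinearGroup.toPGL, MonoidHom.comp_apply, MonoidHom.comp_apply, ← map_mul,
    ← map_mul]
  congr 1
  apply Units.ext
  rw [Units.val_mul, Units.val_mul]
  change Matrix.diagonal _ * Matrix.transvection _ _ _ = Matrix.transvection _ _ _ *
    Matrix.diagonal _
  ext k l
  rw [Matrix.diagonal_mul, Matrix.mul_diagonal]
  simp only [Matrix.transvection, Matrix.add_apply, Matrix.one_apply, Matrix.single_apply]
  have hj : ∀ j : Fin 3, (![((x⁻¹ : Kˣ) : K), (y⁻¹ : Kˣ), (z⁻¹ : Kˣ)] j) *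
      ![(x : K), y, z] j = 1 := by
    intro j; fin_cases j <;> simp
  by_cases h1 : k = l
  · subst h1
    have h2 : ¬ (i = k ∧ j = k) := fun h2 => h (h2.1.trans h2.2.symm)
    simp [h2]
  · by_cases h2 : i = k ∧ j = l
    · obtain ⟨rfl, rfl⟩ := h2
      simp only [h1, if_false, zero_add, and_self, if_true]
      rw [mul_assoc, hj, mul_one]
    · simp [h1, h2]

end matrices

section fourier

variable {K : Type} [Field K] [Fintype K] {F : Type u} [Field F]

/-- The Fourier components of a representation of the additive group of `K` (up to the factor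
`#K`, which is `1` in `F` in the application). -/
noncomputable def fc {E : Type*} [Ring E] [Algebra F E] (ψ : AddChar K F) (R : K → E) (α : K) : E :=
  ∑ a : K, ψ (-(α * a)) • R a

variable {E : Type*} [Ring E] [Algebra F E] {ψ : AddChar K F} {R : K → E}

theorem sum_fc (hψ : ψ.IsPrimitive) (hq : (Fintype.card K : F) = 1) (h0 : R 0 = 1) :
    ∑ α : K, fc ψ R α = 1 := by
  classical
  unfold fc
  rw [Finset.sum_comm]
  have h1 : ∀ a : K, ∑ α : K, ψ (-(α * a)) • R a = if a = 0 then (1 : E) else 0 := by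
    intro a
    rw [← Finset.sum_smul]
    have h2 := AddChar.sum_mulShift (ψ := ψ) (-a) hψ
    have h3 : ∑ α : K, ψ (-(α * a)) = ∑ α : K, ψ (α * -a) := by
      apply Finset.sum_congr rfl
      intro α _
      rw [mul_neg]
    rw [h3, h2]
    by_cases ha : a = 0
    · simp [ha, hq, h0]
    · simp [ha]
  rw [Finset.sum_congr rfl fun a _ => h1 a]
  simp

theorem mul_fc_zero (hadd : ∀ a b, R (a + b) = R a * R b) (b : K) :
    R b * fc ψ R 0 = fc ψ R 0 := by
  unfold fc
  simp only [zero_mul, neg_zero, AddChar.map_zero_eq_one, one_smul]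
  rw [Finset.mul_sum]
  rw [Finset.sum_congr rfl fun a _ => (hadd b a).symm]
  exact Fintype.sum_bijective (fun a => b + a) (AddGroup.addLeft_bijective b) _ _ fun a => rfl

theorem fc_zero_mul (hadd : ∀ a b, R (a + b) = R a * R b) (b : K) :
    fc ψ R 0 * R b = fc ψ R 0 := by
  unfold fc
  simp only [zero_mul, neg_zero, AddChar.map_zero_eq_one, one_smul]
  rw [Finset.sum_mul]
  rw [Finset.sum_congr rfl fun a _ => (hadd a b).symm]
  exact Fintype.sum_bijective (fun a => a + b) (AddGroup.addRight_bijective b) _ _ fun a => rfl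

/-- If `x` commutes with all `R a` then it commutes with the Fourier components. -/
theorem comm_fc {x : E} (h : ∀ a, x * R a = R a * x) (α : K) : x * fc ψ R α = fc ψ R α * x := by
  unfold fc
  rw [Finset.mul_sum, Finset.sum_mul]
  apply Finset.sum_congr rfl
  intro a _
  rw [mul_smul_comm, smul_mul_assoc, h]

/-- Conjugation of Fourier components. -/
theorem conj_fc {g g' : E} (hg' : g * g' = 1) {x : Kˣ}
    (h : ∀ a, g * R a = R (x * a) * g) (α : K) :
    g * fc ψ R α * g' = fc ψ R (α * (x⁻¹ : Kˣ)) := by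
  unfold fc
  rw [Finset.mul_sum, Finset.sum_mul]
  refine Fintype.sum_bijective (fun a => (x : K) * a) ?_ _ _ ?_
  · exact (Units.mulLeft x).bijective
  · intro a
    rw [mul_smul_comm, smul_mul_assoc, h, mul_assoc, hg', mul_one]
    congr 2
    rw [mul_assoc, Units.inv_mul_cancel_left]

/-- Splitting a sum over a field into the value at zero and the sum over units. -/
theorem sum_units (g : K → E) [Fintype Kˣ] : ∑ α, g α = g 0 + ∑ u : Kˣ, g u := by
  classical
  rw [Fintype.sum_eq_add_sum_subtype_ne g 0]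
  congr 1
  exact (Equiv.sum_comp (unitsEquivNeZero (G₀ := K)) (fun i => g i)).symm

theorem finDim_cyclotomicField (F : Type u) [Field F] (n : ℕ) :
    FiniteDimensional F (CyclotomicField n F) :=
  inferInstanceAs (FiniteDimensional F (Polynomial.cyclotomic n F).SplittingField)

/-- A field `F` of characteristic three that is algebraically closed has a primitive additive
character on a finite field `K` of characteristic different from three. -/
theorem exists_char (K : Type) [Field K] [Finite K] (hK : Nat.card K % 3 = 1) (F : Type u) [Field F]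
    [IsAlgClosed F] [CharP F 3] : ∃ ψ : AddChar K F, ψ.IsPrimitive := by
  have h1 : ringChar F ≠ ringChar K := by
    intro h
    have h3 : ringChar F = 3 := ringChar.eq F 3 ▸ rfl
    have h4 : CharP K 3 := by
      rw [h3] at h
      rw [h]
      infer_instance
    have := Fintype.ofFinite K
    obtain ⟨n, hp, hn⟩ := FiniteField.card K 3
    rw [Nat.card_eq_fintype_card, hn] at hK
    have : 3 ∣ 3 ^ (n : ℕ) := dvd_pow_self 3 n.ne_zero
    omega
  let P := AddChar.FiniteField.primitiveChar K F h1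
  have : FiniteDimensional F (CyclotomicField P.n F) := finDim_cyclotomicField F P.n
  let e : CyclotomicField P.n F →ₐ[F] F := IsAlgClosed.lift
  refine ⟨MonoidHom.compAddChar (e : CyclotomicField P.n F →* F) P.char, ?_⟩
  exact AddChar.IsPrimitive.compMulHom_of_isPrimitive P.prim e.toRingHom.injective

end fourier

theorem card_cast (K : Type) [Field K] [Fintype K] (hK : Nat.card K % 3 = 1) (F : Type u) [Field F]
    [CharP F 3] : (Fintype.card K : F) = 1 := by
  rw [Nat.card_eq_fintype_card] at hK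
  have h : Fintype.card K ≡ 1 [MOD 3] := hK
  have := (CharP.cast_eq_iff_mod_eq F 3 (a := Fintype.card K) (b := 1)).2 h
  simpa using this

theorem targetC : TargetC.{u} := by
  intro K _ _ hK F _ _ _ V _ _ ρ h1 h2 h3
  have := Fintype.ofFinite K
  have := Fintype.ofFinite Kˣ
  obtain ⟨ψ, hψ⟩ := exists_char K hK F
  have hq := card_cast K hK F
  let Ra : K → Module.End F V := fun a => ρ (tv 0 2 (by decide) a)
  let Rb : K → Module.End F V := fun a => ρ (tv 1 2 (by decide) a)
  let Rc : K → Module.End F V := fun a => ρ (tv 0 1 (by decide) a)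
  let Rd : K → Module.End F V := fun a => ρ (tv 1 0 (by decide) a)
  have Ra_add : ∀ a b, Ra (a + b) = Ra a * Ra b := fun a b => by
    change ρ _ = ρ _ * ρ _; rw [tv_add, map_mul]
  have Rb_add : ∀ a b, Rb (a + b) = Rb a * Rb b := fun a b => by
    change ρ _ = ρ _ * ρ _; rw [tv_add, map_mul]
  have Rc_add : ∀ a b, Rc (a + b) = Rc a * Rc b := fun a b => by
    change ρ _ = ρ _ * ρ _; rw [tv_add, map_mul]
  have Rd_add : ∀ a b, Rd (a + b) = Rd a * Rd b := fun a b => by
    change ρ _ = ρ _ * ρ _; rw [tv_add, map_mul]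
  have Ra_zero : Ra 0 = 1 := by change ρ _ = 1; rw [tv_zero, map_one]
  have Rb_zero : Rb 0 = 1 := by change ρ _ = 1; rw [tv_zero, map_one]
  have Rc_zero : Rc 0 = 1 := by change ρ _ = 1; rw [tv_zero, map_one]
  have Rd_zero : Rd 0 = 1 := by change ρ _ = 1; rw [tv_zero, map_one]
  have cab : ∀ a b, Ra a * Rb b = Rb b * Ra a := fun a b => by
    change ρ _ * ρ _ = ρ _ * ρ _; rw [← map_mul, ← map_mul, comm_02_12]
  have cac : ∀ a b, Ra a * Rc b = Rc b * Ra a := fun a b => by
    change ρ _ * ρ _ = ρ _ * ρ _; rw [← map_mul, ← map_mul, comm_02_01]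
  have cbd : ∀ a b, Rb a * Rd b = Rd b * Rb a := fun a b => by
    change ρ _ * ρ _ = ρ _ * ρ _; rw [← map_mul, ← map_mul, comm_12_10]
  have ccb : ∀ a b, Rc a * Rb b = Rb b * (Rc a * Ra (a * b)) := fun a b => by
    change ρ _ * ρ _ = ρ _ * (ρ _ * ρ _); rw [← map_mul, ← map_mul, ← map_mul, comm_01_12]
  have cda : ∀ a b, Rd a * Ra b = Ra b * (Rd a * Rb (a * b)) := fun a b => by
    change ρ _ * ρ _ = ρ _ * (ρ _ * ρ _); rw [← map_mul, ← map_mul, ← map_mul, comm_10_02]
  let A : K → Module.End F V := fc ψ Ra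
  let B : K → Module.End F V := fc ψ Rb
  let C : K → Module.End F V := fc ψ Rc
  let D : K → Module.End F V := fc ψ Rd
  have hA : ∑ α, A α = 1 := sum_fc hψ hq Ra_zero
  have hB : ∑ α, B α = 1 := sum_fc hψ hq Rb_zero
  have hC : ∑ α, C α = 1 := sum_fc hψ hq Rc_zero
  have hD : ∑ α, D α = 1 := sum_fc hψ hq Rd_zero
  have hRaB : ∀ a β, Ra a * B β = B β * Ra a := fun a β => comm_fc (cab a) β
  have hAB : ∀ α β, A α * B β = B β * A α := fun α β =>
    comm_fc (fun b => (comm_fc (fun a => (cab a b).symm) α).symm) β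
  have hRcA : ∀ c α, Rc c * A α = A α * Rc c := fun c α => comm_fc (fun a => (cac a c).symm) α
  have hRdB : ∀ c β, Rd c * B β = B β * Rd c := fun c β => comm_fc (fun a => (cbd a c).symm) β
  -- the three vanishing statements
  have z1 : A 0 * B 0 = 0 := by
    apply LinearMap.ext
    intro v
    apply h3
    · intro a
      change (Ra a * (A 0 * B 0)) v = (A 0 * B 0) v
      rw [← mul_assoc, mul_fc_zero Ra_add]
    · intro b
      change (Rb b * (A 0 * B 0)) v = (A 0 * B 0) v
      rw [hAB, ← mul_assoc, mul_fc_zero Rb_add]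
  have z2 : ∀ β, A 0 * B β * C 0 = 0 := by
    intro β
    apply LinearMap.ext
    intro v
    apply h1
    · intro a
      change (Rc a * (A 0 * B β * C 0)) v = (A 0 * B β * C 0) v
      have e1 : ∀ b, A 0 * (Rc a * Rb b) = A 0 * (Rb b * Rc a) := by
        intro b
        rw [ccb, ← cac, ← mul_assoc (Rb b), ← cab, mul_assoc (Ra _), ← mul_assoc (A 0),
          fc_zero_mul Ra_add]
      have e2 : A 0 * (Rc a * B β) = A 0 * (B β * Rc a) := by
        change A 0 * (Rc a * ∑ b, _) = A 0 * ((∑ b, _) * Rc a)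
        rw [Finset.mul_sum, Finset.sum_mul, Finset.mul_sum, Finset.mul_sum]
        apply Finset.sum_congr rfl
        intro b _
        rw [mul_smul_comm, mul_smul_comm, smul_mul_assoc, mul_smul_comm, e1]
      have e3 : Rc a * (A 0 * B β * C 0) = A 0 * B β * C 0 := by
        rw [← mul_assoc, ← mul_assoc, hRcA, mul_assoc (A 0), e2, mul_assoc, mul_assoc,
          mul_fc_zero Rc_add, mul_assoc]
      rw [e3]
    · intro a
      change (Ra a * (A 0 * B β * C 0)) v = (A 0 * B β * C 0) v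
      rw [← mul_assoc, ← mul_assoc, mul_fc_zero Ra_add]
  have z3 : ∀ α, A α * B 0 * D 0 = 0 := by
    intro α
    apply LinearMap.ext
    intro v
    apply h2
    · intro a
      change (Rd a * (A α * B 0 * D 0)) v = (A α * B 0 * D 0) v
      have e1 : ∀ b, B 0 * (Rd a * Ra b) = B 0 * (Ra b * Rd a) := by
        intro b
        rw [cda, ← cbd, ← mul_assoc (Ra b), cab, mul_assoc (Rb _), ← mul_assoc (B 0),
          fc_zero_mul Rb_add]
      have e2 : B 0 * (Rd a * A α) = B 0 * (A α * Rd a) := by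
        change B 0 * (Rd a * ∑ b, _) = B 0 * ((∑ b, _) * Rd a)
        rw [Finset.mul_sum, Finset.sum_mul, Finset.mul_sum, Finset.mul_sum]
        apply Finset.sum_congr rfl
        intro b _
        rw [mul_smul_comm, mul_smul_comm, smul_mul_assoc, mul_smul_comm, e1]
      have e3 : Rd a * (A α * B 0 * D 0) = A α * B 0 * D 0 := by
        rw [hAB, ← mul_assoc, ← mul_assoc, hRdB, mul_assoc (B 0), e2, mul_assoc, mul_assoc,
          mul_fc_zero Rd_add, mul_assoc]
      rw [e3]
    · intro a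
      change (Rb a * (A α * B 0 * D 0)) v = (A α * B 0 * D 0) v
      rw [hAB, ← mul_assoc, ← mul_assoc, mul_fc_zero Rb_add]
  -- conjugation by diagonal matrices
  have key : ∀ t : Kˣ × Kˣ,
      ρ (dg t.1 t.2 1) * (A 1 * B 1 + A 0 * B 1 * C 1 + A 1 * B 0 * D 1) * ρ (dg t.1 t.2 1)⁻¹ =
        A (t.1⁻¹ : Kˣ) * B (t.2⁻¹ : Kˣ) + A 0 * B (t.2⁻¹ : Kˣ) * C (t.2 * t.1⁻¹ : Kˣ) +
          A (t.1⁻¹ : Kˣ) * B 0 * D (t.1 * t.2⁻¹ : Kˣ) := by
    rintro ⟨x, y⟩
    set g : Module.End F V := ρ (dg x y 1) with hg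
    set g' : Module.End F V := ρ (dg x y 1)⁻¹ with hg'
    have gg' : g * g' = 1 := by rw [hg, hg', ← map_mul, mul_inv_cancel, map_one]
    have g'g : g' * g = 1 := by rw [hg, hg', ← map_mul, inv_mul_cancel, map_one]
    have ga : ∀ a, g * Ra a = Ra (x * a) * g := fun a => by
      change ρ _ * ρ _ = ρ _ * ρ _
      rw [← map_mul, ← map_mul, dg_conj]
      simp
    have gb : ∀ a, g * Rb a = Rb (y * a) * g := fun a => by
      change ρ _ * ρ _ = ρ _ * ρ _
      rw [← map_mul, ← map_mul, dg_conj]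
      simp
    have gc : ∀ a, g * Rc a = Rc ((x * y⁻¹ : Kˣ) * a) * g := fun a => by
      change ρ _ * ρ _ = ρ _ * ρ _
      rw [← map_mul, ← map_mul, dg_conj]
      congr 3
      simp
      ring
    have gd : ∀ a, g * Rd a = Rd ((y * x⁻¹ : Kˣ) * a) * g := fun a => by
      change ρ _ * ρ _ = ρ _ * ρ _
      rw [← map_mul, ← map_mul, dg_conj]
      congr 3
      simp
      ring
    have cA : ∀ α, g * A α * g' = A (α * (x⁻¹ : Kˣ)) := fun α => conj_fc gg' ga α
    have cB : ∀ α, g * B α * g' = B (α * (y⁻¹ : Kˣ)) := fun α => conj_fc gg' gb α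
    have cC : ∀ α, g * C α * g' = C (α * ((x * y⁻¹)⁻¹ : Kˣ)) := fun α => conj_fc gg' gc α
    have cD : ∀ α, g * D α * g' = D (α * ((y * x⁻¹)⁻¹ : Kˣ)) := fun α => conj_fc gg' gd α
    have two : ∀ X Y : Module.End F V, g * (X * Y) * g' = (g * X * g') * (g * Y * g') := by
      intro X Y
      calc g * (X * Y) * g' = g * X * 1 * Y * g' := by rw [mul_one]; simp only [mul_assoc]
        _ = _ := by rw [← g'g]; simp only [mul_assoc]
    rw [mul_add, mul_add, add_mul, add_mul, two, two, two, two, two, cA, cB, cC, cD, cA, cB]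
    simp only [zero_mul, one_mul, mul_inv_rev, inv_inv]
  refine ⟨A 1 * B 1 + A 0 * B 1 * C 1 + A 1 * B 0 * D 1, ?_⟩
  rw [finsum_eq_sum_of_fintype]
  change ∑ t : Kˣ × Kˣ, ρ (dg t.1 t.2 1) * ((A 1 * B 1 + A 0 * B 1 * C 1 + A 1 * B 0 * D 1) *
    ρ (dg t.1 t.2 1)⁻¹) = 1
  simp only [← mul_assoc] at key ⊢
  rw [Finset.sum_congr rfl fun t _ => key t, Finset.sum_add_distrib, Finset.sum_add_distrib]
  have s1 : ∑ t : Kˣ × Kˣ, A (t.1⁻¹ : Kˣ) * B (t.2⁻¹ : Kˣ) =
      (∑ u : Kˣ, A u) * ∑ v : Kˣ, B v := by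
    rw [Finset.sum_mul_sum, ← Finset.sum_product', Finset.univ_product_univ]
    exact Equiv.sum_comp (Equiv.prodCongr (Equiv.inv Kˣ) (Equiv.inv Kˣ))
      (fun t : Kˣ × Kˣ => A t.1 * B t.2)
  have s2 : ∑ t : Kˣ × Kˣ, A 0 * B (t.2⁻¹ : Kˣ) * C (t.2 * t.1⁻¹ : Kˣ) =
      A 0 * (∑ u : Kˣ, B u) * ∑ v : Kˣ, C v := by
    have e0 : A 0 * (∑ u : Kˣ, B u) = ∑ u : Kˣ, A 0 * B u := Finset.mul_sum _ _ _
    rw [e0, Finset.sum_mul_sum, ← Finset.sum_product', Finset.univ_product_univ]
    refine Fintype.sum_bijective (fun t : Kˣ × Kˣ => (t.2⁻¹, t.2 * t.1⁻¹)) ?_ _ _ fun t => rfl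
    refine Function.bijective_iff_has_inverse.2 ⟨fun s => (s.2⁻¹ * s.1⁻¹, s.1⁻¹), ?_, ?_⟩
    · rintro ⟨x, y⟩; simp
    · rintro ⟨x, y⟩; simp
  have s3 : ∑ t : Kˣ × Kˣ, A (t.1⁻¹ : Kˣ) * B 0 * D (t.1 * t.2⁻¹ : Kˣ) =
      (∑ u : Kˣ, A u) * B 0 * ∑ v : Kˣ, D v := by
    rw [Finset.sum_mul, Finset.sum_mul_sum, ← Finset.sum_product', Finset.univ_product_univ]
    refine Fintype.sum_bijective (fun t : Kˣ × Kˣ => (t.1⁻¹, t.1 * t.2⁻¹)) ?_ _ _ fun t => rfl
    refine Function.bijective_iff_has_inverse.2 ⟨fun s => (s.1⁻¹, s.2⁻¹ * s.1⁻¹), ?_, ?_⟩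
    · rintro ⟨x, y⟩; simp
    · rintro ⟨x, y⟩; simp
  rw [s1, s2, s3]
  rw [sum_units] at hA hB hC hD
  have t2 : A 0 * (∑ u : Kˣ, B u) * ∑ v : Kˣ, C v = A 0 * (∑ u : Kˣ, B u) := by
    have e1 : A 0 * (∑ u : Kˣ, B u) * C 0 = 0 := by
      rw [Finset.mul_sum, Finset.sum_mul]
      exact Finset.sum_eq_zero fun u _ => z2 u
    calc _ = A 0 * (∑ u : Kˣ, B u) * (C 0 + ∑ v : Kˣ, C v) := by rw [mul_add, e1, zero_add]
      _ = _ := by rw [hC, mul_one]
  have t3 : (∑ u : Kˣ, A u) * B 0 * ∑ v : Kˣ, D v = (∑ u : Kˣ, A u) * B 0 := by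
    have e1 : (∑ u : Kˣ, A u) * B 0 * D 0 = 0 := by
      rw [Finset.sum_mul, Finset.sum_mul]
      exact Finset.sum_eq_zero fun u _ => z3 u
    calc _ = (∑ u : Kˣ, A u) * B 0 * (D 0 + ∑ v : Kˣ, D v) := by rw [mul_add, e1, zero_add]
      _ = _ := by rw [hD, mul_one]
  rw [t2, t3]
  calc _ = (A 0 + ∑ u : Kˣ, A u) * (B 0 + ∑ v : Kˣ, B v) := by
        rw [mul_add, add_mul, add_mul, z1]; abel
    _ = 1 := by rw [hA, hB, one_mul]

end Pool.Agent.Lib.MP_d1e4d8_al
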