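import Pool.Agent.Lib.MP_d1e4d8_al.Block
import Pool.Agent.Lib.MP_d1e4d8_al.Plane
import Pool.Agent.Lib.MP_d1e4d8_al.Geometry
import Pool.Agent.Lib.MP_d1e4d8_al.Torus
import Pool.Agent.Lib.MP_d1e4d8_al.Index
import Pool.Agent.Lib.MP_d1e4d8_al.Fields

/-!
# Assembly (for MP_d1e4d8_al)
-/

set_option autoImplicit false
set_option linter.style.haveILetI false
set_option linter.unusedSectionVars false

namespace Pool.Agent.Lib.MP_d1e4d8_al

open scoped LinearAlgebra.Projectivization MatrixGroups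

universe u

theorem finite_lineT (K : Type) [Field K] [Finite K] : Finite (LineT K) :=
  inferInstanceAs (Finite (ℙ K (Fin 3 → K)))

theorem finite_PGL (K : Type) [Field K] [Finite K] : Finite PGL(3, K) := by
  haveI : Finite (Matrix (Fin 3) (Fin 3) K) := inferInstance
  haveI : Finite (GL (Fin 3) K) := inferInstance
  exact Finite.of_surjective _ (Matrix.ProjGenLinGroup.mk_surjective (n := Fin 3) (R := K))

theorem main_m (F : Type u) [Field F] [IsAlgClosed F] [CharP F 3] (m : ℕ) :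
    ∃ (G : Type) (_ : Group G) (_ : Finite G) (V : Type u) (_ : AddCommGroup V) (_ : Module F V)
      (ρ : Representation F G V), ρ.IsIrreducible ∧
      (∃ (P : Subgroup G) (L : Type u) (_ : AddCommGroup L) (_ : Module F L)
        (_ : Module.Finite F L) (τ : Representation F P L),
          IsPGroup 3 P ∧ Nat.card P ≤ 27 ∧ IsVertexSource ρ P τ) ∧
      (∃ b, IsBlockIdempotent b ∧ InBlock ρ b ∧ ∃ D, IsDefectGroup D b) ∧
      ∀ b, IsBlockIdempotent b → InBlock ρ b → ∀ D, IsDefectGroup D b → m ≤ Nat.card D := by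
  obtain ⟨K, _, _, hK3, hK4, hKm⟩ := targetE m
  haveI := finite_PGL K
  haveI := finite_lineT K
  haveI : Finite (ℙ K (Fin 3 → K)) := inferInstance
  obtain ⟨T, N, hT, hTN, hinj, hTcard, hNidx, hcomm, hnorm, hN⟩ := targetD K hK3
  obtain ⟨EP, EL, hPD, ⟨p1, hp1⟩, ⟨p2, hp2⟩, ⟨l1, hl1⟩⟩ := targetB K hK3 hK4
  obtain ⟨V, _, _, _, ρ, hirr, hEP, hEL, haug⟩ :=
    targetA.{u} PGL(3, K) (ℙ K (Fin 3 → K)) (LineT K) inc EP EL _ hPD F
  haveI : ρ.IsIrreducible := hirr
  have hfix : ∀ (S : Set PGL(3, K)) (x : V), (∀ g ∈ S, ρ g x = x) →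
      ∀ g ∈ Subgroup.closure S, ρ g x = x := by
    intro S x hS g hg
    induction hg using Subgroup.closure_induction with
    | mem g hg => exact hS g hg
    | one => rw [map_one]; rfl
    | mul a b _ _ ha hb => rw [map_mul, Module.End.mul_apply, hb, ha]
    | inv a _ ha =>
      conv_lhs => rw [← ha]
      rw [← Module.End.mul_apply, ← map_mul, inv_mul_cancel, map_one]; rfl
  obtain ⟨f, hf⟩ := targetC K hK3 F V ρ
    (fun x h1 h2 => hEP p1 x fun e he => hfix _ x (by
      rintro g (⟨a, rfl⟩ | ⟨a, rfl⟩)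
      · exact h1 a
      · exact h2 a) e (hp1 he))
    (fun x h1 h2 => hEP p2 x fun e he => hfix _ x (by
      rintro g (⟨a, rfl⟩ | ⟨a, rfl⟩)
      · exact h1 a
      · exact h2 a) e (hp2 he))
    (fun x h1 h2 => hEL l1 x fun e he => hfix _ x (by
      rintro g (⟨a, rfl⟩ | ⟨a, rfl⟩)
      · exact h1 a
      · exact h2 a) e (hl1 he))
  letI := endAct ρ
  haveI := endAct_comm ρ
  haveI : Nontrivial V := nontrivial_of_irreducible ρ
  haveI : Nontrivial (Module.End F V) := inferInstance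
  have hsmul : ∀ (g : PGL(3, K)) (x : Module.End F V), g • x = ρ g * x * ρ g⁻¹ := fun g x => rfl
  haveI : Fintype (Kˣ × Kˣ) := Fintype.ofFinite _
  have htv : IsTv (⊥ : Subgroup PGL(3, K)) T (fun t : Kˣ × Kˣ => dg t.1 t.2 1) := by
    refine ⟨fun t => ?_, fun k hk => ?_, fun i j h => ?_⟩
    · change _ ∈ (T : Set PGL(3, K))
      rw [hT]; exact ⟨t.1, t.2, rfl⟩
    · have : k ∈ (T : Set PGL(3, K)) := hk
      rw [hT] at this
      obtain ⟨x, y, rfl⟩ := this
      exact ⟨(x, y), by simp⟩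
    · exact hinj (inv_mul_eq_one.1 (Subgroup.mem_bot.1 h))
  have hf1 : tr (⊥ : Subgroup PGL(3, K)) T (f : Module.End F V) = 1 := by
    rw [tr_eq_sum bot_le htv (fixed_bot _)]
    rw [finsum_eq_sum_of_fintype] at hf
    exact hf
  obtain ⟨H, hHp, hHc, y, hy, hy1⟩ := partB_abstract (F := F) (B := Module.End F V)
    (fun x hx => schur_end ρ x fun g => hx g trivial) T N hTN hNidx hcomm hnorm hN hf1
  rw [tr_top] at hy1
  have hH : RelProj H ρ := relProj_of_trace ρ H y (fun h hh => hy h hh) hy1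
  obtain ⟨P, hPH, L, _, _, _, τ, hτ⟩ := exists_vertex ρ H hH
  refine ⟨PGL(3, K), inferInstance, inferInstance, V, inferInstance, inferInstance, ρ, hirr,
    ⟨P, L, inferInstance, inferInstance, inferInstance, τ, hHp.to_le hPH,
      (Subgroup.card_le_of_le hPH).trans hHc, hτ⟩, ?_, ?_⟩
  · obtain ⟨b, hb, hbρ⟩ := exists_block ρ
    exact ⟨b, hb, hbρ, exists_defectGroup hb.1⟩
  · intro b hb hbρ D hD
    have h1 := index_of_augmentation hD.1 (haug b hb.1 hb.2.1 hbρ)
    have h2 : 3 ^ m ∣ Nat.card PGL(3, K) := by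
      refine dvd_trans ?_ (Subgroup.card_subgroup_dvd_card T)
      rw [hTcard, pow_two]
      exact Dvd.dvd.mul_right hKm _
    exact (Nat.lt_pow_self (by norm_num)).le.trans (card_of_index h1 h2)

end Pool.Agent.Lib.MP_d1e4d8_al
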