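import Pool.Agent.Lib.MP_d1e4d8_al.Vertex

/-!
# Existence of blocks and defect groups (for MP_d1e4d8_al)
-/

set_option autoImplicit false
set_option linter.style.haveILetI false
set_option linter.unusedSectionVars false

namespace Pool.Agent.Lib.MP_d1e4d8_al

universe u v

open Representation

variable {F : Type u} [Field F] {G : Type v} [Group G] {V : Type u} [AddCommGroup V] [Module F V]

theorem center_action [IsAlgClosed F] [Module.Finite F V] (ρ : Representation F G V)
    [ρ.IsIrreducible] {e : MonoidAlgebra F G} (he : e ∈ Subring.center (MonoidAlgebra F G))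
    (hee : e * e = e) :
    (∀ x : V, ρ.asAlgebraHom e x = 0) ∨ (∀ x : V, ρ.asAlgebraHom e x = x) := by
  have hcomm : ∀ g : G, e * MonoidAlgebra.of F G g = MonoidAlgebra.of F G g * e := by
    intro g
    exact ((Subring.mem_center_iff.1 he) _).symm
  have h1 : ∀ g : G, ρ.asAlgebraHom e ∘ₗ ρ g = ρ g ∘ₗ ρ.asAlgebraHom e := by
    intro g
    have h2 : ρ g = ρ.asAlgebraHom (MonoidAlgebra.of F G g) := (asAlgebraHom_of ρ g).symm
    rw [h2, ← Module.End.mul_eq_comp, ← Module.End.mul_eq_comp, ← map_mul, ← map_mul, hcomm]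
  obtain ⟨c, hc⟩ := schur_inter ρ ⟨ρ.asAlgebraHom e, h1⟩
  have hc' : ∀ v, ρ.asAlgebraHom e v = c • v := hc
  haveI : Nontrivial V := nontrivial_of_irreducible ρ
  obtain ⟨v, hv⟩ := exists_ne (0 : V)
  have h3 : c * c = c := by
    have h4 : ρ.asAlgebraHom (e * e) v = ρ.asAlgebraHom e v := by rw [hee]
    rw [map_mul, Module.End.mul_apply, hc', hc', smul_smul] at h4
    have h5 : (c * c - c) • v = 0 := by rw [sub_smul, h4, sub_self]
    rcases smul_eq_zero.1 h5 with h | h
    · exact sub_eq_zero.1 h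
    · exact absurd h hv
  have h6 : c * (c - 1) = 0 := by rw [mul_sub, h3, mul_one, sub_self]
  rcases mul_eq_zero.1 h6 with h | h
  · left; intro x; rw [hc', h, zero_smul]
  · right; intro x; rw [hc', sub_eq_zero.1 h, one_smul]

theorem exists_block [Finite G] [IsAlgClosed F] [Module.Finite F V] (ρ : Representation F G V)
    [ρ.IsIrreducible] : ∃ b : MonoidAlgebra F G, IsBlockIdempotent b ∧ InBlock ρ b := by
  classical
  haveI : Module.Finite F (MonoidAlgebra F G) := by
    haveI : Module.Finite F (G →₀ F) := inferInstance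
    infer_instance
  let d : MonoidAlgebra F G → ℕ := fun b => Module.finrank F (LinearMap.range (LinearMap.mulLeft F b))
  have hex : ∃ n : ℕ, ∃ b : MonoidAlgebra F G, b ∈ Subring.center (MonoidAlgebra F G) ∧ b * b = b ∧
      InBlock ρ b ∧ d b = n := ⟨_, 1, Subring.one_mem _, one_mul 1, by
        intro x; rw [map_one]; rfl, rfl⟩
  obtain ⟨b, hbc, hbb, hbρ, hbd⟩ := Nat.find_spec hex
  have hmin := fun m => Nat.find_min (m := m) hex
  rw [← hbd] at hmin
  haveI : Nontrivial V := nontrivial_of_irreducible ρ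
  -- any smaller element of the set is equal to `b`
  have key : ∀ e ∈ Subring.center (MonoidAlgebra F G), e * e = e → e * b = e → InBlock ρ e →
      e = b := by
    intro e he hee heb heρ
    have hbe : b * e = e := by rw [← Subring.mem_center_iff.1 hbc e, heb]
    have hle : LinearMap.range (LinearMap.mulLeft F e) ≤ LinearMap.range (LinearMap.mulLeft F b) := by
      rintro _ ⟨x, rfl⟩
      refine ⟨e * x, ?_⟩
      rw [LinearMap.mulLeft_apply, LinearMap.mulLeft_apply, ← mul_assoc, hbe]
    have hfin : d b ≤ d e := by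
      by_contra h
      push Not at h
      exact hmin _ h ⟨e, he, hee, heρ, rfl⟩
    have heq := Submodule.eq_of_le_of_finrank_le hle hfin
    have hb : b ∈ LinearMap.range (LinearMap.mulLeft F e) := by
      rw [heq]; exact ⟨b, by rw [LinearMap.mulLeft_apply, hbb]⟩
    obtain ⟨x, hx⟩ := hb
    rw [LinearMap.mulLeft_apply] at hx
    rw [← heb, ← hx, ← mul_assoc, hee, hx]
  refine ⟨b, ⟨hbc, hbb, ?_, ?_⟩, hbρ⟩
  · rintro rfl
    obtain ⟨v, hv⟩ := exists_ne (0 : V)
    have := hbρ v
    rw [map_zero] at this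
    exact hv this.symm
  · intro e he hee heb
    rcases center_action ρ he hee with h | h
    · left
      have hbe : b * e = e := by rw [← Subring.mem_center_iff.1 hbc e, heb]
      have h1 := key (b - e) (Subring.sub_mem _ hbc he)
        (by rw [mul_sub, sub_mul, sub_mul, hbb, heb, hbe, hee]; abel)
        (by rw [sub_mul, hbb, heb])
        (by intro x; rw [map_sub, LinearMap.sub_apply, h, sub_zero, hbρ])
      exact sub_eq_self.1 h1
    · right
      exact key e he hee heb h

theorem isRelTrace_top [Finite G] {b : MonoidAlgebra F G}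
    (hb : b ∈ Subring.center (MonoidAlgebra F G)) : IsRelTrace (⊤ : Subgroup G) b := by
  have hcomm : ∀ g : G, MonoidAlgebra.of F G g * b = b * MonoidAlgebra.of F G g := by
    intro g
    exact (Subring.mem_center_iff.1 hb) _
  refine ⟨b, fun d _ => hcomm d, ?_⟩
  haveI : Unique (G ⧸ (⊤ : Subgroup G)) := ⟨⟨((1 : G) : G ⧸ (⊤ : Subgroup G))⟩, fun a => by
    obtain ⟨x, rfl⟩ := QuotientGroup.mk_surjective a
    exact QuotientGroup.eq.2 trivial⟩
  rw [finsum_unique, hcomm, mul_assoc, ← map_mul, mul_inv_cancel, map_one, mul_one]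

theorem exists_defectGroup [Finite G] {b : MonoidAlgebra F G}
    (hb : b ∈ Subring.center (MonoidAlgebra F G)) : ∃ D : Subgroup G, IsDefectGroup D b := by
  obtain ⟨D, hD, hmin⟩ := (wellFounded_lt (α := Subgroup G)).has_min
    {D | IsRelTrace D b} ⟨⊤, isRelTrace_top hb⟩
  exact ⟨D, hD, fun D' hlt hD' => hmin D' hD' hlt⟩

theorem index_of_augmentation [Finite G] [CharP F 3] {b : MonoidAlgebra F G} {D : Subgroup G}
    (hD : IsRelTrace D b) (hb : MonoidAlgebra.lift F F G 1 b ≠ 0) : ¬ 3 ∣ D.index := by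
  intro hdvd
  obtain ⟨a, -, ha⟩ := hD
  haveI : Fintype (G ⧸ D) := Fintype.ofFinite _
  rw [finsum_eq_sum_of_fintype] at ha
  apply hb
  rw [ha, map_sum]
  have h1 : ∀ q : G ⧸ D, MonoidAlgebra.lift F F G 1
      (MonoidAlgebra.of F G q.out * a * MonoidAlgebra.of F G (q.out)⁻¹) =
      MonoidAlgebra.lift F F G 1 a := by
    intro q
    rw [map_mul, map_mul, MonoidAlgebra.lift_of, MonoidAlgebra.lift_of]
    simp
  rw [Finset.sum_congr rfl fun q _ => h1 q, Finset.sum_const, Finset.card_univ,
    ← Nat.card_eq_fintype_card, nsmul_eq_mul]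
  have h2 : ((D.index : ℕ) : F) = 0 := (CharP.cast_eq_zero_iff F 3 _).2 hdvd
  rw [show Nat.card (G ⧸ D) = D.index from rfl, h2, zero_mul]

theorem card_of_index [Finite G] {D : Subgroup G} {k : ℕ} (h : ¬ 3 ∣ D.index)
    (hG : 3 ^ k ∣ Nat.card G) : 3 ^ k ≤ Nat.card D := by
  have h1 : Nat.card D * D.index = Nat.card G := Subgroup.card_mul_index D
  rw [← h1] at hG
  have h2 : Nat.Coprime (3 ^ k) D.index :=
    Nat.Coprime.pow_left k ((Nat.Prime.coprime_iff_not_dvd Nat.prime_three).2 h)
  exact Nat.le_of_dvd Nat.card_pos (h2.dvd_of_dvd_mul_right hG)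

end Pool.Agent.Lib.MP_d1e4d8_al
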