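import Pool.Agent.Lib.MP_d1e4d8_al.Tower

/-!
# The core argument (for MP_d1e4d8_al)
-/

set_option autoImplicit false
set_option linter.style.haveILetI false
set_option linter.unusedSectionVars false

namespace Pool.Agent.Lib.MP_d1e4d8_al

/-- `m` behaves like the annihilator of a simple module of the ring `E ⊆ B`. -/
structure MaxLike (F : Type*) [Field F] {B : Type*} [Ring B] [Algebra F B] (E : Set B)
    (m : AddSubgroup B) : Prop where
  one : (1 : B) ∉ m
  mul_left : ∀ e ∈ E, ∀ x ∈ m, e * x ∈ m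
  mul_right : ∀ e ∈ E, ∀ x ∈ m, x * e ∈ m
  prime : ∀ f ∈ E, (∀ e ∈ E, (e * f) * (e * f) ∈ m) → f ∈ m
  schur : ∀ z ∈ E, (∀ f ∈ E, z * f - f * z ∈ m) → ∃ c : F, z - algebraMap F B c ∈ m

variable {F : Type*} [Field F] {G : Type*} [Group G] {B : Type*} [Ring B] [Algebra F B]
  [MulSemiringAction G B] [SMulCommClass G F B]
  {A A1 A2 A3 : Subgroup G} {g t t1 t2 : G}

/-- The fixed ring. -/
def EE (B : Type*) [Ring B] [MulSemiringAction G B] (A : Subgroup G) (g : G) : Set B :=
  {x | Fixed A x ∧ g • x = x}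

theorem EE.mul {x y : B} (hx : x ∈ EE B A g) (hy : y ∈ EE B A g) : x * y ∈ EE B A g :=
  ⟨hx.1.mul hy.1, by rw [smul_mul', hx.2, hy.2]⟩

theorem EE.sub {x y : B} (hx : x ∈ EE B A g) (hy : y ∈ EE B A g) : x - y ∈ EE B A g :=
  ⟨hx.1.sub hy.1, by rw [smul_sub, hx.2, hy.2]⟩

theorem EE.add {x y : B} (hx : x ∈ EE B A g) (hy : y ∈ EE B A g) : x + y ∈ EE B A g :=
  ⟨hx.1.add hy.1, by rw [smul_add, hx.2, hy.2]⟩

theorem EE.scalar (c : F) : algebraMap F B c ∈ EE B A g :=
  ⟨fun h _ => smul_algebraMap h c, smul_algebraMap g c⟩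

/-- the ideal of commutators `g • b - b` is contained in `m` -/
theorem X_mem (h3 : ∀ x : B, x + x + x = 0) {m : AddSubgroup B} (hm : MaxLike F (EE B A g) m)
    (W1 : ∀ b : B, Fixed A b → b + g • b + g • g • b ∈ m) {b : B} (hb : Fixed A b)
    (hX : g • b - b ∈ EE B A g) : g • b - b ∈ m := by
  refine hm.prime _ hX fun e he => ?_
  have h1 : e * (g • b - b) = g • (e * b) - e * b := by rw [mul_sub, smul_mul', he.2]
  have h2 : e * (g • b - b) ∈ EE B A g := EE.mul he hX
  set b' := e * b with hb'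
  have hb'F : Fixed A b' := he.1.mul hb
  clear_value b'
  set f := g • b' - b' with hf
  rw [h1] at h2 ⊢
  have h4 : g • b' = b' + f := by rw [hf]; abel
  have h5 : g • g • b' = b' + f + f := by rw [h4, smul_add, h4, h2.2]
  have h6 := W1 (b' * b') (hb'F.mul hb'F)
  rw [smul_mul', smul_mul', h5, h4] at h6
  have h7 : f * f = -(b' * b' + (b' + f) * (b' + f) + (b' + f + f) * (b' + f + f)) +
      ((b' * b' + b' * f + f * b' + (f * f + f * f)) + (b' * b' + b' * f + f * b' + (f * f + f * f))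
       + (b' * b' + b' * f + f * b' + (f * f + f * f))) := by noncomm_ring
  rw [h3, add_zero] at h7
  rw [h7]
  exact m.neg_mem h6

/-- commutators with `η` -/
theorem comm_eta_fixed (T : Tower A A1 A2 A3 g t t1 t2) {η f : B} (hη : Fixed A2 η)
    (htη : t • η = η) (ht1η : t1 • η = η - 1) (hf : Fixed A f) : Fixed A (η * f - f * η) := by
  have hfA2 : Fixed A2 f := hf.mono (T.le2.trans T.le1)
  refine T.fix0 (T.fix1 ((hη.mul hfA2).sub (hfA2.mul hη)) ?_) ?_
  · rw [smul_sub, smul_mul', smul_mul', ht1η, hf _ (T.le1 T.t1_mem)]; noncomm_ring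
  · rw [smul_sub, smul_mul', smul_mul', htη, hf _ T.t_mem]

/-- Part one: `u` is congruent to an element of the prime field. -/
theorem core1 (h3 : ∀ x : B, x + x + x = 0) (T : Tower A A1 A2 A3 g t t1 t2) {m : AddSubgroup B}
    (hm : MaxLike F (EE B A g) m)
    (W1 : ∀ b : B, Fixed A b → b + g • b + g • g • b ∈ m) {η : B} (hη : Fixed A2 η)
    (htη : t • η = η) (ht1η : t1 • η = η - 1) :
    ∃ c : F, c * c * c = c ∧ (η + g • η + g • g • η) - algebraMap F B c ∈ m := by
  obtain ⟨hθ, hθ1, hθt, hu, hu2, hu1, hut, hug⟩ := T.lev0.main h3 hη (Fixed.one _) (smul_one _)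
    (smul_one _) (smul_one _) htη ht1η
  set θ := g • η - η with hθdef
  set u := η + g • η + g • g • η with hudef
  have hθA1 : Fixed A1 θ := T.fix1 hθ hθ1
  have huA : Fixed A u := T.fix0 (T.fix1 hu2 hu1) hut
  have huE : u ∈ EE B A g := ⟨huA, hug⟩
  have hgη : g • η = η + θ := by rw [hθdef]; abel
  have hgθ : g • θ = θ + u := by rw [hu]; abel
  -- u is central mod m
  have hcen : ∀ f ∈ EE B A g, u * f - f * u ∈ m := by
    intro f hf
    have h1 := W1 _ (comm_eta_fixed T hη htη ht1η hf.1)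
    have h2 : (η * f - f * η) + g • (η * f - f * η) + g • g • (η * f - f * η) = u * f - f * u := by
      rw [hudef]
      simp only [smul_sub, smul_mul', hf.2]
      noncomm_ring
    rw [h2] at h1
    exact h1
  obtain ⟨c, hc⟩ := hm.schur u huE hcen
  -- u ^ 3 - u ∈ m
  set v := u * θ - θ * u with hv
  have hθu : ∀ f : B, Fixed A f → Fixed A (f * θ - θ * f) := by
    intro f hf
    refine T.fix0 (((hf.mono T.le1).mul hθA1).sub (hθA1.mul (hf.mono T.le1))) ?_
    rw [smul_sub, smul_mul', smul_mul', hθt, hf _ T.t_mem]; noncomm_ring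
  have hvE : v ∈ EE B A g := by
    refine ⟨hθu u huA, ?_⟩
    rw [hv, smul_sub, smul_mul', smul_mul', hgθ, hug]; noncomm_ring
  set b1 := η * u - u * η with hb1
  set b2 := η * v - v * η with hb2
  set w := θ * θ * θ - θ with hw
  have hwA : Fixed A w := by
    refine T.fix0 (((hθA1.mul hθA1).mul hθA1).sub hθA1) ?_
    rw [hw, smul_sub, smul_mul', smul_mul', hθt]
    have : (θ + 1) * (θ + 1) * (θ + 1) - (θ + 1) = θ * θ * θ - θ +
      (θ * θ + θ * θ + θ * θ) + (θ + θ + θ) := by noncomm_ring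
    rw [this, h3, h3]; abel
  have hb1A : Fixed A b1 := comm_eta_fixed T hη htη ht1η huA
  have hb2A : Fixed A b2 := comm_eta_fixed T hη htη ht1η hvE.1
  have hbA : Fixed A (w + (u * b1 - b1 * u) + b2) :=
    (hwA.add ((huA.mul hb1A).sub (hb1A.mul huA))).add hb2A
  have hX : g • (w + (u * b1 - b1 * u) + b2) - (w + (u * b1 - b1 * u) + b2) = u * u * u - u := by
    have e : g • (w + (u * b1 - b1 * u) + b2) - (w + (u * b1 - b1 * u) + b2) = u * u * u - u +
       (θ * u * θ + θ * u * θ + θ * u * θ) + (u * θ * u + u * θ * u + u * θ * u) := by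
      rw [hw, hb1, hb2]
      simp only [smul_add, smul_sub, smul_mul', hgη, hgθ, hug, hvE.2]
      rw [hv]
      noncomm_ring
    rw [e, h3, h3]; abel
  have hu3 : u * u * u - u ∈ m := by
    have := X_mem h3 hm W1 hbA (by rw [hX]; exact EE.sub (EE.mul (EE.mul huE huE) huE) huE)
    rwa [hX] at this
  refine ⟨c, ?_, hc⟩
  by_contra hne
  have hne' : c * c * c - c ≠ 0 := sub_ne_zero.2 hne
  have hcE : ∀ c : F, algebraMap F B c ∈ EE B A g := fun c => EE.scalar c
  have h10 : algebraMap F B (c * c * c - c) ∈ m := by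
    have a1 := hm.mul_left _ (EE.mul huE huE) _ hc
    have a2 := hm.mul_right _ (hcE c) _ (hm.mul_left _ huE _ hc)
    have a3 := hm.mul_right _ (hcE c) _ (hm.mul_right _ (hcE c) _ hc)
    have a4 := m.sub_mem (m.add_mem (m.sub_mem hu3 (m.add_mem (m.add_mem a1 a2) a3)) hc)
      (m.zero_mem)
    have e : algebraMap F B (c * c * c - c) =
      u * u * u - u - (u * u * (u - algebraMap F B c) +
        u * (u - algebraMap F B c) * algebraMap F B c +
        (u - algebraMap F B c) * algebraMap F B c * algebraMap F B c) + (u - algebraMap F B c)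
         - 0 := by
      rw [map_sub, map_mul, map_mul]; noncomm_ring
    rw [e]; exact a4
  have h11 := hm.mul_left _ (hcE (c * c * c - c)⁻¹) _ h10
  rw [← map_mul, inv_mul_cancel₀ hne', map_one] at h11
  exact hm.one h11

end Pool.Agent.Lib.MP_d1e4d8_al
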