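import Pool.Agent.Lib.MP_d1e4d8_al.Core

/-!
# The core argument, second part (for MP_d1e4d8_al)
-/

set_option autoImplicit false
set_option linter.style.haveILetI false
set_option linter.unusedSectionVars false

namespace Pool.Agent.Lib.MP_d1e4d8_al

variable {F : Type*} [Field F] {G : Type*} [Group G] {B : Type*} [Ring B] [Algebra F B]
  [MulSemiringAction G B] [SMulCommClass G F B]
  {A A1 A2 A3 : Subgroup G} {g t t1 t2 : G}

/-- The element `T0 = Tr_g γ` lies in `m` when `u ∈ m`. -/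
theorem core2a (h3 : ∀ x : B, x + x + x = 0) (T : Tower A A1 A2 A3 g t t1 t2) {m : AddSubgroup B}
    (hm : MaxLike F (EE B A g) m)
    (W1 : ∀ b : B, Fixed A b → b + g • b + g • g • b ∈ m) {η : B} (hη : Fixed A2 η)
    (htη : t • η = η) (ht1η : t1 • η = η - 1) (hum : η + g • η + g • g • η ∈ m)
    {h1 : B} (hh1 : Fixed A2 h1) (hsum1 : h1 + t1 • h1 + t1 • t1 • h1 = 1)
    {γ : B} (hγ : Fixed A1 γ) (hT0 : γ + g • γ + g • g • γ ∈ EE B A g) :
    γ + g • γ + g • g • γ ∈ m := by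
  obtain ⟨hθ, hθ1, hθt, hu, hu2, hu1, hut, hug⟩ := T.lev0.main h3 hη (Fixed.one _) (smul_one _)
    (smul_one _) (smul_one _) htη ht1η
  set θ := g • η - η with hθdef
  set u := η + g • η + g • g • η with hudef
  have hθA1 : Fixed A1 θ := T.fix1 hθ hθ1
  have hgθ : g • θ = θ + u := by rw [hu]; abel
  clear_value θ u
  set T0 := γ + g • γ + g • g • γ with hT0def
  have gt1c : ∀ y : B, Fixed A2 y → g • t1 • y = t1 • g • y := by
    intro y hy
    rw [T.lev0.gt1x, T.lev0.s_fix (T.lev0.ft1 (T.lev0.fg hy))]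
  have hγt1 : t1 • γ = γ := hγ _ T.t1_mem
  have hγ2 : Fixed A2 γ := hγ.mono T.le2
  obtain ⟨γ0, hγ0⟩ : ∃ x, x = h1 * γ := ⟨_, rfl⟩
  have hγ0F : Fixed A2 γ0 := by rw [hγ0]; exact hh1.mul hγ2
  have hγsum : γ = γ0 + t1 • γ0 + t1 • t1 • γ0 := by
    have : (h1 + t1 • h1 + t1 • t1 • h1) * γ = γ := by rw [hsum1, one_mul]
    rw [hγ0]
    simp only [smul_mul', hγt1]
    rw [← add_mul, ← add_mul, this]
  obtain ⟨g1, hg1⟩ : ∃ x, x = γ0 + g • γ0 + g • g • γ0 := ⟨_, rfl⟩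
  have hg1F : Fixed A2 g1 := by
    rw [hg1]
    exact (hγ0F.add (T.lev0.fg hγ0F)).add (T.lev0.fg (T.lev0.fg hγ0F))
  have hgg1 : g • g1 = g1 := by
    rw [hg1, smul_add, smul_add, T.lev0.ggg]; abel
  have hT0sum : g1 + t1 • g1 + t1 • t1 • g1 = T0 := by
    rw [hT0def, hγsum, hg1]
    have e1 := gt1c _ hγ0F
    have e2 := gt1c _ (T.lev0.ft1 hγ0F)
    have e3 := gt1c _ (T.lev0.fg hγ0F)
    have e4 := gt1c _ (T.lev0.fg (T.lev0.ft1 hγ0F))
    have e5 := gt1c _ (T.lev0.ft1 (T.lev0.fg hγ0F))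
    simp only [smul_add, e1, e2, e3, e5]
    abel
  clear_value T0
  obtain ⟨η', hη'⟩ : ∃ x, x = t1 • g1 - t1 • t1 • g1 := ⟨_, rfl⟩
  obtain ⟨hη'F, hη't1⟩ := T.lev0.exists_eta h3 hg1F hT0sum
  rw [← hη'] at hη'F hη't1
  have hgη' : g • η' = η' := by
    rw [hη', smul_sub, gt1c _ hg1F, gt1c _ (T.lev0.ft1 hg1F), gt1c _ hg1F, hgg1]
  have htT0 : t • T0 = T0 := hT0.1 _ T.t_mem
  have ht1T0 : t1 • T0 = T0 := hT0.1 _ (T.le1 T.t1_mem)
  obtain ⟨ϑ, hϑ⟩ : ∃ x, x = t • η' - η' := ⟨_, rfl⟩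
  have hϑ2 : Fixed A2 ϑ := by rw [hϑ]; exact (T.lev0.ft hη'F).sub hη'F
  have hϑt1 : t1 • ϑ = ϑ := by
    rw [hϑ, smul_sub, ← T.lev0.tt, hη't1, smul_sub, htT0]; abel
  have hϑ1 : Fixed A1 ϑ := T.fix1 hϑ2 hϑt1
  have hgϑ : g • ϑ = ϑ - T0 := by
    rw [hϑ, smul_sub, T.lev0.gtx, hgη', ← T.lev0.tt, hη't1, smul_sub, htT0]; abel
  obtain ⟨u', hu'⟩ : ∃ x, x = t • ϑ - ϑ := ⟨_, rfl⟩
  have htttη' : t • t • t • η' = η' := by
    rw [smul_smul, smul_smul]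
    exact hη'F _ (T.cube _ T.t_mem)
  have hu't : t • u' = u' := by
    have e : t • u' - u' = t • t • t • η' - η' - (t • t • η' + t • t • η' + t • t • η') +
      (t • η' + t • η' + t • η') := by
      rw [hu', hϑ]; simp only [smul_sub]; abel
    rw [htttη', h3, h3] at e
    rw [← sub_eq_zero, e]; abel
  have hu't1 : t1 • u' = u' := by
    rw [hu', smul_sub, ← T.lev0.tt, hϑt1]
  have hu'2 : Fixed A2 u' := by rw [hu']; exact (T.lev0.ft hϑ2).sub hϑ2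
  have hu'A : Fixed A u' := T.fix0 (T.fix1 hu'2 hu't1) hu't
  have hgu' : g • u' = u' := by
    rw [hu', smul_sub, T.lev0.gtx, hgϑ, ← T.lev0.tt, smul_sub t1, hϑt1, ht1T0, smul_sub, htT0]
    abel
  have hu'E : u' ∈ EE B A g := ⟨hu'A, hgu'⟩
  have hfA : Fixed A (ϑ - u' * θ) := by
    refine T.fix0 (hϑ1.sub ((hu'A.mono T.le1).mul hθA1)) ?_
    have : t • ϑ = ϑ + u' := by rw [hu']; abel
    rw [smul_sub, smul_mul', this, hu't, hθt]; noncomm_ring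
  have hX : g • (ϑ - u' * θ) - (ϑ - u' * θ) = - T0 - u' * u := by
    rw [smul_sub, smul_mul', hgϑ, hgu', hgθ]; noncomm_ring
  have huE : u ∈ EE B A g := ⟨T.fix0 (T.fix1 hu2 hu1) hut, hug⟩
  have h5 : -T0 - u' * u ∈ m := by
    have h0 : (0 : B) ∈ EE B A g := ⟨Fixed.zero _, smul_zero _⟩
    have := X_mem h3 hm W1 hfA (by
      rw [hX]
      refine EE.sub ?_ (EE.mul hu'E huE)
      have := EE.sub h0 hT0
      simpa using this)
    rwa [hX] at this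
  have h6 := hm.mul_left _ hu'E _ hum
  have h7 := m.neg_mem (m.add_mem h5 h6)
  have e : T0 = -(-T0 - u' * u + u' * u) := by abel
  rw [e]; exact h7

end Pool.Agent.Lib.MP_d1e4d8_al
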