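import Pool.Agent.Lib.MP_d1e4d8_al.Core2

/-!
# The core argument, third part (for MP_d1e4d8_al)
-/

set_option autoImplicit false
set_option linter.style.haveILetI false
set_option linter.unusedSectionVars false

namespace Pool.Agent.Lib.MP_d1e4d8_al

variable {F : Type*} [Field F] {G : Type*} [Group G] {B : Type*} [Ring B] [Algebra F B]
  [MulSemiringAction G B] [SMulCommClass G F B]
  {A A1 A2 A3 : Subgroup G} {g t t1 t2 : G}

theorem core2 (h3 : ∀ x : B, x + x + x = 0) (T : Tower A A1 A2 A3 g t t1 t2) {m : AddSubgroup B}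
    (hm : MaxLike F (EE B A g) m)
    (W1 : ∀ b : B, Fixed A b → b + g • b + g • g • b ∈ m)
    (W2 : ∀ b : B, Fixed A1 b → g • b = b → b + t • b + t • t • b ∈ m)
    {η : B} (hη : Fixed A2 η)
    (htη : t • η = η) (ht1η : t1 • η = η - 1) (hum : η + g • η + g • g • η ∈ m)
    {h1 : B} (hh1 : Fixed A2 h1) (hsum1 : h1 + t1 • h1 + t1 • t1 • h1 = 1)
    {h2 : B} (hh2 : Fixed A3 h2) (ht1h2 : t1 • h2 = h2) (hsum2 : h2 + t2 • h2 + t2 • t2 • h2 = 1) :
    False := by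
  obtain ⟨η1, hη1⟩ : ∃ x, x = t2 • h2 - t2 • t2 • h2 := ⟨_, rfl⟩
  obtain ⟨hη1F, hη1t2⟩ := T.lev1.exists_eta h3 hh2 hsum2
  rw [← hη1] at hη1F hη1t2
  have hη1t1 : t1 • η1 = η1 := by
    rw [hη1, smul_sub, T.lev1.tt, T.lev1.tt, T.lev1.tt, ht1h2]
  obtain ⟨hθ, hθ1, hθt, hu, hu2, hu1, hut, hug⟩ := T.lev1.main h3 hη1F (Fixed.one _) (smul_one _)
    (smul_one _) (smul_one _) hη1t1 hη1t2
  set θ1 := g • η1 - η1 with hθ1def
  set u0 := η1 + g • η1 + g • g • η1 with hu0def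
  have hθ1A2 : Fixed A2 θ1 := T.fix2 hθ hθ1
  have hu0A1 : Fixed A1 u0 := T.fix1 (T.fix2 hu2 hu1) hut
  have hgθ1 : g • θ1 = θ1 + u0 := by rw [hu]; abel
  -- commutation of t with A
  have ct : ∀ {N : Subgroup G}, N ≤ A → ∀ {x : B}, Fixed N x → Fixed N (t • x) := by
    intro N hN x hx
    exact Tower.ft (fun a ha => T.comm _ (hN ha) _ T.t_mem) hx
  have ctt : ∀ a ∈ A, ∀ x : B, a • t • x = t • a • x := by
    intro a ha x
    rw [smul_smul, smul_smul, T.comm _ ha _ T.t_mem]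
  have hA1A := T.le1
  have hA2A := T.le2.trans T.le1
  have hA3A := T.le3.trans hA2A
  -- δ
  obtain ⟨δ, hδ⟩ : ∃ x, x = t • η1 - η1 := ⟨_, rfl⟩
  have hδ3 : Fixed A3 δ := by rw [hδ]; exact (ct hA3A hη1F).sub hη1F
  have hδt2 : t2 • δ = δ := by
    rw [hδ, smul_sub, ctt _ (hA2A T.t2_mem), hη1t2, smul_sub, smul_one]; abel
  have hδt1 : t1 • δ = δ := by
    rw [hδ, smul_sub, ctt _ (hA1A T.t1_mem), hη1t1]
  have hδA1 : Fixed A1 δ := T.fix1 (T.fix2 hδ3 hδt2) hδt1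
  have htη1 : t • η1 = η1 + δ := by rw [hδ]; abel
  have fgA1 : ∀ {x : B}, Fixed A1 x → Fixed A1 (g • x) := fun hx => Tower.fg T.c1 hx
  have ht1i : t1⁻¹ ∈ A1 := A1.inv_mem T.t1_mem
  -- t • θ1
  have htθ1 : t • θ1 = θ1 - 1 + (g • δ - δ) := by
    have a1 : t2 • g • η1 = g • η1 - 1 := by
      rw [T.lev1.t1g, hη1t2, smul_sub, smul_one, T.lev1.sinv_fix ((T.lev1.fg hη1F).sub
        (Fixed.one _))]
    have a2 : t2⁻¹ • g • η1 = g • η1 + 1 := by
      have := inv_shift (c := -1) (by rw [a1]; abel : t2 • g • η1 = g • η1 + -1)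
        (by rw [smul_neg, smul_one])
      rw [this]; abel
    have a3 : t1 • g • η1 = g • η1 + 1 := by
      rw [T.lev0.t1g, hη1t1, a2]
    have a4 : t1⁻¹ • g • η1 = g • η1 - 1 := inv_shift a3 (smul_one _)
    rw [hθ1def, smul_sub, T.lev0.tg, htη1, smul_add, smul_add, a4, fgA1 hδA1 _ ht1i]
    abel
  clear_value θ1 u0
  obtain ⟨P, hP⟩ : ∃ x, x = δ + g • δ + g • g • δ := ⟨_, rfl⟩
  have hgP : g • P = P := by rw [hP, smul_add, smul_add, T.lev0.ggg]; abel
  have htu0 : t • u0 = u0 - 1 + P := by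
    have a1 : t1 • g • θ1 = g • θ1 + 1 := by
      rw [T.lev0.t1g, hθt, smul_add, smul_one, T.lev0.sinv_fix ((T.lev0.fg hθ1A2).add
        (Fixed.one _))]
    have a2 : t1⁻¹ • g • θ1 = g • θ1 - 1 := inv_shift a1 (smul_one _)
    have e : t • u0 = g • θ1 - θ1 - 1 + (g • g • δ - g • δ - (g • δ - δ)) := by
      rw [hu, smul_sub, T.lev0.tg, htθ1]
      simp only [smul_add, smul_sub, smul_one, a2, fgA1 hδA1 _ ht1i, fgA1 (fgA1 hδA1) _ ht1i]
      abel
    have h3' := h3 (g • δ)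
    have e2 : g • g • δ - g • δ - (g • δ - δ) = P - (g • δ + g • δ + g • δ) := by
      rw [hP]; abel
    rw [e, e2, h3', hu]; abel
  -- δ'
  obtain ⟨δ', hδ'⟩ : ∃ x, x = δ + t • δ := ⟨_, rfl⟩
  have htδA1 : Fixed A1 (t • δ) := ct hA1A hδA1
  have hδ'A1 : Fixed A1 δ' := by rw [hδ']; exact hδA1.add htδA1
  obtain ⟨P', hP'⟩ : ∃ x, x = δ' + g • δ' + g • g • δ' := ⟨_, rfl⟩
  have hgP' : g • P' = P' := by rw [hP', smul_add, smul_add, T.lev0.ggg]; abel
  have tgA1 : ∀ x : B, Fixed A1 x → t • g • x = g • t • x := by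
    intro x hx
    rw [T.lev0.tg, fgA1 (ct hA1A hx) _ ht1i]
  have httu0 : t • t • u0 = u0 - 1 - 1 + P' := by
    rw [htu0, smul_add, smul_sub, smul_one, htu0, hP, hP', hδ']
    simp only [smul_add]
    rw [tgA1 _ hδA1, tgA1 _ (fgA1 hδA1), tgA1 _ hδA1]
    abel
  -- T0
  obtain ⟨γ, hγ⟩ : ∃ x, x = ((u0 - 1) * δ + δ * (u0 - 1) + δ * P) +
    ((u0 - 1 - 1) * δ' + δ' * (u0 - 1 - 1) + δ' * P') := ⟨_, rfl⟩
  have hPA1 : Fixed A1 P := by
    rw [hP]; exact (hδA1.add (fgA1 hδA1)).add (fgA1 (fgA1 hδA1))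
  have hP'A1 : Fixed A1 P' := by
    rw [hP']; exact (hδ'A1.add (fgA1 hδ'A1)).add (fgA1 (fgA1 hδ'A1))
  have o1 : Fixed A1 (1 : B) := Fixed.one _
  have hγA1 : Fixed A1 γ := by
    rw [hγ]
    exact (((hu0A1.sub o1).mul hδA1).add (hδA1.mul (hu0A1.sub o1))).add (hδA1.mul hPA1) |>.add
      (((((hu0A1.sub o1).sub o1).mul hδ'A1).add (hδ'A1.mul ((hu0A1.sub o1).sub o1))).add
        (hδ'A1.mul hP'A1))
  have hT0a : γ + g • γ + g • g • γ = 1 + (u0 * u0 + t • (u0 * u0) + t • t • (u0 * u0)) := by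
    have e : γ + g • γ + g • g • γ = ((u0 - 1) * P + P * (u0 - 1) + P * P) +
      ((u0 - 1 - 1) * P' + P' * (u0 - 1 - 1) + P' * P') := by
      have e1 : ((u0 - 1) * P + P * (u0 - 1) + P * P) +
        ((u0 - 1 - 1) * P' + P' * (u0 - 1 - 1) + P' * P') =
        ((u0 - 1) * (δ + g • δ + g • g • δ) + (δ + g • δ + g • g • δ) * (u0 - 1) +
          (δ + g • δ + g • g • δ) * P) +
        ((u0 - 1 - 1) * (δ' + g • δ' + g • g • δ') + (δ' + g • δ' + g • g • δ') * (u0 - 1 - 1) +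
          (δ' + g • δ' + g • g • δ') * P') := by
        rw [← hP, ← hP']
      rw [e1, hγ]
      simp only [smul_add, smul_sub, smul_mul', smul_one, hug, hgP, hgP']
      noncomm_ring
    have e2 : 1 + (u0 * u0 + t • (u0 * u0) + t • t • (u0 * u0)) =
      ((u0 - 1) * P + P * (u0 - 1) + P * P) +
      ((u0 - 1 - 1) * P' + P' * (u0 - 1 - 1) + P' * P') +
      ((u0 * u0 - u0 - u0 + 1 + 1) + (u0 * u0 - u0 - u0 + 1 + 1) +
      (u0 * u0 - u0 - u0 + 1 + 1)) := by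
      simp only [smul_mul']
      rw [httu0, htu0]
      noncomm_ring
    rw [e, e2, h3, add_zero]
  have hsq : u0 * u0 + t • (u0 * u0) + t • t • (u0 * u0) ∈ m :=
    W2 _ (hu0A1.mul hu0A1) (by rw [smul_mul', hug])
  have hT0E : γ + g • γ + g • g • γ ∈ EE B A g := by
    refine ⟨?_, by rw [smul_add, smul_add, T.lev0.ggg]; abel⟩
    rw [hT0a]
    have s1 : Fixed A1 (u0 * u0) := hu0A1.mul hu0A1
    refine T.fix0 (o1.add ((s1.add (ct hA1A s1)).add (ct hA1A (ct hA1A s1)))) ?_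
    have h8 : t • t • t • (u0 * u0) = u0 * u0 := by
      rw [smul_smul, smul_smul]
      exact s1 _ (T.le2 (T.cube _ T.t_mem))
    simp only [smul_add, smul_one, h8]
    abel
  have hT0m := core2a h3 T hm W1 hη htη ht1η hum hh1 hsum1 hγA1 hT0E
  rw [hT0a] at hT0m
  have := m.sub_mem hT0m hsq
  rw [add_sub_cancel_right] at this
  exact hm.one this

/-- The full core argument. -/
theorem core (h3 : ∀ x : B, x + x + x = 0) (T : Tower A A1 A2 A3 g t t1 t2) {m : AddSubgroup B}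
    (hm : MaxLike F (EE B A g) m)
    (W1 : ∀ b : B, Fixed A b → b + g • b + g • g • b ∈ m)
    (W2 : ∀ s ∈ A, ∀ b : B, Fixed A1 b → (g * s) • b = b → b + t • b + t • t • b ∈ m)
    {h1 : B} (hh1 : Fixed A2 h1) (hth1 : t • h1 = h1) (hsum1 : h1 + t1 • h1 + t1 • t1 • h1 = 1)
    {h2 : B} (hh2 : Fixed A3 h2) (ht1h2 : t1 • h2 = h2) (hsum2 : h2 + t2 • h2 + t2 • t2 • h2 = 1) :
    False := by
  obtain ⟨η, hη⟩ : ∃ x, x = t1 • h1 - t1 • t1 • h1 := ⟨_, rfl⟩
  obtain ⟨hηF, ht1η⟩ := T.lev0.exists_eta h3 hh1 hsum1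
  rw [← hη] at hηF ht1η
  have htη : t • η = η := by
    rw [hη, smul_sub, T.lev0.tt, T.lev0.tt, T.lev0.tt, hth1]
  obtain ⟨c, hc, hcm⟩ := core1 h3 T hm W1 hηF htη ht1η
  obtain ⟨hθ, hθ1, hθt, hu, hu2, hu1, hut, hug⟩ := T.lev0.main h3 hηF (Fixed.one _) (smul_one _)
    (smul_one _) (smul_one _) htη ht1η
  -- the set `EE` does not change when `g` is replaced by `g * s`
  have hEE : ∀ s ∈ A, EE B A (g * s) = EE B A g := by
    intro s hs
    ext x
    constructor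
    · rintro ⟨h4, h5⟩
      rw [mul_smul, h4 s hs] at h5
      exact ⟨h4, h5⟩
    · rintro ⟨h4, h5⟩
      exact ⟨h4, by rw [mul_smul, h4 s hs, h5]⟩
  have hfg : ∀ {x : B}, Fixed A x → Fixed A (g • x) := fun hx => Tower.fg T.c0 hx
  have key : ∀ s ∈ A, (η + (g * s) • η + (g * s) • (g * s) • η ∈ m) → False := by
    intro s hs hsm
    have hm' : MaxLike F (EE B A (g * s)) m := by rw [hEE s hs]; exact hm
    refine core2 h3 (T.shift hs) hm' ?_ ?_ hηF htη ht1η hsm hh1 hsum1 hh2 ht1h2 hsum2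
    · intro b hb
      rw [mul_smul, mul_smul, hb s hs, hfg hb s hs]
      exact W1 b hb
    · intro b hb hgb
      exact W2 s hs b hb hgb
  -- the three cases
  have hcase : c = 0 ∨ c = 1 ∨ c = -1 := by
    have : c * ((c - 1) * (c + 1)) = 0 := by linear_combination hc
    rcases mul_eq_zero.1 this with h | h
    · exact Or.inl h
    · rcases mul_eq_zero.1 h with h | h
      · exact Or.inr (Or.inl (sub_eq_zero.1 h))
      · exact Or.inr (Or.inr (eq_neg_of_add_eq_zero_left h))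
  have hgη : g • η = η + (g • η - η) := by abel
  have htgη : t • g • η = g • η + 1 := by
    have : t • g • η = t • (g • η - η) + t • η := by rw [← smul_add]; congr 1; abel
    rw [this, hθt, htη]; abel
  rcases hcase with rfl | rfl | rfl
  · refine key 1 A.one_mem ?_
    rw [map_zero, sub_zero] at hcm
    rwa [mul_one]
  · refine key (t * t) (A.mul_mem T.t_mem T.t_mem) ?_
    have e : η + (g * (t * t)) • η + (g * (t * t)) • (g * (t * t)) • η =
      (η + g • η + g • g • η) - algebraMap F B 1 + (1 + 1 + 1) := by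
      simp only [mul_smul, htη, htgη, smul_add, smul_one]
      rw [map_one]; abel
    rw [e, h3, add_zero]
    exact hcm
  · refine key t T.t_mem ?_
    have e : η + (g * t) • η + (g * t) • (g * t) • η =
      (η + g • η + g • g • η) - algebraMap F B (-1) := by
      simp only [mul_smul, htη, htgη, smul_add, smul_one]
      rw [map_neg, map_one]; abel
    rw [e]
    exact hcm

end Pool.Agent.Lib.MP_d1e4d8_al
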