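import Mathlib

/-!
# Definitions for MP_d1e4d8_al (Puig's question on vertices of simple modules and defect groups)

`F` is a field, `G` a group; `FG`-modules are representations `Representation F G V`.
-/

set_option autoImplicit false

namespace Pool.Agent.Lib.MP_d1e4d8_al

universe u v

variable {F : Type u} [Field F] {G : Type v} [Group G]

/-- `ρ` is isomorphic to a direct summand of `σ` (as `FG`-modules): there are `FG`-homomorphisms
`i : ρ → σ` and `π : σ → ρ` with `π ∘ i = id`. -/
def IsSummand {V W : Type*} [AddCommGroup V] [Module F V] [AddCommGroup W] [Module F W]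
    (ρ : Representation F G V) (σ : Representation F G W) : Prop :=
  ∃ (i : ρ.IntertwiningMap σ) (π : σ.IntertwiningMap ρ), ∀ x : V, π (i x) = x

/-- The `FG`-module induced from the `FH`-module `τ`, realised (for a finite group `G`) as the space
of functions `f : G → W` with `f (h * x) = τ h (f x)` for `h ∈ H`, where `g ∈ G` acts by
`(g • f) x = f (x * g)`. -/
noncomputable abbrev indRep (H : Subgroup G) {W : Type*} [AddCommGroup W] [Module F W]
    (τ : Representation F H W) :
    Representation F G (Representation.coindV H.subtype τ) :=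
  Representation.coind H.subtype τ

/-- `ρ` is relatively `H`-projective: it is a direct summand of a module induced from a
finite-dimensional `FH`-module. -/
def RelProj (H : Subgroup G) {V : Type*} [AddCommGroup V] [Module F V]
    (ρ : Representation F G V) : Prop :=
  ∃ (W : Type u) (_ : AddCommGroup W) (_ : Module F W) (_ : Module.Finite F W)
    (τ : Representation F H W), IsSummand ρ (indRep H τ)

/-- `τ` is indecomposable: nonzero, and in every decomposition of the module as a direct sum of two
submodules one of the two is zero. -/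
def IsIndecomposable {W : Type*} [AddCommGroup W] [Module F W] (τ : Representation F G W) : Prop :=
  Nontrivial W ∧ ∀ U U' : Submodule F W, (∀ g, ∀ x ∈ U, τ g x ∈ U) → (∀ g, ∀ x ∈ U', τ g x ∈ U') →
    IsCompl U U' → U = ⊥ ∨ U' = ⊥

/-- `(P, τ)` is a vertex-source pair of `ρ`: `τ` is an indecomposable `FP`-module, `ρ` is a direct
summand of the module induced from `τ`, and `ρ` is not relatively `P'`-projective for any proper
subgroup `P'` of `P`. -/
def IsVertexSource {V : Type*} [AddCommGroup V] [Module F V] (ρ : Representation F G V)
    (P : Subgroup G) {L : Type*} [AddCommGroup L] [Module F L] (τ : Representation F P L) : Prop :=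
  IsIndecomposable τ ∧ IsSummand ρ (indRep P τ) ∧ ∀ P' : Subgroup G, P' < P → ¬ RelProj P' ρ

/-- `b` is a block idempotent of the group algebra `FG`: a primitive idempotent of its centre. -/
def IsBlockIdempotent (b : MonoidAlgebra F G) : Prop :=
  b ∈ Subring.center (MonoidAlgebra F G) ∧ b * b = b ∧ b ≠ 0 ∧
    ∀ e ∈ Subring.center (MonoidAlgebra F G), e * e = e → e * b = e → e = 0 ∨ e = b

/-- The module `ρ` lies in the block of `b`: `b` acts on it as the identity. -/
def InBlock {V : Type*} [AddCommGroup V] [Module F V] (ρ : Representation F G V)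
    (b : MonoidAlgebra F G) : Prop :=
  ∀ x : V, ρ.asAlgebraHom b x = x

/-- `b` is in the image of the relative trace map `Tr_D^G : (FG)^D → (FG)^G`,
`a ↦ ∑_{q ∈ G/D} q a q⁻¹` (`D` acts on `FG` by conjugation). -/
def IsRelTrace (D : Subgroup G) (b : MonoidAlgebra F G) : Prop :=
  ∃ a : MonoidAlgebra F G,
    (∀ d ∈ D, MonoidAlgebra.of F G d * a = a * MonoidAlgebra.of F G d) ∧
    b = ∑ᶠ q : G ⧸ D, MonoidAlgebra.of F G q.out * a * MonoidAlgebra.of F G (q.out)⁻¹

/-- `D` is a defect group of the block with block idempotent `b`: `D` is minimal (with respect to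
inclusion) among the subgroups with `b ∈ Tr_D^G((FG)^D)`. -/
def IsDefectGroup (D : Subgroup G) (b : MonoidAlgebra F G) : Prop :=
  IsRelTrace D b ∧ ∀ D' : Subgroup G, D' < D → ¬ IsRelTrace D' b

/-- The vertex-bounded-defect property with respect to `Q`, of the set of finite groups `G i`. -/
def VertexBoundedDefect (F : Type u) [Field F] {ι : Type} (G : ι → Type) [∀ i, Group (G i)]
    (Q : Type) [Group Q] : Prop :=
  ∃ c : ℕ, ∀ (i : ι) (V : Type u) (_ : AddCommGroup V) (_ : Module F V)
    (ρ : Representation F (G i) V), ρ.IsIrreducible →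
    (∃ (P : Subgroup (G i)) (L : Type u) (_ : AddCommGroup L) (_ : Module F L)
      (_ : Module.Finite F L) (τ : Representation F P L),
        Nonempty (P ≃* Q) ∧ IsVertexSource ρ P τ) →
    ∀ b, IsBlockIdempotent b → InBlock ρ b → ∀ D, IsDefectGroup D b → Nat.card D ≤ c

/-- `G` has a simple module over `F` with vertex isomorphic to `Q`, lying in a block (which has a
defect group) all of whose defect groups have order at least `n`. -/
def HasSimpleWith (F : Type u) [Field F] (G : Type) [Group G] (Q : Type) [Group Q] (n : ℕ) : Prop :=
  ∃ (V : Type u) (_ : AddCommGroup V) (_ : Module F V) (ρ : Representation F G V),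
    ρ.IsIrreducible ∧
    (∃ (P : Subgroup G) (L : Type u) (_ : AddCommGroup L) (_ : Module F L)
      (_ : Module.Finite F L) (τ : Representation F P L),
        Nonempty (P ≃* Q) ∧ IsVertexSource ρ P τ) ∧
    (∃ b, IsBlockIdempotent b ∧ InBlock ρ b ∧ ∃ D, IsDefectGroup D b) ∧
    ∀ b, IsBlockIdempotent b → InBlock ρ b → ∀ D, IsDefectGroup D b → n ≤ Nat.card D

/-- The negated form for `p = 3`: there are a finite `3`-group `Q` (of order at most `27`) and
finite groups `G 0, G 1, …` such that each `G n` has a simple `F (G n)`-module with vertex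
isomorphic to `Q` whose block has defect groups of order at least `n`; so the set of the groups
`G n` does not have the vertex-bounded-defect property with respect to `Q`. -/
def Negated (F : Type u) [Field F] : Prop :=
  ∃ (Q : Type) (_ : Group Q) (_ : Finite Q), IsPGroup 3 Q ∧ Nat.card Q ≤ 27 ∧
    ∃ (G : ℕ → Type) (_ : ∀ n, Group (G n)) (_ : ∀ n, Finite (G n)),
      (∀ n, HasSimpleWith F (G n) Q n) ∧ ¬ VertexBoundedDefect F G Q

end Pool.Agent.Lib.MP_d1e4d8_al
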