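import Pool.Agent.Lib.MP_d1e4d8_al.Assembly

/-!
# The final statement (for MP_d1e4d8_al)
-/

set_option autoImplicit false
set_option linter.style.haveILetI false
set_option linter.unusedSectionVars false

namespace Pool.Agent.Lib.MP_d1e4d8_al

universe u

/-- an auxiliary predicate -/
def Good (F : Type u) [Field F] (Q : Type) [Group Q] (m : ℕ) : Prop :=
  IsPGroup 3 Q ∧ ∃ (G : Type) (_ : Group G) (_ : Finite G), HasSimpleWith F G Q m

/-- a type with `k` elements and no algebraic structure -/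
def Car (k : ℕ) : Type := Fin k

instance (k : ℕ) : Finite (Car k) := inferInstanceAs (Finite (Fin k))

theorem finite_group_structures (k : ℕ) : Finite (Group (Car k)) := by
  refine Finite.of_injective (fun s : Group (Car k) => (fun a b : Car k => s.mul a b)) ?_
  intro s s' h
  exact Group.ext h

theorem exists_good (F : Type u) [Field F] [IsAlgClosed F] [CharP F 3] (m : ℕ) :
    ∃ (y : Σ k : Fin 28, Group (Car k)), @Good F _ (Car y.1) y.2 m := by
  obtain ⟨G, _, _, V, _, _, ρ, hirr, ⟨P, L, _, _, _, τ, hP3, hPc, hτ⟩, hb, hD⟩ := main_m F m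
  haveI : Finite P := inferInstance
  let e : Car (Nat.card P) ≃ P := (Finite.equivFin P).symm
  letI s : Group (Car (Nat.card P)) := e.group
  have e' : P ≃* Car (Nat.card P) := e.mulEquiv.symm
  refine ⟨⟨⟨Nat.card P, by omega⟩, s⟩, ?_⟩
  exact ⟨hP3.of_equiv e', G, inferInstance, inferInstance, V, inferInstance, inferInstance, ρ, hirr,
    ⟨P, L, inferInstance, inferInstance, inferInstance, τ, ⟨e'⟩, hτ⟩, hb, hD⟩

theorem HasSimpleWith.mono {F : Type u} [Field F] {G : Type} [Group G] {Q : Type} [Group Q]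
    {n m : ℕ} (h : n ≤ m) (hm : HasSimpleWith F G Q m) : HasSimpleWith F G Q n := by
  obtain ⟨V, iV, iM, ρ, a1, a2, a3, a4⟩ := hm
  exact ⟨V, iV, iM, ρ, a1, a2, a3, fun b hb hbρ D hD => h.trans (a4 b hb hbρ D hD)⟩

theorem exists_group (F : Type u) [Field F] [IsAlgClosed F] [CharP F 3] :
    ∃ (k : ℕ) (_ : Group (Car k)), k ≤ 27 ∧ ∀ m, Good F (Car k) m := by
  haveI : ∀ k : Fin 28, Finite (Group (Car k)) := fun k => finite_group_structures k
  choose y hy using exists_good F
  obtain ⟨z, hz⟩ := Finite.exists_infinite_fiber y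
  refine ⟨z.1, z.2, by omega, fun n => ?_⟩
  have hinf : (y ⁻¹' {z}).Infinite := Set.infinite_coe_iff.1 hz
  obtain ⟨m, hm, hnm⟩ := hinf.exists_gt n
  have hm' : y m = z := hm
  have h1 := hy m
  rw [hm'] at h1
  letI := z.2
  obtain ⟨h0, G, iG, iF, h2⟩ := h1
  exact ⟨h0, G, iG, iF, h2.mono hnm.le⟩

theorem card_Car (k : ℕ) : Nat.card (Car k) = k := Nat.card_fin k

theorem main (F : Type u) [Field F] [IsAlgClosed F] [CharP F 3] : Negated F := by
  obtain ⟨k, s, hk27, hk⟩ := exists_group F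
  refine ⟨Car k, s, inferInstance, (hk 0).1, by rw [card_Car]; exact hk27, ?_⟩
  choose G iG iF h using fun m => (hk m).2
  refine ⟨G, iG, iF, h, ?_⟩
  rintro ⟨c, hc⟩
  obtain ⟨V, iV, iM, ρ, a1, a2, ⟨b, hb, hbρ, D, hD⟩, a4⟩ := h (c + 1)
  have h1 := hc (c + 1) V iV iM ρ a1 a2 b hb hbρ D hD
  have h2 := a4 b hb hbρ D hD
  omega

end Pool.Agent.Lib.MP_d1e4d8_al
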