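import Pool.Agent.Lib.MP_d1e4d8_al.Tower

/-!
# Existence of a tower (for MP_d1e4d8_al)
-/

set_option autoImplicit false
set_option linter.style.haveILetI false
set_option linter.unusedSectionVars false

namespace Pool.Agent.Lib.MP_d1e4d8_al

section comm

variable {M : Type*} [CommGroup M] [Finite M]

theorem gen_of_relIndex {H K : Subgroup M} (_hHK : H ≤ K) (hidx : H.relIndex K = 3) {t : M}
    (ht : t ∈ K) (ht' : t ∉ H) :
    ∀ a ∈ K, a ∈ H ∨ t⁻¹ * a ∈ H ∨ (t * t)⁻¹ * a ∈ H := by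
  intro a ha
  have hcard : Nat.card (K ⧸ H.subgroupOf K) = 3 := hidx
  haveI : Fact (Nat.Prime 3) := ⟨Nat.prime_three⟩
  have hne : ((⟨t, ht⟩ : K) : K ⧸ H.subgroupOf K) ≠ 1 := by
    intro h
    rw [QuotientGroup.eq_one_iff] at h
    exact ht' h
  have hz := mem_zpowers_of_prime_card (g' := ((⟨a, ha⟩ : K) : K ⧸ H.subgroupOf K)) hcard hne
  obtain ⟨n, hn⟩ := Subgroup.mem_zpowers_iff.1 hz
  have hcube : ((⟨t, ht⟩ : K) : K ⧸ H.subgroupOf K) ^ (3 : ℕ) = 1 := by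
    rw [← hcard]; exact pow_card_eq_one'
  have hn3 : n = n % 3 + 3 * (n / 3) := (Int.emod_add_mul_ediv n 3).symm
  have h0 : 0 ≤ n % 3 := Int.emod_nonneg _ (by norm_num)
  have h1 : n % 3 < 3 := Int.emod_lt_of_pos _ (by norm_num)
  have hn' : ((⟨t, ht⟩ : K) : K ⧸ H.subgroupOf K) ^ (n % 3) = ((⟨a, ha⟩ : K) : K ⧸ H.subgroupOf K) := by
    rw [← hn]
    conv_rhs => rw [hn3]
    rw [zpow_add, zpow_mul]
    have : ((⟨t, ht⟩ : K) : K ⧸ H.subgroupOf K) ^ (3 : ℤ) = 1 := by exact_mod_cast hcube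
    rw [this, one_zpow, mul_one]
  have hcases : n % 3 = 0 ∨ n % 3 = 1 ∨ n % 3 = 2 := by omega
  rcases hcases with h | h | h
  · left
    rw [h, zpow_zero] at hn'
    have := (QuotientGroup.eq_one_iff _).1 hn'.symm
    exact this
  · right; left
    rw [h, zpow_one] at hn'
    have := QuotientGroup.eq.1 hn'
    exact this
  · right; right
    rw [h] at hn'
    have h2 : ((⟨t, ht⟩ * ⟨t, ht⟩ : K) : K ⧸ H.subgroupOf K) =
      ((⟨a, ha⟩ : K) : K ⧸ H.subgroupOf K) := by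
      rw [← hn']
      rw [QuotientGroup.mk_mul, zpow_ofNat, pow_two]
    have := QuotientGroup.eq.1 h2
    exact this

/-- The abstract tower. -/
theorem abstract_tower (σ : M →* M) (hσ : ∀ a, σ (σ (σ a)) = a)
    (hn : ∀ a, a * σ a * σ (σ a) = 1) (hC : Nat.card {a : M // σ a = a} ∣ 3)
    (hp : IsPGroup 3 M) (h27 : 27 ≤ Nat.card M) :
    ∃ (N1 N2 N3 : Subgroup M) (t : M), N2 ≤ N1 ∧ N3 ≤ N2 ∧
      (∀ a, σ a * a⁻¹ ∈ N1) ∧ (∀ a ∈ N1, σ a * a⁻¹ ∈ N2) ∧ (∀ a ∈ N2, σ a * a⁻¹ ∈ N3) ∧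
      (∀ a, a ∈ N1 ∨ t⁻¹ * a ∈ N1 ∨ (t * t)⁻¹ * a ∈ N1) ∧
      (∀ a ∈ N1, a ∈ N2 ∨ (σ t * t⁻¹)⁻¹ * a ∈ N2 ∨
        ((σ t * t⁻¹) * (σ t * t⁻¹))⁻¹ * a ∈ N2) ∧
      (∀ a ∈ N2, a ∈ N3 ∨ (σ (σ t * t⁻¹) * (σ t * t⁻¹)⁻¹)⁻¹ * a ∈ N3 ∨
        ((σ (σ t * t⁻¹) * (σ t * t⁻¹)⁻¹) * (σ (σ t * t⁻¹) * (σ t * t⁻¹)⁻¹))⁻¹ * a ∈ N3) ∧
      (∀ a, a * a * a ∈ N2) ∧ (∀ a ∈ N1, a * a * a ∈ N3) ∧
      t ∉ N1 ∧ σ t * t⁻¹ ∉ N2 ∧ σ (σ t * t⁻¹) * (σ t * t⁻¹)⁻¹ ∉ N3 := by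
  haveI : Fact (Nat.Prime 3) := ⟨Nat.prime_three⟩
  let φ : M →* M :=
    { toFun := fun a => σ a * a⁻¹
      map_one' := by simp
      map_mul' := fun a b => by rw [map_mul, mul_inv]; exact mul_mul_mul_comm _ _ _ _ }
  have hφ : ∀ a, φ a = σ a * a⁻¹ := fun a => rfl
  have hker : ∀ a, a ∈ φ.ker ↔ σ a = a := by
    intro a
    rw [MonoidHom.mem_ker, hφ, mul_inv_eq_one]
  have hkc' : Nat.card φ.ker ∣ 3 := by
    convert hC using 1
    exact Nat.card_congr (Equiv.subtypeEquivRight hker)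
  have key : ∀ x y : M, x⁻¹ * y⁻¹ * x⁻¹ * (x * y⁻¹)⁻¹ = x⁻¹ * x⁻¹ * x⁻¹ := by
    intro x y
    have h : ∀ X Y : Additive M, -X + -Y + -X + -(X + -Y) = -X + -X + -X := by
      intro X Y; abel
    exact h (Additive.ofMul x) (Additive.ofMul y)
  have hφφ : ∀ a, φ (φ (σ (σ a⁻¹))) = a * a * a := by
    intro a
    have h1 : ∀ b, σ (σ b) = (σ b)⁻¹ * b⁻¹ := by
      intro b
      rw [← mul_inv, eq_inv_iff_mul_eq_one, mul_comm, mul_comm (σ b) b]
      exact hn b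
    have h2 : ∀ b, φ (φ b) = (σ b)⁻¹ * (σ b)⁻¹ * (σ b)⁻¹ := by
      intro b
      rw [hφ, hφ, map_mul, map_inv, h1 b]
      exact key _ _
    rw [h2, hσ, inv_inv]
  -- stability under σ
  have hstab : ∀ N N' : Subgroup M, N' ≤ N → N' = N.map φ → ∀ a ∈ N, σ a ∈ N := by
    intro N N' hle hN' a ha
    have h1 : φ a ∈ N := hle (by rw [hN']; exact Subgroup.mem_map_of_mem φ ha)
    have h2 := N.mul_mem h1 ha
    rw [hφ, inv_mul_cancel_right] at h2
    exact h2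
  -- every nontrivial stable subgroup contains a nontrivial element of the kernel
  have hCN0 : ∀ N : Subgroup M, (∀ a ∈ N, σ a ∈ N) → N ≠ ⊥ → ∃ c ∈ N, c ≠ 1 ∧ φ c = 1 := by
    intro N hN hne
    have hcN : Nat.card N ≠ 1 := fun h => hne (Subgroup.card_eq_one.1 h)
    obtain ⟨k, hk⟩ := (IsPGroup.iff_card (p := 3) (G := N)).1 (hp.to_subgroup N)
    have h3 : 3 ∣ Nat.card N := by
      rw [hk]
      refine dvd_pow_self 3 ?_
      rintro rfl
      exact hcN (by simpa using hk)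
    obtain ⟨x, hx⟩ := exists_prime_orderOf_dvd_card' 3 h3
    have hx3 : (x : M) * x * x = 1 := by
      have := pow_orderOf_eq_one x
      rw [hx, pow_three] at this
      have h4 := congrArg (Subtype.val) this
      simpa [mul_assoc] using h4
    have hx1 : (x : M) ≠ 1 := by
      intro h
      have : x = 1 := Subtype.ext h
      rw [this, orderOf_one] at hx
      omega
    have hNφ : ∀ a ∈ N, φ a ∈ N := fun a ha => N.mul_mem (hN a ha) (N.inv_mem ha)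
    obtain ⟨b, hbN, hb1, hb2⟩ : ∃ b ∈ N, b ≠ 1 ∧ φ (φ b) = 1 := by
      refine ⟨σ (σ (x : M)⁻¹), hN _ (hN _ (N.inv_mem x.2)), ?_, ?_⟩
      · intro h
        have := hσ (x : M)⁻¹
        rw [h, map_one] at this
        exact hx1 (inv_eq_one.1 this.symm)
      · rw [hφφ]; exact hx3
    by_cases h : φ b = 1
    · exact ⟨b, hbN, hb1, h⟩
    · exact ⟨φ b, hNφ b hbN, h, hb2⟩
  have hkc : Nat.card φ.ker = 3 := by
    rcases (Nat.dvd_prime Nat.prime_three).1 hkc' with h | h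
    · exfalso
      obtain ⟨c, -, hc1, hc2⟩ := hCN0 ⊤ (fun _ _ => trivial) (by
        intro h
        have := Subgroup.card_top (G := M)
        rw [h, Subgroup.card_bot] at this
        omega)
      have h5 := Subgroup.card_eq_one.1 h
      have : c ∈ φ.ker := hc2
      rw [h5, Subgroup.mem_bot] at this
      exact hc1 this
    · exact h
  -- the kernel is contained in every nontrivial stable subgroup
  have hCN : ∀ N : Subgroup M, (∀ a ∈ N, σ a ∈ N) → N ≠ ⊥ → φ.ker ≤ N := by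
    intro N hN hne
    obtain ⟨c, hcN, hc1, hcφ⟩ := hCN0 N hN hne
    -- `c` generates the kernel
    intro y hy
    have := mem_zpowers_of_prime_card (G := φ.ker) (g := ⟨c, hcφ⟩) (g' := ⟨y, hy⟩) hkc
      (fun h => hc1 (congrArg Subtype.val h))
    obtain ⟨n, hn⟩ := Subgroup.mem_zpowers_iff.1 this
    have h5 : c ^ n = y := congrArg Subtype.val hn
    rw [← h5]
    exact N.zpow_mem hcN n
  -- cardinalities
  have hcard : ∀ N : Subgroup M, φ.ker ≤ N → Nat.card N = 3 * Nat.card (N.map φ) := by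
    intro N hN
    rw [← Subgroup.relIndex_ker, ← hkc]
    rw [← Subgroup.relIndex_bot_left, ← Subgroup.relIndex_bot_left]
    exact (Subgroup.relIndex_mul_relIndex _ _ _ bot_le hN).symm
  have hne_of : ∀ N : Subgroup M, 1 < Nat.card N → N ≠ ⊥ := by
    rintro N h rfl
    simp at h
  obtain ⟨N1, hN1⟩ : ∃ N, N = (⊤ : Subgroup M).map φ := ⟨_, rfl⟩
  obtain ⟨N2, hN2⟩ : ∃ N, N = N1.map φ := ⟨_, rfl⟩
  obtain ⟨N3, hN3⟩ : ∃ N, N = N2.map φ := ⟨_, rfl⟩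
  have hN21 : N2 ≤ N1 := by rw [hN2, hN1]; exact Subgroup.map_mono le_top
  have hN32 : N3 ≤ N2 :=
    calc N3 = N2.map φ := hN3
      _ ≤ N1.map φ := Subgroup.map_mono hN21
      _ = N2 := hN2.symm
  have hc0 : Nat.card M = 3 * Nat.card N1 := by
    rw [hN1, ← hcard ⊤ le_top, Subgroup.card_top]
  have hkN1 : φ.ker ≤ N1 := hCN N1 (hstab N1 N2 hN21 hN2) (hne_of _ (by omega))
  have hc1 : Nat.card N1 = 3 * Nat.card N2 := by rw [hN2]; exact hcard N1 hkN1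
  have hkN2 : φ.ker ≤ N2 := hCN N2 (hstab N2 N3 hN32 hN3) (hne_of _ (by omega))
  have hc2 : Nat.card N2 = 3 * Nat.card N3 := by rw [hN3]; exact hcard N2 hkN2
  have hidx : ∀ H K : Subgroup M, H ≤ K → Nat.card K = 3 * Nat.card H → H.relIndex K = 3 := by
    intro H K hHK hc
    have h1 := Subgroup.relIndex_mul_relIndex ⊥ H K bot_le hHK
    rw [Subgroup.relIndex_bot_left, Subgroup.relIndex_bot_left, hc, mul_comm 3] at h1
    have hpos : 0 < Nat.card H := Nat.card_pos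
    exact Nat.eq_of_mul_eq_mul_left hpos h1
  obtain ⟨t, ht⟩ : ∃ t, t ∉ N1 := by
    by_contra h
    push Not at h
    have : N1 = ⊤ := by rw [eq_top_iff]; exact fun a _ => h a
    rw [this, Subgroup.card_top] at hc0
    omega
  have hφinj : ∀ (H K : Subgroup M), φ.ker ≤ H → ∀ x, x ∉ H → φ x ∉ H.map φ := by
    intro H K hH x hx h
    obtain ⟨b, hb, hbx⟩ := Subgroup.mem_map.1 h
    have : x * b⁻¹ ∈ φ.ker := by rw [MonoidHom.mem_ker, map_mul, map_inv, hbx, mul_inv_cancel]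
    have h2 := H.mul_mem (hH this) hb
    rw [inv_mul_cancel_right] at h2
    exact hx h2
  have ht1 : φ t ∉ N2 := by rw [hN2]; exact hφinj N1 N1 hkN1 t ht
  have ht2 : φ (φ t) ∉ N3 := by rw [hN3]; exact hφinj N2 N2 hkN2 _ ht1
  have hφt : φ t ∈ N1 := by rw [hN1]; exact Subgroup.mem_map_of_mem φ trivial
  have hφφt : φ (φ t) ∈ N2 := by rw [hN2]; exact Subgroup.mem_map_of_mem φ hφt
  refine ⟨N1, N2, N3, t, hN21, hN32, ?_, ?_, ?_, ?_, ?_, ?_, ?_, ?_, ht, ht1, ht2⟩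
  · intro a; rw [hN1]; exact Subgroup.mem_map_of_mem φ trivial
  · intro a ha; rw [hN2]; exact Subgroup.mem_map_of_mem φ ha
  · intro a ha; rw [hN3]; exact Subgroup.mem_map_of_mem φ ha
  · intro a
    exact gen_of_relIndex le_top (hidx N1 ⊤ le_top (by rw [Subgroup.card_top]; exact hc0)) trivial
      ht a trivial
  · exact gen_of_relIndex hN21 (hidx N2 N1 hN21 hc1) hφt ht1
  · exact gen_of_relIndex hN32 (hidx N3 N2 hN32 hc2) hφφt ht2
  · intro a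
    rw [← hφφ, hN2, hN1]
    exact Subgroup.mem_map_of_mem φ (Subgroup.mem_map_of_mem φ trivial)
  · intro a ha
    rw [← hφφ, hN3, hN2]
    have hs := hstab N1 N2 hN21 hN2
    exact Subgroup.mem_map_of_mem φ (Subgroup.mem_map_of_mem φ (hs _ (hs _ (N1.inv_mem ha))))

end comm

theorem exists_tower {G : Type*} [Group G] [Finite G] {A : Subgroup G} {g : G}
    (hcomm : ∀ a ∈ A, ∀ b ∈ A, a * b = b * a) (hg3 : g * g * g = 1)
    (hn : ∀ a ∈ A, a * (g * a * g⁻¹) * (g * (g * a * g⁻¹) * g⁻¹) = 1)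
    (hgA : ∀ a ∈ A, g * a * g⁻¹ ∈ A)
    (hC : Nat.card {a : G // a ∈ A ∧ g * a = a * g} ∣ 3) (hp : IsPGroup 3 A)
    (h27 : 27 ≤ Nat.card A) :
    ∃ (A1 A2 A3 : Subgroup G) (t t1 t2 : G), Tower A A1 A2 A3 g t t1 t2 := by
  letI : CommGroup A :=
    { (inferInstance : Group A) with
      mul_comm := fun a b => Subtype.ext (hcomm a a.2 b b.2) }
  let σ : A →* A :=
    { toFun := fun a => ⟨g * a * g⁻¹, hgA a a.2⟩
      map_one' := Subtype.ext (by simp)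
      map_mul' := fun a b => Subtype.ext (by simp [mul_assoc]) }
  have hσ : ∀ a : A, ((σ a : A) : G) = g * a * g⁻¹ := fun a => rfl
  have hσ3 : ∀ a, σ (σ (σ a)) = a := by
    intro a
    apply Subtype.ext
    rw [hσ, hσ, hσ]
    calc g * (g * (g * (a : G) * g⁻¹) * g⁻¹) * g⁻¹ = (g * g * g) * a * (g * g * g)⁻¹ := by group
      _ = a := by rw [hg3]; simp
  obtain ⟨N1, N2, N3, t, h21, h32, p1, p2, p3, g0, g1, g2, c0, c1, nt, nt1, nt2⟩ :=
    abstract_tower σ hσ3 (fun a => Subtype.ext (hn a a.2)) (by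
      convert hC using 1
      refine Nat.card_congr
        { toFun := fun a => ⟨(a.1 : G), a.1.2, ?_⟩
          invFun := fun a => ⟨⟨a.1, a.2.1⟩, ?_⟩
          left_inv := fun a => rfl
          right_inv := fun a => rfl }
      · have := congrArg Subtype.val a.2
        rw [hσ] at this
        rw [mul_inv_eq_iff_eq_mul] at this
        exact this
      · apply Subtype.ext
        rw [hσ, mul_inv_eq_iff_eq_mul]
        exact a.2.2) hp h27
  have hmem : ∀ (N : Subgroup A) (x : G), x ∈ N.map A.subtype ↔ ∃ h : x ∈ A, (⟨x, h⟩ : A) ∈ N := by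
    intro N x
    constructor
    · intro h
      obtain ⟨y, hy, rfl⟩ := Subgroup.mem_map.1 h
      exact ⟨y.2, hy⟩
    · rintro ⟨h, h'⟩
      exact Subgroup.mem_map.2 ⟨⟨x, h⟩, h', rfl⟩
  refine ⟨N1.map A.subtype, N2.map A.subtype, N3.map A.subtype, t, g * t * g⁻¹ * (t : G)⁻¹,
    g * (g * t * g⁻¹ * (t : G)⁻¹) * g⁻¹ * (g * t * g⁻¹ * (t : G)⁻¹)⁻¹, ?_⟩
  refine
    { le1 := Subgroup.map_subtype_le _
      le2 := Subgroup.map_mono h21
      le3 := Subgroup.map_mono h32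
      comm := hcomm
      g3 := hg3
      nrm := hn
      ph1 := ?_
      ph2 := ?_
      ph3 := ?_
      t_mem := t.2
      t1_eq := rfl
      t2_eq := rfl
      gen := ?_
      gen1 := ?_
      gen2 := ?_
      cube := ?_
      cube1 := ?_
      nt := ?_
      nt1 := ?_
      nt2 := ?_ }
  · intro a ha
    exact (hmem _ _).2 ⟨_, p1 ⟨a, ha⟩⟩
  · intro a ha
    obtain ⟨h, h'⟩ := (hmem _ _).1 ha
    exact (hmem _ _).2 ⟨_, p2 _ h'⟩
  · intro a ha
    obtain ⟨h, h'⟩ := (hmem _ _).1 ha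
    exact (hmem _ _).2 ⟨_, p3 _ h'⟩
  · intro a ha
    rcases g0 ⟨a, ha⟩ with h | h | h
    · exact Or.inl ((hmem _ _).2 ⟨_, h⟩)
    · exact Or.inr (Or.inl ((hmem _ _).2 ⟨_, h⟩))
    · exact Or.inr (Or.inr ((hmem _ _).2 ⟨_, h⟩))
  · intro a ha
    obtain ⟨h, h'⟩ := (hmem _ _).1 ha
    rcases g1 _ h' with h | h | h
    · exact Or.inl ((hmem _ _).2 ⟨_, h⟩)
    · exact Or.inr (Or.inl ((hmem _ _).2 ⟨_, h⟩))
    · exact Or.inr (Or.inr ((hmem _ _).2 ⟨_, h⟩))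
  · intro a ha
    obtain ⟨h, h'⟩ := (hmem _ _).1 ha
    rcases g2 _ h' with h | h | h
    · exact Or.inl ((hmem _ _).2 ⟨_, h⟩)
    · exact Or.inr (Or.inl ((hmem _ _).2 ⟨_, h⟩))
    · exact Or.inr (Or.inr ((hmem _ _).2 ⟨_, h⟩))
  · intro a ha
    exact (hmem _ _).2 ⟨_, c0 ⟨a, ha⟩⟩
  · intro a ha
    obtain ⟨h, h'⟩ := (hmem _ _).1 ha
    exact (hmem _ _).2 ⟨_, c1 _ h'⟩
  · intro h
    obtain ⟨_, h'⟩ := (hmem _ _).1 h
    exact nt h'
  · intro h
    obtain ⟨_, h'⟩ := (hmem _ _).1 h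
    exact nt1 h'
  · intro h
    obtain ⟨_, h'⟩ := (hmem _ _).1 h
    exact nt2 h'

end Pool.Agent.Lib.MP_d1e4d8_al
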