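import Pool.Agent.Lib.MP_d1e4d8_al.PartB
import Pool.Agent.Lib.MP_d1e4d8_al.Defs

/-!
# The action on the endomorphism algebra and relative projectivity (for MP_d1e4d8_al)
-/

set_option autoImplicit false
set_option linter.style.haveILetI false
set_option linter.unusedSectionVars false

namespace Pool.Agent.Lib.MP_d1e4d8_al

universe u v

variable {F : Type u} [Field F] {G : Type v} [Group G] {V : Type u} [AddCommGroup V] [Module F V]

/-- The conjugation action of `G` on `End_F V`. -/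
@[reducible] def endAct (ρ : Representation F G V) : MulSemiringAction G (Module.End F V) where
  smul g x := ρ g * x * ρ g⁻¹
  one_smul x := by
    change ρ 1 * x * ρ 1⁻¹ = x
    rw [inv_one, map_one, one_mul, mul_one]
  mul_smul g h x := by
    change ρ (g * h) * x * ρ (g * h)⁻¹ = ρ g * (ρ h * x * ρ h⁻¹) * ρ g⁻¹
    rw [mul_inv_rev, map_mul, map_mul]; noncomm_ring
  smul_zero g := by
    change ρ g * 0 * ρ g⁻¹ = 0
    simp
  smul_add g x y := by
    change ρ g * (x + y) * ρ g⁻¹ = ρ g * x * ρ g⁻¹ + ρ g * y * ρ g⁻¹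
    noncomm_ring
  smul_one g := by
    change ρ g * 1 * ρ g⁻¹ = 1
    rw [mul_one, ← map_mul, mul_inv_cancel, map_one]
  smul_mul g x y := by
    change ρ g * (x * y) * ρ g⁻¹ = (ρ g * x * ρ g⁻¹) * (ρ g * y * ρ g⁻¹)
    have : ρ g⁻¹ * ρ g = 1 := by rw [← map_mul, inv_mul_cancel, map_one]
    calc ρ g * (x * y) * ρ g⁻¹ = ρ g * x * 1 * y * ρ g⁻¹ := by noncomm_ring
      _ = _ := by rw [← this]; noncomm_ring

theorem endAct_comm (ρ : Representation F G V) :
    letI := endAct ρ
    SMulCommClass G F (Module.End F V) := by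
  letI := endAct ρ
  refine ⟨fun g c x => ?_⟩
  change ρ g * (c • x) * ρ g⁻¹ = c • (ρ g * x * ρ g⁻¹)
  rw [mul_smul_comm, smul_mul_assoc]

/-- Schur's lemma. -/
theorem schur_end [IsAlgClosed F] [Module.Finite F V] (ρ : Representation F G V)
    [ρ.IsIrreducible] (x : Module.End F V) (hx : ∀ g : G, ρ g * x * ρ g⁻¹ = x) :
    ∃ c : F, x = algebraMap F (Module.End F V) c := by
  have h1 : ∀ g, x ∘ₗ ρ g = ρ g ∘ₗ x := by
    intro g
    have := hx g
    have h2 : ρ g⁻¹ * ρ g = 1 := by rw [← map_mul, inv_mul_cancel, map_one]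
    calc x * ρ g = (ρ g * x * ρ g⁻¹) * ρ g := by rw [this]
      _ = ρ g * x * (ρ g⁻¹ * ρ g) := by noncomm_ring
      _ = ρ g * x := by rw [h2, mul_one]
  let X : ρ.IntertwiningMap ρ := ⟨x, h1⟩
  obtain ⟨c, hc⟩ :=
    (Representation.IsIrreducible.algebraMap_intertwiningMap_bijective_of_isAlgClosed
      (ρ := ρ)).2 X
  refine ⟨c, ?_⟩
  have := congrArg Representation.IntertwiningMap.toLinearMap hc
  change _ = x at this
  rw [← this]
  rfl

/-- Higman's criterion, one direction: a trace expression for `1` gives relative projectivity. -/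
theorem relProj_of_trace [Finite G] [Module.Finite F V] (ρ : Representation F G V) (H : Subgroup G)
    (y : Module.End F V) (hy : ∀ h ∈ H, ρ h * y * ρ h⁻¹ = y)
    (h1 : ∑ᶠ q : G ⧸ H, ρ q.out * y * ρ (q.out)⁻¹ = 1) : RelProj H ρ := by
  haveI : Fintype (G ⧸ H) := Fintype.ofFinite _
  rw [finsum_eq_sum_of_fintype] at h1
  have hyH : ∀ h ∈ H, ∀ v, y (ρ h v) = ρ h (y v) := by
    intro h hh v
    have h2 : ρ h⁻¹ * ρ h = 1 := by rw [← map_mul, inv_mul_cancel, map_one]
    have : y * ρ h = ρ h * y := by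
      calc y * ρ h = (ρ h * y * ρ h⁻¹) * ρ h := by rw [hy h hh]
        _ = ρ h * y * (ρ h⁻¹ * ρ h) := by noncomm_ring
        _ = ρ h * y := by rw [h2, mul_one]
    exact congrArg (fun f : Module.End F V => f v) this
  refine ⟨V, inferInstance, inferInstance, inferInstance, ρ.comp H.subtype, ?_, ?_, ?_⟩
  · -- the inclusion
    refine ⟨{ toFun := fun v => ⟨fun x => y (ρ x v), ?_⟩
              map_add' := fun a b => ?_
              map_smul' := fun c a => ?_ }, fun g => ?_⟩
    · intro h x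
      change y (ρ ((h : G) * x) v) = ρ h (y (ρ x v))
      rw [map_mul, ← hyH h h.2]; rfl
    · apply Subtype.ext; funext x
      change y (ρ x (a + b)) = y (ρ x a) + y (ρ x b)
      rw [map_add, map_add]
    · apply Subtype.ext; funext x
      change y (ρ x (c • a)) = c • y (ρ x a)
      rw [map_smul, map_smul]
    · apply LinearMap.ext; intro v
      apply Subtype.ext; funext x
      change y (ρ x (ρ g v)) = y (ρ (x * g) v)
      rw [map_mul]; rfl
  · -- the projection
    refine ⟨{ toFun := fun f => ∑ q : G ⧸ H, ρ q.out (f.1 (q.out)⁻¹)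
              map_add' := fun a b => ?_
              map_smul' := fun c a => ?_ }, fun g => ?_⟩
    · rw [← Finset.sum_add_distrib]
      refine Finset.sum_congr rfl fun q _ => ?_
      change ρ q.out (a.1 (q.out)⁻¹ + b.1 (q.out)⁻¹) = _
      rw [map_add]
    · rw [RingHom.id_apply, Finset.smul_sum]
      refine Finset.sum_congr rfl fun q _ => ?_
      change ρ q.out (c • a.1 (q.out)⁻¹) = _
      rw [map_smul]
    · apply LinearMap.ext
      intro f
      change ∑ q : G ⧸ H, ρ q.out (f.1 ((q.out)⁻¹ * g)) = ρ g (∑ q : G ⧸ H, ρ q.out (f.1 (q.out)⁻¹))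
      rw [map_sum]
      have hf : ∀ (h : H) (x : G), f.1 ((h : G) * x) = ρ h (f.1 x) := f.2
      -- a function on cosets
      have hinv : ∀ (x : G), ρ x (f.1 x⁻¹) = ρ ((x : G ⧸ H).out) (f.1 ((x : G ⧸ H).out)⁻¹) := by
        intro x
        obtain ⟨h, hh⟩ := QuotientGroup.mk_out_eq_mul H x
        rw [hh, mul_inv_rev]
        have h3 := hf h⁻¹ x⁻¹
        rw [show ((h : G)⁻¹ * x⁻¹) = ((h⁻¹ : H) : G) * x⁻¹ from rfl, h3, map_mul]
        change _ = ρ x (ρ h (ρ ((h⁻¹ : H) : G) (f.1 x⁻¹)))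
        rw [show ρ (h : G) (ρ ((h⁻¹ : H) : G) (f.1 x⁻¹)) = (ρ (h : G) * ρ ((h : G)⁻¹)) (f.1 x⁻¹)
          from rfl, ← map_mul, mul_inv_cancel, map_one]
        rfl
      symm
      refine Fintype.sum_equiv (MulAction.toPerm g : Equiv.Perm (G ⧸ H)) _ _ fun q => ?_
      change ρ g (ρ q.out (f.1 (q.out)⁻¹)) = ρ (g • q).out (f.1 (((g • q).out)⁻¹ * g))
      have h5 : (g • q) = ((g * q.out : G) : G ⧸ H) := by
        conv_lhs => rw [← QuotientGroup.out_eq' q]
        rfl
      obtain ⟨h, hh⟩ := QuotientGroup.mk_out_eq_mul H (g * q.out)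
      rw [← h5] at hh
      rw [hh]
      have e : (g * q.out * (h : G))⁻¹ * g = ((h⁻¹ : H) : G) * (q.out)⁻¹ := by
        rw [Subgroup.coe_inv]; group
      rw [e, hf, map_mul, map_mul]
      change _ = ρ g (ρ q.out (ρ h (ρ ((h⁻¹ : H) : G) (f.1 (q.out)⁻¹))))
      rw [show ρ (h : G) (ρ ((h⁻¹ : H) : G) (f.1 (q.out)⁻¹)) =
        (ρ (h : G) * ρ ((h : G)⁻¹)) (f.1 (q.out)⁻¹)
          from rfl, ← map_mul, mul_inv_cancel, map_one]
      rfl
  · intro v
    change ∑ q : G ⧸ H, ρ q.out (y (ρ (q.out)⁻¹ v)) = v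
    have := congrArg (fun f : Module.End F V => f v) h1
    simp only [LinearMap.sum_apply] at this
    exact this

end Pool.Agent.Lib.MP_d1e4d8_al
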