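import Pool.Agent.Lib.MP_d1e4d8_al.Trace

/-!
# The elements `η`, `θ`, `u` (for MP_d1e4d8_al)
-/

set_option autoImplicit false
set_option linter.style.haveILetI false
set_option linter.unusedSectionVars false

namespace Pool.Agent.Lib.MP_d1e4d8_al

variable {G : Type*} [Group G] {B : Type*} [Ring B] [MulSemiringAction G B]

theorem inv_shift {t : G} {y c : B} (h : t • y = y + c) (hc : t • c = c) : t⁻¹ • y = y - c := by
  have h1 : t⁻¹ • (t • y) = y := inv_smul_smul t y
  have h2 : t⁻¹ • c = c := by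
    conv_lhs => rw [← hc]
    exact inv_smul_smul t c
  rw [h, smul_add, h2] at h1
  exact eq_sub_of_add_eq h1

theorem smul_int_one (t : G) : t • (1 : B) = 1 := smul_one t

/-- The data which is common to the two levels of the argument. -/
structure Lev (B : Type*) [Ring B] [MulSemiringAction G B] (M : Subgroup G) (g t t1 s : G) : Prop
    where
  g3 : g * g * g = 1
  Mg : ∀ x ∈ M, g⁻¹ * x * g ∈ M
  Mt : ∀ x ∈ M, x * t = t * x
  Mt1 : ∀ x ∈ M, x * t1 = t1 * x
  gt : g * t = t1 * t * g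
  gt1 : g * t1 = s * t1 * g
  s_mem : s ∈ M
  tt1 : t * t1 = t1 * t
  t1_3 : t1 * t1 * t1 ∈ M

namespace Lev

variable {M : Subgroup G} {g t t1 s : G}

theorem fg (L : Lev B M g t t1 s) {x : B} (hx : Fixed M x) : Fixed M (g • x) := by
  intro a ha
  rw [smul_smul, show a * g = g * (g⁻¹ * a * g) by group, mul_smul, hx _ (L.Mg a ha)]

theorem ft (L : Lev B M g t t1 s) {x : B} (hx : Fixed M x) : Fixed M (t • x) := by
  intro a ha
  rw [smul_smul, L.Mt a ha, mul_smul, hx a ha]

theorem ft1 (L : Lev B M g t t1 s) {x : B} (hx : Fixed M x) : Fixed M (t1 • x) := by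
  intro a ha
  rw [smul_smul, L.Mt1 a ha, mul_smul, hx a ha]

theorem tg (L : Lev B M g t t1 s) (x : B) : t • g • x = t1⁻¹ • g • t • x := by
  rw [smul_smul, smul_smul g, L.gt, mul_assoc, mul_smul t1, inv_smul_smul]

theorem t1g (L : Lev B M g t t1 s) (x : B) : t1 • g • x = s⁻¹ • g • t1 • x := by
  rw [smul_smul, smul_smul g, L.gt1, mul_assoc, mul_smul s, inv_smul_smul]

theorem gtx (L : Lev B M g t t1 s) (x : B) : g • t • x = t1 • t • g • x := by
  rw [smul_smul, L.gt, mul_smul, mul_smul]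

theorem gt1x (L : Lev B M g t t1 s) (x : B) : g • t1 • x = s • t1 • g • x := by
  rw [smul_smul, L.gt1, mul_smul, mul_smul]

theorem tt (L : Lev B M g t t1 s) (x : B) : t • t1 • x = t1 • t • x := by
  rw [smul_smul, L.tt1, mul_smul]

theorem ggg (L : Lev B M g t t1 s) (x : B) : g • g • g • x = x := by
  rw [smul_smul, smul_smul, L.g3, one_smul]

theorem ttt (L : Lev B M g t t1 s) {x : B} (hx : Fixed M x) : t1 • t1 • t1 • x = x := by
  rw [smul_smul, smul_smul, hx _ L.t1_3]

theorem s_fix (L : Lev B M g t t1 s) {x : B} (hx : Fixed M x) : s • x = x := hx _ L.s_mem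

theorem sinv_fix (L : Lev B M g t t1 s) {x : B} (hx : Fixed M x) : s⁻¹ • x = x :=
  hx _ (M.inv_mem L.s_mem)

/-- properties of `η` with `t • η = η`, `t1 • η = η - c` -/
theorem main (L : Lev B M g t t1 s) (h3 : ∀ x : B, x + x + x = 0) {η c : B}
    (hη : Fixed M η) (hc : Fixed M c) (_htc : t • c = c) (ht1c : t1 • c = c) (hgc : g • c = c)
    (htη : t • η = η) (ht1η : t1 • η = η - c) :
    Fixed M (g • η - η) ∧ t1 • (g • η - η) = g • η - η ∧ t • (g • η - η) = (g • η - η) + c ∧
    (η + g • η + g • g • η) = g • (g • η - η) - (g • η - η) ∧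
    Fixed M (η + g • η + g • g • η) ∧ t1 • (η + g • η + g • g • η) = η + g • η + g • g • η ∧
    t • (η + g • η + g • g • η) = η + g • η + g • g • η ∧
    g • (η + g • η + g • g • η) = η + g • η + g • g • η := by
  have hgη := L.fg hη
  have a1 : t1 • g • η = g • η - c := by
    rw [L.t1g, ht1η, smul_sub, hgc, L.sinv_fix (hgη.sub hc)]
  have a2 : t1⁻¹ • g • η = g • η + c := by
    have := inv_shift (c := -c) (by rw [a1]; abel : t1 • g • η = g • η + -c)
      (by rw [smul_neg, ht1c])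
    rw [this]; abel
  have a3 : t • g • η = g • η + c := by
    rw [L.tg, htη, a2]
  have hθ : Fixed M (g • η - η) := hgη.sub hη
  have hθ1 : t1 • (g • η - η) = g • η - η := by
    rw [smul_sub, a1, ht1η]; abel
  have hθt : t • (g • η - η) = (g • η - η) + c := by
    rw [smul_sub, a3, htη]; abel
  have hu : (η + g • η + g • g • η) = g • (g • η - η) - (g • η - η) := by
    have := h3 (g • η)
    calc (η + g • η + g • g • η) = g • g • η + η - (g • η + g • η) + (g • η + g • η + g • η) := by abel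
      _ = g • (g • η - η) - (g • η - η) := by rw [this, smul_sub]; abel
  refine ⟨hθ, hθ1, hθt, hu, (hη.add hgη).add (L.fg hgη), ?_, ?_, ?_⟩
  · rw [hu, smul_sub, hθ1, L.t1g, hθ1, L.sinv_fix (L.fg hθ)]
  · have b1 : t1 • g • (g • η - η) = g • (g • η - η) := by
      rw [L.t1g, hθ1, L.sinv_fix (L.fg hθ)]
    have b2 : t1⁻¹ • g • (g • η - η) = g • (g • η - η) := by
      conv_lhs => rw [← b1]
      exact inv_smul_smul _ _
    have ht1c' : t1⁻¹ • c = c := by
      conv_lhs => rw [← ht1c]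
      exact inv_smul_smul _ _
    rw [hu, smul_sub, hθt, L.tg, hθt, smul_add g, smul_add t1⁻¹, b2, hgc, ht1c']
    abel
  · rw [smul_add, smul_add, L.ggg]; abel

/-- existence of `η` -/
theorem exists_eta (L : Lev B M g t t1 s) (h3 : ∀ x : B, x + x + x = 0) {h c : B}
    (hh : Fixed M h) (hc : h + t1 • h + t1 • t1 • h = c) :
    Fixed M (t1 • h - t1 • t1 • h) ∧
    t1 • (t1 • h - t1 • t1 • h) = (t1 • h - t1 • t1 • h) - c := by
  refine ⟨(L.ft1 hh).sub (L.ft1 (L.ft1 hh)), ?_⟩
  rw [smul_sub, L.ttt hh, ← hc]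
  have := h3 (t1 • t1 • h)
  calc t1 • t1 • h - h = t1 • h - t1 • t1 • h - (h + t1 • h + t1 • t1 • h) +
        (t1 • t1 • h + t1 • t1 • h + t1 • t1 • h) := by abel
    _ = _ := by rw [this]; abel

end Lev

end Pool.Agent.Lib.MP_d1e4d8_al
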