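import Pool.Agent.Lib.MP_d1e4d8_al.Core

/-!
# Existence of the ideal `m` (for MP_d1e4d8_al)
-/

set_option autoImplicit false
set_option linter.style.haveILetI false
set_option linter.unusedSectionVars false

namespace Pool.Agent.Lib.MP_d1e4d8_al

theorem exists_maxLike {F : Type*} [Field F] [IsAlgClosed F] {B : Type*} [Ring B] [Algebra F B]
    [Module.Finite F B] (E : Subalgebra F B) (I : AddSubgroup B) (hIE : ∀ x ∈ I, x ∈ E)
    (hl : ∀ e ∈ E, ∀ x ∈ I, e * x ∈ I) (hr : ∀ e ∈ E, ∀ x ∈ I, x * e ∈ I) (h1 : (1 : B) ∉ I) :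
    ∃ m : AddSubgroup B, I ≤ m ∧ MaxLike F (E : Set B) m := by
  -- the left ideal of `E`
  let L0 : Ideal E :=
    { carrier := {x | (x : B) ∈ I}
      add_mem' := fun {a b} ha hb => I.add_mem ha hb
      zero_mem' := I.zero_mem
      smul_mem' := fun c x hx => hl c c.2 x hx }
  have hL0 : L0 ≠ ⊤ := by
    intro h
    have : (1 : E) ∈ L0 := by rw [h]; trivial
    exact h1 this
  obtain ⟨L, hL, hL0L⟩ := Ideal.exists_le_maximal L0 hL0
  have hco : IsCoatom (L : Submodule E E) := Ideal.isMaximal_def.1 hL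
  haveI : IsSimpleModule E (E ⧸ (L : Submodule E E)) := isSimpleModule_iff_isCoatom.2 hco
  haveI : Module.Finite F E := inferInstance
  haveI : Module.Finite F (E ⧸ (L : Submodule E E)) := inferInstance
  let W := E ⧸ (L : Submodule E E)
  haveI hnt : Nontrivial W := IsSimpleModule.nontrivial E W
  let m : AddSubgroup B :=
    { carrier := {x | ∃ hx : x ∈ E, ∀ w : W, (⟨x, hx⟩ : E) • w = 0}
      add_mem' := by
        rintro a b ⟨ha, ha'⟩ ⟨hb, hb'⟩
        refine ⟨E.add_mem ha hb, fun w => ?_⟩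
        have : (⟨a + b, E.add_mem ha hb⟩ : E) = ⟨a, ha⟩ + ⟨b, hb⟩ := rfl
        rw [this, add_smul, ha', hb', add_zero]
      zero_mem' := by
        refine ⟨E.zero_mem, fun w => ?_⟩
        have : (⟨0, E.zero_mem⟩ : E) = 0 := rfl
        rw [this, zero_smul]
      neg_mem' := by
        rintro a ⟨ha, ha'⟩
        refine ⟨E.neg_mem ha, fun w => ?_⟩
        have : (⟨-a, E.neg_mem ha⟩ : E) = -⟨a, ha⟩ := rfl
        rw [this, neg_smul, ha', neg_zero] }
  have hmem : ∀ x : B, x ∈ m ↔ ∃ hx : x ∈ E, ∀ w : W, (⟨x, hx⟩ : E) • w = 0 := fun x => Iff.rfl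
  refine ⟨m, ?_, ?_, ?_, ?_, ?_, ?_⟩
  · intro x hx
    refine ⟨hIE x hx, fun w => ?_⟩
    obtain ⟨e, rfl⟩ := Submodule.Quotient.mk_surjective _ w
    rw [← Submodule.Quotient.mk_smul, Submodule.Quotient.mk_eq_zero]
    refine hL0L ?_
    change x * (e : B) ∈ I
    exact hr e e.2 x hx
  · rintro ⟨hx, hx'⟩
    obtain ⟨w, hw⟩ := exists_ne (0 : W)
    have : (⟨1, hx⟩ : E) = 1 := rfl
    have h2 := hx' w
    rw [this, one_smul] at h2
    exact hw h2
  · rintro e he x ⟨hx, hx'⟩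
    refine ⟨E.mul_mem he hx, fun w => ?_⟩
    have : (⟨e * x, E.mul_mem he hx⟩ : E) = ⟨e, he⟩ * ⟨x, hx⟩ := rfl
    rw [this, mul_smul, hx', smul_zero]
  · rintro e he x ⟨hx, hx'⟩
    refine ⟨E.mul_mem hx he, fun w => ?_⟩
    have : (⟨x * e, E.mul_mem hx he⟩ : E) = ⟨x, hx⟩ * ⟨e, he⟩ := rfl
    rw [this, mul_smul, hx']
  · intro f hf h
    refine ⟨hf, fun w => ?_⟩
    by_contra hne
    obtain ⟨e, he⟩ : ∃ e : E, e • (⟨f, hf⟩ : E) • w = w := by
      have h2 := IsSimpleModule.span_singleton_eq_top E hne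
      have h3 : w ∈ Submodule.span E {(⟨f, hf⟩ : E) • w} := by rw [h2]; trivial
      exact Submodule.mem_span_singleton.1 h3
    obtain ⟨h4, h5⟩ := h e e.2
    have h6 := h5 w
    have : (⟨(e : B) * f * ((e : B) * f), h4⟩ : E) = e * ⟨f, hf⟩ * (e * ⟨f, hf⟩) := rfl
    rw [this, mul_smul, mul_smul, mul_smul, he, he] at h6
    rw [h6, smul_zero] at hne
    exact hne rfl
  · intro z hz h
    let φ : W →ₗ[E] W :=
      { toFun := fun w => (⟨z, hz⟩ : E) • w
        map_add' := fun a b => smul_add _ a b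
        map_smul' := fun f w => by
          obtain ⟨h4, h5⟩ := h f f.2
          have h6 := h5 w
          have : (⟨z * (f : B) - (f : B) * z, h4⟩ : E) = ⟨z, hz⟩ * f - f * ⟨z, hz⟩ := rfl
          rw [this, sub_smul, mul_smul, mul_smul, sub_eq_zero] at h6
          exact h6 }
    obtain ⟨c, hc⟩ := (IsSimpleModule.algebraMap_end_bijective_of_isAlgClosed (A := E) (V := W) F).2 φ
    refine ⟨c, E.sub_mem hz (E.algebraMap_mem c), fun w => ?_⟩
    have h7 : (⟨z - algebraMap F B c, E.sub_mem hz (E.algebraMap_mem c)⟩ : E) =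
      ⟨z, hz⟩ - algebraMap F E c := rfl
    rw [h7, sub_smul, sub_eq_zero]
    have h8 := congrArg (fun ψ => ψ w) hc
    change (algebraMap F (Module.End E W) c) w = (⟨z, hz⟩ : E) • w at h8
    rw [← h8, Module.algebraMap_end_apply, algebraMap_smul]

end Pool.Agent.Lib.MP_d1e4d8_al
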