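import Pool.Agent.Lib.MP_d1e4d8_al.Step

/-!
# A subgroup of order at most 27 (for MP_d1e4d8_al)
-/

set_option autoImplicit false
set_option linter.style.haveILetI false
set_option linter.unusedSectionVars false

namespace Pool.Agent.Lib.MP_d1e4d8_al

universe u

section abstract

variable {F : Type*} [Field F] {G : Type*} [Group G] [Finite G] {B : Type*} [Ring B] [Algebra F B]
  [MulSemiringAction G B] [SMulCommClass G F B]

/-- `1` is a relative trace from `H` to `G`. -/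
def PP (B : Type*) [Ring B] [MulSemiringAction G B] (H : Subgroup G) : Prop :=
  ∃ y : B, Fixed H y ∧ tr H ⊤ y = 1

theorem fixed_bot (x : B) : Fixed (⊥ : Subgroup G) x := by
  intro h hh
  rw [Subgroup.mem_bot.1 hh, one_smul]

theorem fixed_algebraMap (H : Subgroup G) (c : F) : Fixed H (algebraMap F B c) :=
  fun h _ => smul_algebraMap h c

/-- trace of the unit from a subgroup of index prime to `p` -/
theorem exists_tr_of_index {H K : Subgroup G} (hHK : H ≤ K) (h : ((H.relIndex K : ℕ) : F) ≠ 0) :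
    ∃ y : B, Fixed K y ∧ tr H K y = 1 := by
  refine ⟨algebraMap F B ((H.relIndex K : ℕ) : F)⁻¹, fixed_algebraMap _ _, ?_⟩
  rw [tr_fixed hHK (fixed_algebraMap _ _), nsmul_eq_mul]
  rw [← map_natCast (algebraMap F B), ← map_mul, mul_inv_cancel₀ h, map_one]

theorem PP_of_index {H K : Subgroup G} (hHK : H ≤ K) (h : ((H.relIndex K : ℕ) : F) ≠ 0)
    (hK : PP B K) : PP B H := by
  obtain ⟨y, hy, hy1⟩ := hK
  obtain ⟨z, hz, hz1⟩ := exists_tr_of_index (F := F) (B := B) hHK h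
  refine ⟨y * z, (hy.mono hHK).mul (hz.mono hHK), ?_⟩
  rw [← tr_tr hHK le_top ((hy.mono hHK).mul (hz.mono hHK)), ← mul_tr hHK (hz.mono hHK) hy, hz1,
    mul_one, hy1]

theorem PP_trans {H K : Subgroup G} (hHK : H ≤ K) {z : B} (hz : Fixed H z) (hz1 : tr H K z = 1)
    (hK : PP B K) : PP B H := by
  obtain ⟨y, hy, hy1⟩ := hK
  refine ⟨y * z, (hy.mono hHK).mul hz, ?_⟩
  rw [← tr_tr hHK le_top ((hy.mono hHK).mul hz), ← mul_tr hHK hz hy, hz1, mul_one, hy1]

/-- the trace from the trivial subgroup is surjective on smaller subgroups -/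
theorem tr_bot_restrict {H K : Subgroup G} (hHK : H ≤ K) {f : B} (hf : tr ⊥ K f = 1) :
    ∃ f' : B, tr ⊥ H f' = 1 := by
  classical
  haveI : Fintype {q : G ⧸ H // q.out ∈ K} := Fintype.ofFinite _
  haveI : Fintype H := Fintype.ofFinite _
  have hs := isTv_out hHK
  refine ⟨∑ i : {q : G ⧸ H // q.out ∈ K}, (i.1.out)⁻¹ • f, ?_⟩
  have t1 : IsTv (⊥ : Subgroup G) H (fun h : H => (h : G)) :=
    { mem := fun h => h.2
      surj := fun k hk => ⟨⟨k, hk⟩, by simp⟩
      inj := fun i j h => by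
        have := Subgroup.mem_bot.1 h
        exact Subtype.ext (inv_mul_eq_one.1 this) }
  have t2 : IsTv (⊥ : Subgroup G) K
      (fun i : {q : G ⧸ H // q.out ∈ K} × H => ((i.2 : G) * (i.1.1.out)⁻¹)) :=
    { mem := fun i => K.mul_mem (hHK i.2.2) (K.inv_mem i.1.2)
      surj := fun k hk => by
        obtain ⟨i, hi⟩ := hs.surj k⁻¹ (K.inv_mem hk)
        refine ⟨(i, ⟨((i.1.out)⁻¹ * k⁻¹)⁻¹, H.inv_mem hi⟩), ?_⟩
        simp
      inj := fun i j h => by
        have h1 := inv_mul_eq_one.1 (Subgroup.mem_bot.1 h)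
        have h2 : i.1 = j.1 := by
          refine hs.inj _ _ ?_
          have : (i.1.1.out)⁻¹ * j.1.1.out = (i.2 : G)⁻¹ * (j.2 : G) := by
            rw [eq_inv_mul_iff_mul_eq, ← mul_assoc, h1, inv_mul_cancel_right]
          change (i.1.1.out)⁻¹ * j.1.1.out ∈ H
          rw [this]
          exact H.mul_mem (H.inv_mem i.2.2) j.2.2
        have h3 : i.2 = j.2 := by
          have h4 : (i.2 : G) * (i.1.1.out)⁻¹ = (j.2 : G) * (i.1.1.out)⁻¹ := by
            rw [h1, h2]
          exact Subtype.ext (mul_right_cancel h4)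
        exact Prod.ext h2 h3 }
  rw [tr_eq_sum bot_le t1 (fixed_bot _), ← hf, tr_eq_sum bot_le t2 (fixed_bot _)]
  rw [Fintype.sum_prod_type_right]
  refine Finset.sum_congr rfl fun h _ => ?_
  rw [Finset.smul_sum]
  exact Finset.sum_congr rfl fun i _ => by rw [mul_smul]

/-- Main lemma of Part B. -/
theorem partB_abstract [IsAlgClosed F] [CharP F 3] [Module.Finite F B] [Nontrivial B]
    (hSchur : ∀ x : B, Fixed (⊤ : Subgroup G) x → ∃ c : F, x = algebraMap F B c)
    (T N : Subgroup G) (_hTN : T ≤ N) (hidx : ¬ 3 ∣ N.index)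
    (hcomm : ∀ a ∈ T, ∀ b ∈ T, a * b = b * a)
    (hnorm : ∀ g ∈ N, ∀ a ∈ T, g * a * g⁻¹ ∈ T)
    (hN : ∀ g ∈ N, g ∉ T → g * g ∉ T ∧ g * g * g = 1 ∧
        (∀ h ∈ N, h ∈ T ∨ h * g⁻¹ ∈ T ∨ h * (g * g)⁻¹ ∈ T) ∧
        (∀ a ∈ T, a * (g * a * g⁻¹) * (g * (g * a * g⁻¹) * g⁻¹) = 1) ∧
        Nat.card {a : G // a ∈ T ∧ g * a = a * g} = 3)
    {f : B} (hf : tr ⊥ T f = 1) :
    ∃ H : Subgroup G, IsPGroup 3 H ∧ Nat.card H ≤ 27 ∧ PP B H := by
  haveI : Fact (Nat.Prime 3) := ⟨Nat.prime_three⟩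
  have hcast : ∀ n : ℕ, ¬ 3 ∣ n → ((n : ℕ) : F) ≠ 0 := by
    intro n hn h
    exact hn ((CharP.cast_eq_zero_iff F 3 n).1 h)
  have hPN : PP B N := by
    have h1 : N.relIndex ⊤ = N.index := Subgroup.relIndex_top_right N
    obtain ⟨y, hy, hy1⟩ := exists_tr_of_index (F := F) (B := B) (le_top : N ≤ ⊤)
      (by rw [h1]; exact hcast _ hidx)
    exact ⟨y, hy.mono le_top, hy1⟩
  -- a minimal subgroup
  obtain ⟨H, ⟨hHN, hPH⟩, hmin⟩ := (wellFounded_lt (α := Subgroup G)).has_min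
    {H | H ≤ N ∧ PP B H} ⟨N, le_rfl, hPN⟩
  have hmin' : ∀ H' : Subgroup G, H' < H → ¬ PP B H' :=
    fun H' hlt hP => hmin H' ⟨hlt.le.trans hHN, hP⟩ hlt
  -- `H` is a 3-group
  have hp : IsPGroup 3 H := by
    obtain ⟨S⟩ := (inferInstance : Nonempty (Sylow 3 H))
    have h1 : (S.toSubgroup.map H.subtype).relIndex H = S.index := by
      rw [Subgroup.relIndex, Subgroup.subgroupOf, Subgroup.comap_map_eq_self_of_injective]
      exact H.subtype_injective
    have h2 : ¬ 3 ∣ (S.toSubgroup.map H.subtype).relIndex H := by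
      rw [h1]; exact S.not_dvd_index
    have h3 : (S.toSubgroup.map H.subtype) ≤ H := Subgroup.map_subtype_le _
    have h4 := PP_of_index h3 (hcast _ h2) hPH
    have h5 : S.toSubgroup.map H.subtype = H := by
      by_contra hne
      exact hmin' _ (lt_of_le_of_ne h3 hne) h4
    have h6 : IsPGroup 3 (S.toSubgroup.map H.subtype) := S.isPGroup'.map _
    rwa [h5] at h6
  refine ⟨H, hp, ?_, hPH⟩
  by_cases hHT : H ≤ T
  · -- then `H` is trivial
    obtain ⟨f', hf'⟩ := tr_bot_restrict hHT hf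
    have h1 := PP_trans bot_le (fixed_bot f') hf' hPH
    have h2 : H = ⊥ := by
      by_contra hne
      exact hmin' _ (bot_lt_iff_ne_bot.2 hne) h1
    rw [h2, Subgroup.card_bot]; norm_num
  · obtain ⟨g, hgH, hgT⟩ := Set.not_subset.1 hHT
    have hgH' : g ∈ H := hgH
    have hgT' : g ∉ T := hgT
    obtain ⟨hgg, hg3, hcov, hnrm, hC⟩ := hN g (hHN hgH') hgT'
    obtain ⟨A, hA⟩ : ∃ A, A = H ⊓ T := ⟨_, rfl⟩
    have hAH : A ≤ H := by rw [hA]; exact inf_le_left
    have hAT : A ≤ T := by rw [hA]; exact inf_le_right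
    have hgA : ∀ a ∈ A, g * a * g⁻¹ ∈ A := by
      intro a ha
      rw [hA]
      exact ⟨H.mul_mem (H.mul_mem hgH' (hAH ha)) (H.inv_mem hgH'), hnorm g (hHN hgH') a (hAT ha)⟩
    have hcov' : ∀ q ∈ H, q ∈ A ∨ g⁻¹ * q ∈ A ∨ (g * g)⁻¹ * q ∈ A := by
      intro q hq
      rw [hA]
      rcases hcov q (hHN hq) with h | h | h
      · exact Or.inl ⟨hq, h⟩
      · refine Or.inr (Or.inl ⟨H.mul_mem (H.inv_mem hgH') hq, ?_⟩)
        have := hnorm g⁻¹ (N.inv_mem (hHN hgH')) _ h
        have e : g⁻¹ * (q * g⁻¹) * g⁻¹⁻¹ = g⁻¹ * q := by group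
        rwa [e] at this
      · refine Or.inr (Or.inr ⟨H.mul_mem (H.inv_mem (H.mul_mem hgH' hgH')) hq, ?_⟩)
        have := hnorm (g * g)⁻¹ (N.inv_mem (N.mul_mem (hHN hgH') (hHN hgH'))) _ h
        have e : (g * g)⁻¹ * (q * (g * g)⁻¹) * (g * g)⁻¹⁻¹ = (g * g)⁻¹ * q := by group
        rwa [e] at this
    have hgA' : g ∉ A := fun h => hgT' (hAT h)
    have hpA : IsPGroup 3 A := hp.to_le hAH
    by_contra hbig
    push Not at hbig
    -- `|A| ≥ 27`
    have hcard : Nat.card H ≤ 3 * Nat.card A := by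
      let ψ : Fin 3 × A → H := fun i => ⟨g ^ (i.1 : ℕ) * i.2, H.mul_mem (H.pow_mem hgH' _)
        (hAH i.2.2)⟩
      have hψ : Function.Surjective ψ := by
        rintro ⟨q, hq⟩
        rcases hcov' q hq with h | h | h
        · exact ⟨(0, ⟨q, h⟩), Subtype.ext (by simp [ψ])⟩
        · exact ⟨(1, ⟨_, h⟩), Subtype.ext (by simp [ψ])⟩
        · refine ⟨(2, ⟨_, h⟩), Subtype.ext ?_⟩
          change g ^ 2 * ((g * g)⁻¹ * q) = q
          rw [pow_two, mul_inv_cancel_left]
      have h1 := Nat.card_le_card_of_surjective ψ hψ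
      rw [Nat.card_prod, Nat.card_fin] at h1
      exact h1
    obtain ⟨k, hk⟩ := (IsPGroup.iff_card (p := 3) (G := A)).1 hpA
    have hk3 : 3 ≤ k := by
      by_contra h
      have h2 : k ≤ 2 := by omega
      have h3 : 3 ^ k ≤ 3 ^ 2 := Nat.pow_le_pow_right (by norm_num) h2
      omega
    have h27 : 27 ≤ Nat.card A := by
      rw [hk]
      calc 27 = 3 ^ 3 := by norm_num
        _ ≤ 3 ^ k := Nat.pow_le_pow_right (by norm_num) hk3
    have hCA : Nat.card {a : G // a ∈ A ∧ g * a = a * g} ∣ 3 := by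
      rw [← hC]
      have e : ∀ M : Subgroup G, Nat.card {a : G // a ∈ M ∧ g * a = a * g} =
          Nat.card (M ⊓ Subgroup.centralizer {g} : Subgroup G) := by
        intro M
        refine Nat.card_congr (Equiv.subtypeEquivRight fun a => ?_)
        rw [Subgroup.mem_inf, Subgroup.mem_centralizer_singleton_iff]
        constructor
        · rintro ⟨h1, h2⟩; exact ⟨h1, h2.symm⟩
        · rintro ⟨h1, h2⟩; exact ⟨h1, h2.symm⟩
      rw [e, e]
      exact Subgroup.card_dvd_of_le (inf_le_inf_right _ hAT)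
    obtain ⟨A1, A2, A3, t, t1, t2, hT⟩ := exists_tower (A := A) (g := g)
      (fun a ha b hb => hcomm a (hAT ha) b (hAT hb)) hg3 (fun a ha => hnrm a (hAT ha)) hgA hCA hpA
      h27
    obtain ⟨x, hx⟩ := tr_bot_restrict hAT hf
    have hstep := step (F := F) hT hAH hgH' hgA' hcov' hx
    obtain ⟨y, hy, hy1⟩ := hPH
    have hzero : ∀ z ∈ AddSubgroup.closure {y : B | ∃ H' < H, ∃ b, Fixed H' b ∧ y = tr H' H b},
        tr H ⊤ (y * z) = 0 := by
      intro z hz
      have hadd : ∀ a b : B, tr H ⊤ (y * (a + b)) = tr H ⊤ (y * a) + tr H ⊤ (y * b) := by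
        intro a b; rw [mul_add, tr_add]
      have h0 : tr H ⊤ (y * 0) = 0 := by
        have := hadd 0 0
        rw [add_zero] at this
        exact left_eq_add.1 this
      induction hz using AddSubgroup.closure_induction with
      | mem z hz =>
        obtain ⟨H', hH', b, hb, rfl⟩ := hz
        rw [mul_tr hH'.le hb hy, tr_tr hH'.le le_top ((hy.mono hH'.le).mul hb)]
        obtain ⟨c, hc⟩ := hSchur _ (fixed_tr (le_top : H' ≤ ⊤) ((hy.mono hH'.le).mul hb))
        by_cases hc0 : c = 0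
        · rw [hc, hc0, map_zero]
        · exfalso
          refine hmin' H' hH' ⟨algebraMap F B c⁻¹ * (y * b),
            (fixed_algebraMap _ _).mul ((hy.mono hH'.le).mul hb), ?_⟩
          rw [← mul_tr le_top ((hy.mono hH'.le).mul hb) (fixed_algebraMap _ _), hc, ← map_mul,
            inv_mul_cancel₀ hc0, map_one]
      | zero => exact h0
      | add a b _ _ ha hb => rw [hadd, ha, hb, add_zero]
      | neg a _ ha =>
        have := hadd a (-a)
        rw [add_neg_cancel, h0, ha, zero_add] at this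
        exact this.symm
    have h1 := hzero 1 hstep
    rw [mul_one, hy1] at h1
    exact one_ne_zero h1

end abstract

end Pool.Agent.Lib.MP_d1e4d8_al
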