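import Mathlib

/-!
# Shared definitions for the proof of MP_d1e4d8_al (not used in the final statement)
-/

set_option autoImplicit false

namespace Pool.Agent.Lib.MP_d1e4d8_al

open scoped LinearAlgebra.Projectivization MatrixGroups

/-- A finite projective plane (points `P`, lines `L`, incidence `I`) of order `n ≡ 1 mod 3`, `n ≥ 4`,
with a group `G` of collineations, two-transitive on points and on lines, and with for each point
`p` a group `EP p` of elations with centre `p` and for each line `l` a group `EL l` of elations with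
axis `l`. -/
structure PlaneData (G P L : Type*) [Group G] [MulAction G P] [MulAction G L] (I : P → L → Prop)
    (EP : P → Subgroup G) (EL : L → Subgroup G) (n : ℕ) : Prop where
  inv : ∀ (g : G) (p : P) (l : L), I p l → I (g • p) (g • l)
  line : ∀ p p' : P, p ≠ p' → ∃! l : L, I p l ∧ I p' l
  point : ∀ l l' : L, l ≠ l' → ∃! p : P, I p l ∧ I p l'
  four_le : 4 ≤ n
  n_mod : n % 3 = 1
  card_line : ∀ l : L, Nat.card {p : P // I p l} = n + 1
  card_point : ∀ p : P, Nat.card {l : L // I p l} = n + 1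
  card_P : Nat.card P = n ^ 2 + n + 1
  card_L : Nat.card L = n ^ 2 + n + 1
  twoP : ∀ p p' r r' : P, p ≠ p' → r ≠ r' → ∃ g : G, g • p = r ∧ g • p' = r'
  twoL : ∀ p p' r r' : L, p ≠ p' → r ≠ r' → ∃ g : G, g • p = r ∧ g • p' = r'
  EP_card : ∀ p, ¬ (3 ∣ Nat.card (EP p))
  EP_fix : ∀ p, ∀ e ∈ EP p, e • p = p
  EP_fix_line : ∀ p, ∀ e ∈ EP p, ∀ l, I p l → e • l = l
  EP_trans : ∀ p l p' p'', I p l → I p' l → I p'' l → p' ≠ p → p'' ≠ p → ∃ e ∈ EP p, e • p' = p''
  EP_trans_line : ∀ p l l', ¬ I p l → ¬ I p l' → ∃ e ∈ EP p, e • l = l'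
  EL_card : ∀ l, ¬ (3 ∣ Nat.card (EL l))
  EL_fix : ∀ l, ∀ e ∈ EL l, e • l = l
  EL_fix_point : ∀ l, ∀ e ∈ EL l, ∀ p, I p l → e • p = p
  EL_trans : ∀ l p l' l'', I p l → I p l' → I p l'' → l' ≠ l → l'' ≠ l → ∃ e ∈ EL l, e • l' = l''
  EL_trans_point : ∀ l p p', ¬ I p l → ¬ I p' l → ∃ e ∈ EL l, e • p = p'

/-- Lines of the projective plane over `K`, given by their (row) coordinates: a copy of the type of
points. The point `[v]` lies on the line `[w]` when `v ⬝ᵥ w = 0`. -/
def LineT (K : Type*) [Field K] : Type _ := ℙ K (Fin 3 → K)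

variable {K : Type*} [Field K]

/-- The contragredient (inverse transpose) automorphism of `GL (Fin 3) K`. -/
def contra : GL (Fin 3) K →* GL (Fin 3) K where
  toFun g := ⟨(g⁻¹ : GL (Fin 3) K).val.transpose, g.val.transpose, by
    rw [← Matrix.transpose_mul, ← Units.val_mul, mul_inv_cancel]; simp, by
    rw [← Matrix.transpose_mul, ← Units.val_mul, inv_mul_cancel]; simp⟩
  map_one' := by
    apply Units.ext
    change ((1 : GL (Fin 3) K)⁻¹).val.transpose = _
    rw [inv_one, Units.val_one, Matrix.transpose_one]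
  map_mul' g h := by
    apply Units.ext
    change ((g * h)⁻¹ : GL (Fin 3) K).val.transpose = _
    rw [mul_inv_rev, Units.val_mul, Matrix.transpose_mul]; rfl

/-- `GL (Fin 3) K` acts on lines through the contragredient. -/
instance : MulAction (GL (Fin 3) K) (LineT K) :=
  MulAction.compHom (ℙ K (Fin 3 → K)) (contra (K := K))

theorem lineT_scalar_smul (u : Kˣ) (x : LineT K) :
    (Matrix.GeneralLinearGroup.scalar (Fin 3) u : GL (Fin 3) K) • x = x := by
  change (contra (Matrix.GeneralLinearGroup.scalar (Fin 3) u)) •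
    (show ℙ K (Fin 3 → K) from x) = x
  have h1 : contra (Matrix.GeneralLinearGroup.scalar (Fin 3) u) =
      Matrix.GeneralLinearGroup.scalar (Fin 3) u⁻¹ := by
    apply Units.ext
    change ((Matrix.GeneralLinearGroup.scalar (Fin 3) u)⁻¹ : GL (Fin 3) K).val.transpose = _
    rw [← map_inv]
    ext i j
    simp [Matrix.GeneralLinearGroup.scalar, Matrix.scalar_apply, Matrix.diagonal_apply, eq_comm]
  rw [h1]
  obtain ⟨v, hv, rfl⟩ : ∃ (v : Fin 3 → K) (hv : v ≠ 0), x = Projectivization.mk K v hv :=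
    ⟨_, Projectivization.rep_nonzero _, (Projectivization.mk_rep _).symm⟩
  rw [Projectivization.smul_mk]
  refine (Projectivization.mk_eq_mk_iff K _ _ _ _).2 ⟨u⁻¹, ?_⟩
  change _ = (Matrix.scalar (Fin 3) ((u⁻¹ : Kˣ) : K)).mulVec v
  rw [Matrix.scalar_apply]
  ext i
  simp [Matrix.mulVec_diagonal, Units.smul_def]

/-- `PGL(3, K)` acts on lines. -/
instance : MulAction PGL(3, K) (LineT K) :=
  Matrix.ProjGenLinGroup.mulActionOfGL (α := LineT K) fun u x => lineT_scalar_smul u x

theorem mk_smul_line (g : GL (Fin 3) K) (x : LineT K) :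
    (Matrix.ProjGenLinGroup.mk g : PGL(3, K)) • x = g • x := rfl

/-- Incidence: the point `[v]` lies on the line with coordinates `[w]` iff `v ⬝ᵥ w = 0`. -/
def inc (p : ℙ K (Fin 3 → K)) (l : LineT K) : Prop :=
  Projectivization.orthogonal p (show ℙ K (Fin 3 → K) from l)

/-- The elementary transvection `1 + a E_{ij}` (`i ≠ j`), as an element of `PGL(3, K)`. -/
noncomputable def tv (i j : Fin 3) (h : i ≠ j) (a : K) : PGL(3, K) :=
  Matrix.SpecialLinearGroup.toPGL ⟨Matrix.transvection i j a, Matrix.det_transvection_of_ne i j h a⟩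

/-- The diagonal matrix `diag(x, y, z)` as an element of `PGL(3, K)`. -/
noncomputable def dg (x y z : Kˣ) : PGL(3, K) :=
  Matrix.ProjGenLinGroup.mk ⟨Matrix.diagonal ![(x : K), y, z],
    Matrix.diagonal ![((x⁻¹ : Kˣ) : K), (y⁻¹ : Kˣ), (z⁻¹ : Kˣ)], by
      rw [Matrix.diagonal_mul_diagonal, ← Matrix.diagonal_one]
      congr 1; ext i; fin_cases i <;> simp, by
      rw [Matrix.diagonal_mul_diagonal, ← Matrix.diagonal_one]
      congr 1; ext i; fin_cases i <;> simp⟩

/-- The cyclic permutation matrix as an element of `PGL(3, K)`. -/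
noncomputable def sg : PGL(3, K) :=
  Matrix.ProjGenLinGroup.mk ⟨!![0, 0, 1; 1, 0, 0; 0, 1, 0], !![0, 1, 0; 0, 0, 1; 1, 0, 0], by
      ext i j; fin_cases i <;> fin_cases j <;> simp [Matrix.mul_apply, Fin.sum_univ_three], by
      ext i j; fin_cases i <;> fin_cases j <;> simp [Matrix.mul_apply, Fin.sum_univ_three]⟩

end Pool.Agent.Lib.MP_d1e4d8_al
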