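import Pool.Agent.Lib.MP_d1e4d8_al.Core3
import Pool.Agent.Lib.MP_d1e4d8_al.MaxIdeal
import Pool.Agent.Lib.MP_d1e4d8_al.GroupFacts

/-!
# The step lemma (for MP_d1e4d8_al)
-/

set_option autoImplicit false
set_option linter.style.haveILetI false
set_option linter.unusedSectionVars false

namespace Pool.Agent.Lib.MP_d1e4d8_al

section
variable {G : Type*} [Group G] {B : Type*} [Ring B] [MulSemiringAction G B]

theorem isTv3 {H K : Subgroup G} {t : G} (ht : t ∈ K)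
    (hgen : ∀ a ∈ K, a ∈ H ∨ t⁻¹ * a ∈ H ∨ (t * t)⁻¹ * a ∈ H) (h1 : t ∉ H) (h2 : t * t ∉ H) :
    IsTv H K (![1, t, t * t] : Fin 3 → G) where
  mem i := by
    fin_cases i
    · exact K.one_mem
    · exact ht
    · exact K.mul_mem ht ht
  surj k hk := by
    rcases hgen k hk with h | h | h
    · exact ⟨0, by simpa using h⟩
    · exact ⟨1, by simpa using h⟩
    · exact ⟨2, by simpa using h⟩
  inj i j h := by
    have h1' : t⁻¹ ∉ H := fun h => h1 (H.inv_mem_iff.1 h)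
    have h2' : (t * t)⁻¹ ∉ H := fun h => h2 (H.inv_mem_iff.1 h)
    fin_cases i <;> fin_cases j <;> first | rfl | (exfalso; simp [mul_assoc] at h)
    · exact h1 h
    · exact h2 h
    · exact h1 h
    · exact h1 h
    · apply h2'; simpa using h
    · exact h1 h

theorem tr3 [Finite G] {H K : Subgroup G} (hHK : H ≤ K) {t : G} (ht : t ∈ K)
    (hgen : ∀ a ∈ K, a ∈ H ∨ t⁻¹ * a ∈ H ∨ (t * t)⁻¹ * a ∈ H) (h1 : t ∉ H) (h2 : t * t ∉ H)
    {b : B} (hb : Fixed H b) : tr H K b = b + t • b + t • t • b := by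
  rw [tr_eq_sum hHK (isTv3 ht hgen h1 h2) hb, Fin.sum_univ_three]
  simp [mul_smul]

end

theorem conj_zpow {G : Type*} [Group G] {N : Subgroup G} {g : G} (h1 : ∀ a ∈ N, g * a * g⁻¹ ∈ N)
    (h2 : ∀ a ∈ N, g⁻¹ * a * g ∈ N) (k : ℤ) : ∀ b ∈ N, g ^ k * b * (g ^ k)⁻¹ ∈ N := by
  induction k using Int.induction_on with
  | zero => intro b hb; simpa using hb
  | succ i ih =>
    intro b hb
    have := h1 _ (ih b hb)
    have e : g ^ ((i : ℤ) + 1) * b * (g ^ ((i : ℤ) + 1))⁻¹ =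
      g * (g ^ (i : ℤ) * b * (g ^ (i : ℤ))⁻¹) * g⁻¹ := by
      rw [add_comm, zpow_add, zpow_one]; group
    rw [e]; exact this
  | pred i ih =>
    intro b hb
    have := h2 _ (ih b hb)
    have e : g ^ (-(i : ℤ) - 1) * b * (g ^ (-(i : ℤ) - 1))⁻¹ =
      g⁻¹ * (g ^ (-(i : ℤ)) * b * (g ^ (-(i : ℤ)))⁻¹) * g := by
      rw [sub_eq_add_neg, add_comm, zpow_add, zpow_neg_one]; group
    rw [e]; exact this

/-- The subgroup `N ⟨g⟩` for `g` normalizing `N`. -/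
def semi {G : Type*} [Group G] (N : Subgroup G) (g : G) (h1 : ∀ a ∈ N, g * a * g⁻¹ ∈ N)
    (h2 : ∀ a ∈ N, g⁻¹ * a * g ∈ N) : Subgroup G where
  carrier := {x | ∃ a ∈ N, ∃ k : ℤ, x = a * g ^ k}
  one_mem' := ⟨1, N.one_mem, 0, by simp⟩
  mul_mem' := by
    rintro _ _ ⟨a, ha, k, rfl⟩ ⟨b, hb, l, rfl⟩
    refine ⟨a * (g ^ k * b * (g ^ k)⁻¹), N.mul_mem ha (conj_zpow h1 h2 k b hb), k + l, ?_⟩
    rw [zpow_add]; group
  inv_mem' := by
    rintro _ ⟨a, ha, k, rfl⟩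
    refine ⟨g ^ (-k) * a⁻¹ * (g ^ (-k))⁻¹, conj_zpow h1 h2 (-k) _ (N.inv_mem ha), -k, ?_⟩
    simp

theorem mem_semi {G : Type*} [Group G] {N : Subgroup G} {g : G} {h1 : ∀ a ∈ N, g * a * g⁻¹ ∈ N}
    {h2 : ∀ a ∈ N, g⁻¹ * a * g ∈ N} {x : G} :
    x ∈ semi N g h1 h2 ↔ ∃ a ∈ N, ∃ k : ℤ, x = a * g ^ k := Iff.rfl

section
variable {F : Type*} [Field F] {G : Type*} [Group G] [Finite G] {B : Type*} [Ring B] [Algebra F B]
  [MulSemiringAction G B] [SMulCommClass G F B]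
  {A A1 A2 A3 Q : Subgroup G} {g t t1 t2 : G}

theorem Tower.gc0 (T : Tower A A1 A2 A3 g t t1 t2) : ∀ a ∈ A, g * a * g⁻¹ ∈ A := by
  intro a ha
  have := A.mul_mem (T.le1 (T.ph1 a ha)) ha
  simpa [mul_assoc] using this

theorem Tower.gc1 (T : Tower A A1 A2 A3 g t t1 t2) : ∀ a ∈ A1, g * a * g⁻¹ ∈ A1 := by
  intro a ha
  have := A1.mul_mem (T.le2 (T.ph2 a ha)) ha
  simpa [mul_assoc] using this

theorem Tower.sq_not (T : Tower A A1 A2 A3 g t t1 t2) : t * t ∉ A1 := by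
  intro h
  have h1 := T.le2 (T.cube t T.t_mem)
  have h2 := A1.mul_mem (A1.inv_mem h) h1
  rw [inv_mul_cancel_left] at h2
  exact T.nt h2

theorem Tower.sq_not1 (T : Tower A A1 A2 A3 g t t1 t2) : t1 * t1 ∉ A2 := by
  intro h
  have h1 := T.cube t1 (T.le1 T.t1_mem)
  have h2 := A2.mul_mem (A2.inv_mem h) h1
  rw [inv_mul_cancel_left] at h2
  exact T.nt1 h2

theorem Tower.sq_not2 (T : Tower A A1 A2 A3 g t t1 t2) : t2 * t2 ∉ A3 := by
  intro h
  have h1 := T.cube1 t2 (T.le2 T.t2_mem)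
  have h2 := A3.mul_mem (A3.inv_mem h) h1
  rw [inv_mul_cancel_left] at h2
  exact T.nt2 h2

/-- the special index-three subgroup and its trace -/
theorem exists_H (T : Tower A A1 A2 A3 g t t1 t2) (hAQ : A ≤ Q) (hgQ : g ∈ Q) (hgA : g ∉ A)
    (hcov : ∀ q ∈ Q, q ∈ A ∨ g⁻¹ * q ∈ A ∨ (g * g)⁻¹ * q ∈ A) {b : B} (hb : Fixed A1 b)
    (hgb : g • b = b) : ∃ H < Q, Fixed H b ∧ tr H Q b = b + t • b + t • t • b := by
  have htQ : t ∈ Q := hAQ T.t_mem
  have hHQ : semi A1 g T.gc1 T.c1 ≤ Q := by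
    rintro _ ⟨a, ha, k, rfl⟩
    exact Q.mul_mem (hAQ (T.le1 ha)) (Q.zpow_mem hgQ k)
  have hg3 : g ^ (3 : ℤ) = 1 := by
    have := T.g3
    calc g ^ (3 : ℤ) = g * g * g := by rw [zpow_ofNat, pow_three, mul_assoc]
      _ = 1 := this
  have hHA : ∀ x ∈ semi A1 g T.gc1 T.c1, x ∈ A → x ∈ A1 := by
    rintro _ ⟨a, ha, k, rfl⟩ hx
    have h1 : g ^ k ∈ A := by
      have := A.mul_mem (A.inv_mem (T.le1 ha)) hx
      rwa [inv_mul_cancel_left] at this
    have hk3 : k = k % 3 + 3 * (k / 3) := (Int.emod_add_mul_ediv k 3).symm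
    have h2 : g ^ k = g ^ (k % 3) := by
      conv_lhs => rw [hk3]
      rw [zpow_add, zpow_mul, hg3, one_zpow, mul_one]
    have hcases : k % 3 = 0 ∨ k % 3 = 1 ∨ k % 3 = 2 := by omega
    rw [h2] at h1 ⊢
    rcases hcases with h | h | h
    · rw [h, zpow_zero, mul_one]; exact ha
    · rw [h, zpow_one] at h1; exact absurd h1 hgA
    · exfalso
      rw [h] at h1
      have : g ^ (2 : ℤ) = g⁻¹ := by
        rw [eq_inv_iff_mul_eq_one]
        calc g ^ (2 : ℤ) * g = g ^ (3 : ℤ) := by group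
          _ = 1 := hg3
      rw [this] at h1
      exact hgA (A.inv_mem_iff.1 h1)
  have ht1 : t ∉ semi A1 g T.gc1 T.c1 := fun h => T.nt (hHA _ h T.t_mem)
  have ht2 : t * t ∉ semi A1 g T.gc1 T.c1 :=
    fun h => T.sq_not (hHA _ h (A.mul_mem T.t_mem T.t_mem))
  have hQ : ∀ q ∈ Q, ∃ a ∈ A, ∃ k : ℤ, q = a * g ^ k := by
    intro q hq
    rcases hcov q hq with h | h | h
    · exact ⟨q, h, 0, by simp⟩
    · refine ⟨g * (g⁻¹ * q) * g⁻¹, T.gc0 _ h, 1, by group⟩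
    · refine ⟨g * (g * ((g * g)⁻¹ * q) * g⁻¹) * g⁻¹, T.gc0 _ (T.gc0 _ h), 2, by group⟩
  have hgen : ∀ q ∈ Q, q ∈ semi A1 g T.gc1 T.c1 ∨ t⁻¹ * q ∈ semi A1 g T.gc1 T.c1 ∨
      (t * t)⁻¹ * q ∈ semi A1 g T.gc1 T.c1 := by
    intro q hq
    obtain ⟨a, ha, k, rfl⟩ := hQ q hq
    rcases T.gen a ha with h | h | h
    · exact Or.inl ⟨a, h, k, rfl⟩
    · exact Or.inr (Or.inl ⟨_, h, k, by group⟩)
    · exact Or.inr (Or.inr ⟨_, h, k, by group⟩)
  have hHb : Fixed (semi A1 g T.gc1 T.c1) b := by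
    rintro _ ⟨a, ha, k, rfl⟩
    have : g ^ k • b = b := by
      have h1 : g ∈ MulAction.stabilizer G b := hgb
      exact Subgroup.zpow_mem _ h1 k
    rw [mul_smul, this, hb a ha]
  refine ⟨semi A1 g T.gc1 T.c1, lt_of_le_of_ne hHQ (fun h => ht1 (h ▸ htQ)), hHb, ?_⟩
  exact tr3 hHQ htQ hgen ht1 ht2 hHb

/-- The step lemma. -/
theorem step [IsAlgClosed F] [CharP F 3] [Module.Finite F B] (T : Tower A A1 A2 A3 g t t1 t2)
    (hAQ : A ≤ Q) (hgQ : g ∈ Q) (hgA : g ∉ A)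
    (hcov : ∀ q ∈ Q, q ∈ A ∨ g⁻¹ * q ∈ A ∨ (g * g)⁻¹ * q ∈ A) {x : B} (hx : tr ⊥ A x = 1) :
    (1 : B) ∈ AddSubgroup.closure {y : B | ∃ H < Q, ∃ b, Fixed H b ∧ y = tr H Q b} := by
  by_contra h1
  have h3 : ∀ y : B, y + y + y = 0 := by
    intro y
    have h30 : (3 : F) = 0 := by exact_mod_cast CharP.cast_eq_zero F 3
    have : (3 : F) • y = y + y + y := by
      rw [show (3 : F) = 1 + 1 + 1 by norm_num, add_smul, add_smul, one_smul]
    rw [← this, h30, zero_smul]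
  have hgg : g * g ∉ A := by
    intro h
    have : g = (g * g)⁻¹ := by
      rw [eq_inv_iff_mul_eq_one, ← mul_assoc]; exact T.g3
    rw [this] at hgA
    exact hgA (A.inv_mem h)
  have hAQ' : A < Q := lt_of_le_of_ne hAQ (fun h => hgA (h ▸ hgQ))
  have hEQ : ∀ y : B, y ∈ EE B A g ↔ Fixed Q y := by
    intro y
    constructor
    · rintro ⟨ha, hg⟩ q hq
      have : ∀ a ∈ A, ∀ q : G, q⁻¹ * (q * a) = a := fun a _ q => inv_mul_cancel_left q a
      rcases hcov q hq with h | h | h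
      · exact ha q h
      · calc q • y = (g * (g⁻¹ * q)) • y := by rw [mul_inv_cancel_left]
          _ = y := by rw [mul_smul, ha _ h, hg]
      · calc q • y = (g * g * ((g * g)⁻¹ * q)) • y := by rw [mul_inv_cancel_left]
          _ = y := by rw [mul_smul, ha _ h, mul_smul, hg, hg]
    · intro h
      exact ⟨h.mono hAQ, h g hgQ⟩
  set S : Set B := {y : B | ∃ H < Q, ∃ b, Fixed H b ∧ y = tr H Q b} with hS
  let E : Subalgebra F B :=
    { carrier := EE B A g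
      mul_mem' := fun hx hy => EE.mul hx hy
      one_mem' := ⟨Fixed.one _, smul_one _⟩
      add_mem' := fun hx hy => EE.add hx hy
      zero_mem' := ⟨Fixed.zero _, smul_zero _⟩
      algebraMap_mem' := fun c => EE.scalar c }
  have hIE : ∀ y ∈ AddSubgroup.closure S, y ∈ E := by
    intro y hy
    induction hy using AddSubgroup.closure_induction with
    | mem y hy =>
      obtain ⟨H, hH, b, hb, rfl⟩ := hy
      exact (hEQ _).2 (fixed_tr hH.le hb)
    | zero => exact E.zero_mem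
    | add y z _ _ hy hz => exact E.add_mem hy hz
    | neg y _ hy => exact E.neg_mem hy
  have hl : ∀ e ∈ E, ∀ y ∈ AddSubgroup.closure S, e * y ∈ AddSubgroup.closure S := by
    intro e he y hy
    have he' : Fixed Q e := (hEQ _).1 he
    induction hy using AddSubgroup.closure_induction with
    | mem y hy =>
      obtain ⟨H, hH, b, hb, rfl⟩ := hy
      rw [mul_tr hH.le hb he']
      exact AddSubgroup.subset_closure ⟨H, hH, _, (he'.mono hH.le).mul hb, rfl⟩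
    | zero => rw [mul_zero]; exact AddSubgroup.zero_mem _
    | add y z _ _ hy hz => rw [mul_add]; exact AddSubgroup.add_mem _ hy hz
    | neg y _ hy => rw [mul_neg]; exact AddSubgroup.neg_mem _ hy
  have hr : ∀ e ∈ E, ∀ y ∈ AddSubgroup.closure S, y * e ∈ AddSubgroup.closure S := by
    intro e he y hy
    have he' : Fixed Q e := (hEQ _).1 he
    induction hy using AddSubgroup.closure_induction with
    | mem y hy =>
      obtain ⟨H, hH, b, hb, rfl⟩ := hy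
      rw [tr_mul hH.le hb he']
      exact AddSubgroup.subset_closure ⟨H, hH, _, hb.mul (he'.mono hH.le), rfl⟩
    | zero => rw [zero_mul]; exact AddSubgroup.zero_mem _
    | add y z _ _ hy hz => rw [add_mul]; exact AddSubgroup.add_mem _ hy hz
    | neg y _ hy => rw [neg_mul]; exact AddSubgroup.neg_mem _ hy
  obtain ⟨m, hIm, hm⟩ := exists_maxLike E _ hIE hl hr h1
  have hm' : MaxLike F (EE B A g) m := hm
  have W1 : ∀ b : B, Fixed A b → b + g • b + g • g • b ∈ m := by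
    intro b hb
    rw [← tr3 hAQ hgQ hcov hgA hgg hb]
    exact hIm (AddSubgroup.subset_closure ⟨A, hAQ', b, hb, rfl⟩)
  have W2 : ∀ s ∈ A, ∀ b : B, Fixed A1 b → (g * s) • b = b → b + t • b + t • t • b ∈ m := by
    intro s hs b hb hgb
    have hgs : g * s ∉ A := fun h => hgA (by
      have := A.mul_mem h (A.inv_mem hs)
      rwa [mul_inv_cancel_right] at this)
    obtain ⟨H, hH, hHb, htr⟩ := exists_H (T.shift hs) hAQ (Q.mul_mem hgQ (hAQ hs)) hgs (by
      intro q hq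
      rcases hcov q hq with h | h | h
      · exact Or.inl h
      · refine Or.inr (Or.inl ?_)
        have := A.mul_mem (A.inv_mem hs) h
        simpa [mul_assoc] using this
      · refine Or.inr (Or.inr ?_)
        have h4 := A.mul_mem (A.inv_mem hs) (A.mul_mem (A.inv_mem (T.c0 _ hs)) h)
        have e : s⁻¹ * ((g⁻¹ * s * g)⁻¹ * ((g * g)⁻¹ * q)) = (g * s * (g * s))⁻¹ * q := by group
        rwa [e] at h4) hb hgb
    rw [← htr]
    exact hIm (AddSubgroup.subset_closure ⟨H, hH, b, hHb, rfl⟩)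
  -- h1 and h2
  have cc : ∀ a ∈ A, ∀ b ∈ A, ∀ y : B, a • b • y = b • a • y := by
    intro a ha b hb y
    rw [smul_smul, smul_smul, T.comm a ha b hb]
  have mt := T.t_mem
  have mt1 := T.le1 T.t1_mem
  have mt2 := T.le1 (T.le2 T.t2_mem)
  have b0 : ∀ N : Subgroup G, Fixed (⊥ : Subgroup G) x := by
    intro N h hh
    rw [Subgroup.mem_bot.1 hh, one_smul]
  have ct : ∀ {N : Subgroup G}, N ≤ A → ∀ {s : G}, s ∈ A → ∀ {y : B}, Fixed N y →
      Fixed N (s • y) := by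
    intro N hN s hs y hy
    exact Tower.ft (fun a ha => T.comm _ (hN ha) _ hs) hy
  have hA2A := T.le2.trans T.le1
  have hA3A := T.le3.trans hA2A
  set y := tr ⊥ A2 x with hy
  have hyF : Fixed A2 y := fixed_tr bot_le (b0 ⊥)
  set y3 := tr ⊥ A3 x with hy3
  have hy3F : Fixed A3 y3 := fixed_tr bot_le (b0 ⊥)
  have e1 : y = y3 + t2 • y3 + t2 • t2 • y3 := by
    rw [hy, ← tr_tr bot_le T.le3 (b0 ⊥), ← hy3]
    exact tr3 T.le3 T.t2_mem T.gen2 T.nt2 T.sq_not2 hy3F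
  have e2 : (1 : B) = (y + t1 • y + t1 • t1 • y) + t • (y + t1 • y + t1 • t1 • y) +
      t • t • (y + t1 • y + t1 • t1 • y) := by
    rw [← hx, ← tr_tr bot_le T.le1 (b0 ⊥), ← tr_tr bot_le T.le2 (b0 ⊥), ← hy]
    rw [tr3 T.le1 T.t_mem T.gen T.nt T.sq_not (fixed_tr T.le2 hyF),
      tr3 T.le2 T.t1_mem T.gen1 T.nt1 T.sq_not1 hyF]
  clear_value y y3
  have httt : t • t • t • y = y := by
    rw [smul_smul, smul_smul]; exact hyF _ (T.cube _ T.t_mem)
  have hF2 : Fixed A2 (y + t • y + t • t • y) :=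
    (hyF.add (ct hA2A mt hyF)).add (ct hA2A mt (ct hA2A mt hyF))
  have hF3 : Fixed A3 (y3 + t • y3 + t • t • y3) :=
    (hy3F.add (ct hA3A mt hy3F)).add (ct hA3A mt (ct hA3A mt hy3F))
  obtain ⟨w, hw⟩ : ∃ w, w = y3 + t • y3 + t • t • y3 := ⟨_, rfl⟩
  rw [← hw] at hF3
  have hwt1 : t1 • t1 • t1 • w = w := by
    rw [smul_smul, smul_smul]; exact hF3 _ (T.cube1 _ T.t1_mem)
  refine core h3 T hm' W1 W2 (h1 := y + t • y + t • t • y) hF2 ?_ ?_
    (h2 := w + t1 • w + t1 • t1 • w) ((hF3.add (ct hA3A mt1 hF3)).add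
      (ct hA3A mt1 (ct hA3A mt1 hF3))) ?_ ?_
  · simp only [smul_add, httt]; abel
  · rw [e2]
    simp only [smul_add, cc t1 mt1 t mt]
    abel
  · simp only [smul_add, hwt1]; abel
  · rw [e2, e1, hw]
    simp only [smul_add, cc t1 mt1 t mt, cc t2 mt2 t mt, cc t2 mt2 t1 mt1]
    abel

end

end Pool.Agent.Lib.MP_d1e4d8_al
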