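import Pool.Agent.Lib.MP_d1e4d8_al.PlaneDefs

/-!
# Statements of the lemmas to be proved (each in its own file), for MP_d1e4d8_al

They are kept here as `Prop`-valued definitions, so that this file has no `sorry`.
-/

set_option autoImplicit false

namespace Pool.Agent.Lib.MP_d1e4d8_al

open scoped LinearAlgebra.Projectivization MatrixGroups

universe u

/-- Target A (file Plane.lean): existence of the cuspidal simple module. -/
def TargetA : Prop :=
  ∀ (G P L : Type) [Group G] [Finite G] [Finite P] [Finite L] [MulAction G P] [MulAction G L]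
    (I : P → L → Prop) (EP : P → Subgroup G) (EL : L → Subgroup G) (n : ℕ),
    PlaneData G P L I EP EL n → ∀ (F : Type u) [Field F] [CharP F 3],
    ∃ (V : Type u) (_ : AddCommGroup V) (_ : Module F V) (_ : Module.Finite F V)
      (ρ : Representation F G V), ρ.IsIrreducible ∧
      (∀ p, ∀ x : V, (∀ e ∈ EP p, ρ e x = x) → x = 0) ∧
      (∀ l, ∀ x : V, (∀ e ∈ EL l, ρ e x = x) → x = 0) ∧
      (∀ b : MonoidAlgebra F G, b ∈ Subring.center (MonoidAlgebra F G) → b * b = b →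
        (∀ x : V, ρ.asAlgebraHom b x = x) → MonoidAlgebra.lift F F G 1 b ≠ 0)

/-- Target B (file Geometry.lean): `PGL(3, K)` and the projective plane over `K`. -/
def TargetB : Prop :=
  ∀ (K : Type) [Field K] [Finite K], Nat.card K % 3 = 1 → 4 ≤ Nat.card K →
    ∃ (EP : ℙ K (Fin 3 → K) → Subgroup PGL(3, K)) (EL : LineT K → Subgroup PGL(3, K)),
      PlaneData PGL(3, K) (ℙ K (Fin 3 → K)) (LineT K) inc EP EL (Nat.card K) ∧
      (∃ p, EP p ≤ Subgroup.closure ({g | ∃ a : K, g = tv 0 1 (by decide) a} ∪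
        {g | ∃ a : K, g = tv 0 2 (by decide) a})) ∧
      (∃ p, EP p ≤ Subgroup.closure ({g | ∃ a : K, g = tv 1 0 (by decide) a} ∪
        {g | ∃ a : K, g = tv 1 2 (by decide) a})) ∧
      (∃ l, EL l ≤ Subgroup.closure ({g | ∃ a : K, g = tv 0 2 (by decide) a} ∪
        {g | ∃ a : K, g = tv 1 2 (by decide) a}))

/-- Target C (file Torus.lean): projectivity on restriction to the torus. -/
def TargetC : Prop :=
  ∀ (K : Type) [Field K] [Finite K], Nat.card K % 3 = 1 →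
    ∀ (F : Type u) [Field F] [IsAlgClosed F] [CharP F 3] (V : Type u) [AddCommGroup V] [Module F V]
      (ρ : Representation F PGL(3, K) V),
      (∀ x : V, (∀ a : K, ρ (tv 0 1 (by decide) a) x = x) →
        (∀ a : K, ρ (tv 0 2 (by decide) a) x = x) → x = 0) →
      (∀ x : V, (∀ a : K, ρ (tv 1 0 (by decide) a) x = x) →
        (∀ a : K, ρ (tv 1 2 (by decide) a) x = x) → x = 0) →
      (∀ x : V, (∀ a : K, ρ (tv 0 2 (by decide) a) x = x) →
        (∀ a : K, ρ (tv 1 2 (by decide) a) x = x) → x = 0) →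
      ∃ f : V →ₗ[F] V, ∑ᶠ t : Kˣ × Kˣ,
        ρ (dg t.1 t.2 1) ∘ₗ f ∘ₗ ρ (dg t.1 t.2 1)⁻¹ = LinearMap.id

/-- The image of the diagonal torus in `PGL(3, K)`. -/
def torusSet (K : Type) [Field K] : Set PGL(3, K) := {g | ∃ x y : Kˣ, g = dg x y 1}

/-- Target D (file Index.lean): the group `N = T ⋊ ⟨σ⟩`. -/
def TargetD : Prop :=
  ∀ (K : Type) [Field K] [Finite K], Nat.card K % 3 = 1 →
    ∃ (T N : Subgroup PGL(3, K)), (T : Set PGL(3, K)) = torusSet K ∧ T ≤ N ∧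
      Function.Injective (fun t : Kˣ × Kˣ => dg t.1 t.2 1) ∧
      Nat.card T = (Nat.card K - 1) ^ 2 ∧
      ¬ (3 ∣ N.index) ∧
      (∀ a ∈ T, ∀ b ∈ T, a * b = b * a) ∧
      (∀ g ∈ N, ∀ a ∈ T, g * a * g⁻¹ ∈ T) ∧
      (∀ g ∈ N, g ∉ T → g * g ∉ T ∧ g * g * g = 1 ∧
        (∀ h ∈ N, h ∈ T ∨ h * g⁻¹ ∈ T ∨ h * (g * g)⁻¹ ∈ T) ∧
        (∀ a ∈ T, a * (g * a * g⁻¹) * (g * (g * a * g⁻¹) * g⁻¹) = 1) ∧
        Nat.card {a : PGL(3, K) // a ∈ T ∧ g * a = a * g} = 3)

/-- Target E (file Fields.lean): finite fields with `3^m ∣ q - 1`. -/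
def TargetE : Prop :=
  ∀ m : ℕ, ∃ (K : Type) (_ : Field K) (_ : Finite K),
    Nat.card K % 3 = 1 ∧ 4 ≤ Nat.card K ∧ 3 ^ m ∣ Nat.card K - 1

end Pool.Agent.Lib.MP_d1e4d8_al
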