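import Pool.Agent.Lib.MP_d1e4d8_al.Level

/-!
# The tower `A ⊇ A1 ⊇ A2 ⊇ A3` (for MP_d1e4d8_al)
-/

set_option autoImplicit false
set_option linter.style.haveILetI false
set_option linter.unusedSectionVars false

namespace Pool.Agent.Lib.MP_d1e4d8_al

variable {G : Type*} [Group G] {B : Type*} [Ring B] [MulSemiringAction G B]

/-- The tower data. -/
structure Tower (A A1 A2 A3 : Subgroup G) (g t t1 t2 : G) : Prop where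
  le1 : A1 ≤ A
  le2 : A2 ≤ A1
  le3 : A3 ≤ A2
  comm : ∀ a ∈ A, ∀ b ∈ A, a * b = b * a
  g3 : g * g * g = 1
  nrm : ∀ a ∈ A, a * (g * a * g⁻¹) * (g * (g * a * g⁻¹) * g⁻¹) = 1
  ph1 : ∀ a ∈ A, g * a * g⁻¹ * a⁻¹ ∈ A1
  ph2 : ∀ a ∈ A1, g * a * g⁻¹ * a⁻¹ ∈ A2
  ph3 : ∀ a ∈ A2, g * a * g⁻¹ * a⁻¹ ∈ A3
  t_mem : t ∈ A
  t1_eq : t1 = g * t * g⁻¹ * t⁻¹
  t2_eq : t2 = g * t1 * g⁻¹ * t1⁻¹
  gen : ∀ a ∈ A, a ∈ A1 ∨ t⁻¹ * a ∈ A1 ∨ (t * t)⁻¹ * a ∈ A1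
  gen1 : ∀ a ∈ A1, a ∈ A2 ∨ t1⁻¹ * a ∈ A2 ∨ (t1 * t1)⁻¹ * a ∈ A2
  gen2 : ∀ a ∈ A2, a ∈ A3 ∨ t2⁻¹ * a ∈ A3 ∨ (t2 * t2)⁻¹ * a ∈ A3
  cube : ∀ a ∈ A, a * a * a ∈ A2
  cube1 : ∀ a ∈ A1, a * a * a ∈ A3
  nt : t ∉ A1
  nt1 : t1 ∉ A2
  nt2 : t2 ∉ A3

namespace Tower

variable {A A1 A2 A3 : Subgroup G} {g t t1 t2 : G}

theorem gconj (T : Tower A A1 A2 A3 g t t1 t2) {N N' : Subgroup G} (hN : N' ≤ N)
    (hph : ∀ a ∈ N, g * a * g⁻¹ * a⁻¹ ∈ N') : ∀ a ∈ N, g⁻¹ * a * g ∈ N := by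
  have h1 : ∀ a ∈ N, g * a * g⁻¹ ∈ N := by
    intro a ha
    have := N.mul_mem (hN (hph a ha)) ha
    simpa [mul_assoc] using this
  intro a ha
  have h2 := h1 _ (h1 a ha)
  have hg : g⁻¹ = g * g := by
    rw [inv_eq_iff_mul_eq_one, ← mul_assoc]; exact T.g3
  have e : g⁻¹ * a * g = g * (g * a * g⁻¹) * g⁻¹ := by
    have : g = g⁻¹ * g⁻¹ := by
      have h := T.g3
      calc g = (g * g * g) * g⁻¹ * g⁻¹ := by group
        _ = g⁻¹ * g⁻¹ := by rw [h]; group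
    calc g⁻¹ * a * g = (g * g) * a * (g⁻¹ * g⁻¹) := by rw [← this, ← hg]
      _ = g * (g * a * g⁻¹) * g⁻¹ := by group
  rw [e]; exact h2

theorem c0 (T : Tower A A1 A2 A3 g t t1 t2) : ∀ a ∈ A, g⁻¹ * a * g ∈ A := T.gconj T.le1 T.ph1
theorem c1 (T : Tower A A1 A2 A3 g t t1 t2) : ∀ a ∈ A1, g⁻¹ * a * g ∈ A1 := T.gconj T.le2 T.ph2
theorem c2 (T : Tower A A1 A2 A3 g t t1 t2) : ∀ a ∈ A2, g⁻¹ * a * g ∈ A2 := T.gconj T.le3 T.ph3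
theorem c3 (T : Tower A A1 A2 A3 g t t1 t2) : ∀ a ∈ A3, g⁻¹ * a * g ∈ A3 :=
  T.gconj le_rfl fun a ha => T.ph3 a (T.le3 ha)

theorem t1_mem (T : Tower A A1 A2 A3 g t t1 t2) : t1 ∈ A1 := by
  rw [T.t1_eq]; exact T.ph1 t T.t_mem

theorem t2_mem (T : Tower A A1 A2 A3 g t t1 t2) : t2 ∈ A2 := by
  rw [T.t2_eq]; exact T.ph2 t1 T.t1_mem

theorem lev0 (T : Tower A A1 A2 A3 g t t1 t2) : Lev B A2 g t t1 t2 where
  g3 := T.g3
  Mg := T.c2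
  Mt x hx := T.comm _ (T.le1 (T.le2 hx)) _ T.t_mem
  Mt1 x hx := T.comm _ (T.le1 (T.le2 hx)) _ (T.le1 T.t1_mem)
  gt := by rw [T.t1_eq]; group
  gt1 := by rw [T.t2_eq]; group
  s_mem := T.t2_mem
  tt1 := T.comm _ T.t_mem _ (T.le1 T.t1_mem)
  t1_3 := T.cube _ (T.le1 T.t1_mem)

theorem lev1 (T : Tower A A1 A2 A3 g t t1 t2) : Lev B A3 g t1 t2 (g * t2 * g⁻¹ * t2⁻¹) where
  g3 := T.g3
  Mg := T.c3
  Mt x hx := T.comm _ (T.le1 (T.le2 (T.le3 hx))) _ (T.le1 T.t1_mem)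
  Mt1 x hx := T.comm _ (T.le1 (T.le2 (T.le3 hx))) _ (T.le1 (T.le2 T.t2_mem))
  gt := by rw [T.t2_eq]; group
  gt1 := by group
  s_mem := T.ph3 _ T.t2_mem
  tt1 := T.comm _ (T.le1 T.t1_mem) _ (T.le1 (T.le2 T.t2_mem))
  t1_3 := T.cube1 _ (T.le2 T.t2_mem)

theorem fix_of_gen {N N' : Subgroup G} {t : G}
    (hgen : ∀ a ∈ N, a ∈ N' ∨ t⁻¹ * a ∈ N' ∨ (t * t)⁻¹ * a ∈ N') {x : B} (hx : Fixed N' x)
    (htx : t • x = x) : Fixed N x := by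
  intro a ha
  rcases hgen a ha with h | h | h
  · exact hx a h
  · have := hx _ h
    calc a • x = (t * (t⁻¹ * a)) • x := by rw [mul_inv_cancel_left]
      _ = x := by rw [mul_smul, this, htx]
  · have := hx _ h
    calc a • x = (t * t * ((t * t)⁻¹ * a)) • x := by rw [mul_inv_cancel_left]
      _ = x := by rw [mul_smul, this, mul_smul, htx, htx]

theorem fix0 (T : Tower A A1 A2 A3 g t t1 t2) {x : B} (hx : Fixed A1 x) (htx : t • x = x) :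
    Fixed A x := fix_of_gen T.gen hx htx
theorem fix1 (T : Tower A A1 A2 A3 g t t1 t2) {x : B} (hx : Fixed A2 x) (htx : t1 • x = x) :
    Fixed A1 x := fix_of_gen T.gen1 hx htx
theorem fix2 (T : Tower A A1 A2 A3 g t t1 t2) {x : B} (hx : Fixed A3 x) (htx : t2 • x = x) :
    Fixed A2 x := fix_of_gen T.gen2 hx htx

theorem fg {N : Subgroup G} (hN : ∀ a ∈ N, g⁻¹ * a * g ∈ N) {x : B} (hx : Fixed N x) :
    Fixed N (g • x) := by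
  intro a ha
  rw [smul_smul, show a * g = g * (g⁻¹ * a * g) by group, mul_smul, hx _ (hN a ha)]

theorem ft {N : Subgroup G} (hN : ∀ a ∈ N, a * t = t * a) {x : B} (hx : Fixed N x) :
    Fixed N (t • x) := by
  intro a ha
  rw [smul_smul, hN a ha, mul_smul, hx a ha]

/-- The element `g` may be replaced by `g * s`, `s ∈ A`. -/
theorem shift (T : Tower A A1 A2 A3 g t t1 t2) {s : G} (hs : s ∈ A) :
    Tower A A1 A2 A3 (g * s) t t1 t2 := by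
  have e : ∀ a ∈ A, (g * s) * a * (g * s)⁻¹ = g * a * g⁻¹ := by
    intro a ha
    have : s * a = a * s := T.comm _ hs _ ha
    calc (g * s) * a * (g * s)⁻¹ = g * (s * a) * s⁻¹ * g⁻¹ := by group
      _ = g * a * g⁻¹ := by rw [this]; group
  have h1 : ∀ a ∈ A, g * a * g⁻¹ ∈ A := by
    intro a ha
    have := A.mul_mem (T.le1 (T.ph1 a ha)) ha
    simpa [mul_assoc] using this
  refine ⟨T.le1, T.le2, T.le3, T.comm, ?_, ?_, ?_, ?_, ?_, T.t_mem, ?_, ?_, T.gen, T.gen1, T.gen2,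
    T.cube, T.cube1, T.nt, T.nt1, T.nt2⟩
  · have hn := T.nrm s hs
    have hc : (g * s * g⁻¹) * (g * (g * s * g⁻¹) * g⁻¹) =
      (g * (g * s * g⁻¹) * g⁻¹) * (g * s * g⁻¹) :=
      T.comm _ (h1 s hs) _ (h1 _ (h1 s hs))
    calc g * s * (g * s) * (g * s) =
        (g * s * g⁻¹) * (g * (g * s * g⁻¹) * g⁻¹) * (g * g * g) * s := by group
      _ = (g * s * g⁻¹) * (g * (g * s * g⁻¹) * g⁻¹) * s := by rw [T.g3]; group
      _ = s * ((g * s * g⁻¹) * (g * (g * s * g⁻¹) * g⁻¹)) := by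
        rw [T.comm _ (A.mul_mem (h1 s hs) (h1 _ (h1 s hs))) _ hs]
      _ = s * (g * s * g⁻¹) * (g * (g * s * g⁻¹) * g⁻¹) := by group
      _ = 1 := hn
  · intro a ha
    rw [e a ha, e _ (h1 a ha)]; exact T.nrm a ha
  · intro a ha; rw [e a ha]; exact T.ph1 a ha
  · intro a ha; rw [e a (T.le1 ha)]; exact T.ph2 a ha
  · intro a ha; rw [e a (T.le1 (T.le2 ha))]; exact T.ph3 a ha
  · rw [e t T.t_mem]; exact T.t1_eq
  · rw [e t1 (T.le1 T.t1_mem)]; exact T.t2_eq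

end Tower

end Pool.Agent.Lib.MP_d1e4d8_al
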