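import Mathlib

/-!
# Relative traces for a group acting on a ring (for MP_d1e4d8_al)
-/

set_option autoImplicit false
set_option linter.style.haveILetI false
set_option linter.unusedSectionVars false

namespace Pool.Agent.Lib.MP_d1e4d8_al

open scoped Classical

variable {G : Type*} [Group G] {B : Type*} [Ring B] [MulSemiringAction G B]

/-- `x` is fixed by all elements of `H`. -/
def Fixed (H : Subgroup G) (x : B) : Prop := ∀ h ∈ H, h • x = x

theorem Fixed.mono {H K : Subgroup G} (hHK : H ≤ K) {x : B} (hx : Fixed K x) : Fixed H x :=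
  fun h hh => hx h (hHK hh)

theorem Fixed.add {H : Subgroup G} {x y : B} (hx : Fixed H x) (hy : Fixed H y) :
    Fixed H (x + y) := fun h hh => by rw [smul_add, hx h hh, hy h hh]

theorem Fixed.sub {H : Subgroup G} {x y : B} (hx : Fixed H x) (hy : Fixed H y) :
    Fixed H (x - y) := fun h hh => by rw [smul_sub, hx h hh, hy h hh]

theorem Fixed.neg {H : Subgroup G} {x : B} (hx : Fixed H x) :
    Fixed H (-x) := fun h hh => by rw [smul_neg, hx h hh]

theorem Fixed.mul {H : Subgroup G} {x y : B} (hx : Fixed H x) (hy : Fixed H y) :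
    Fixed H (x * y) := fun h hh => by rw [smul_mul', hx h hh, hy h hh]

theorem Fixed.one (H : Subgroup G) : Fixed H (1 : B) := fun h _ => smul_one h

theorem Fixed.zero (H : Subgroup G) : Fixed H (0 : B) := fun h _ => smul_zero h

theorem Fixed.sum {H : Subgroup G} {ι : Type*} (s : Finset ι) {f : ι → B}
    (hf : ∀ i ∈ s, Fixed H (f i)) : Fixed H (∑ i ∈ s, f i) := fun h hh => by
  rw [Finset.smul_sum]; exact Finset.sum_congr rfl fun i hi => hf i hi h hh

/-- The relative trace from `H` to `K`. -/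
noncomputable def tr (H K : Subgroup G) (x : B) : B :=
  ∑ᶠ q : G ⧸ H, if q.out ∈ K then q.out • x else 0

/-- `t` is a family of representatives of the left cosets of `H` in `K`. -/
structure IsTv (H K : Subgroup G) {ι : Type*} (t : ι → G) : Prop where
  mem : ∀ i, t i ∈ K
  surj : ∀ k ∈ K, ∃ i, (t i)⁻¹ * k ∈ H
  inj : ∀ i j, (t i)⁻¹ * t j ∈ H → i = j

theorem out_mem {H K : Subgroup G} (hHK : H ≤ K) {k : G} (hk : k ∈ K) :
    (k : G ⧸ H).out ∈ K := by
  obtain ⟨h, hh⟩ := QuotientGroup.mk_out_eq_mul H k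
  rw [hh]
  exact K.mul_mem hk (hHK h.2)

theorem isTv_out {H K : Subgroup G} (hHK : H ≤ K) :
    IsTv H K (fun q : {q : G ⧸ H // q.out ∈ K} => q.1.out) where
  mem i := i.2
  surj k hk := ⟨⟨(k : G ⧸ H), out_mem hHK hk⟩, by
    rw [← QuotientGroup.eq, QuotientGroup.out_eq']⟩
  inj i j h := by
    rw [← QuotientGroup.eq, QuotientGroup.out_eq', QuotientGroup.out_eq'] at h
    exact Subtype.ext h

section finite
variable [Finite G]

theorem tr_eq_sum {H K : Subgroup G} (hHK : H ≤ K) {ι : Type*} [Fintype ι] {t : ι → G}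
    (ht : IsTv H K t) {x : B} (hx : Fixed H x) : tr H K x = ∑ i, t i • x := by
  haveI : Fintype (G ⧸ H) := Fintype.ofFinite _
  unfold tr
  rw [finsum_eq_sum_of_fintype, ← Finset.sum_filter]
  symm
  refine Finset.sum_bij (fun i _ => (t i : G ⧸ H)) ?_ ?_ ?_ ?_
  · intro i _
    simp only [Finset.mem_filter, Finset.mem_univ, true_and]
    exact out_mem hHK (ht.mem i)
  · intro i _ j _ hij
    exact ht.inj i j (QuotientGroup.eq.1 hij)
  · intro q hq
    simp only [Finset.mem_filter, Finset.mem_univ, true_and] at hq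
    obtain ⟨i, hi⟩ := ht.surj _ hq
    refine ⟨i, Finset.mem_univ _, ?_⟩
    rw [← QuotientGroup.eq, QuotientGroup.out_eq'] at hi
    exact hi
  · intro i _
    obtain ⟨h, hh⟩ := QuotientGroup.mk_out_eq_mul H (t i)
    rw [hh, mul_smul, hx h h.2]

theorem tr_out {H K : Subgroup G} (hHK : H ≤ K) {x : B} (hx : Fixed H x) :
    tr H K x = ∑ᶠ q : {q : G ⧸ H // q.out ∈ K}, q.1.out • x := by
  haveI : Fintype {q : G ⧸ H // q.out ∈ K} := Fintype.ofFinite _
  rw [finsum_eq_sum_of_fintype, tr_eq_sum hHK (isTv_out hHK) hx]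

theorem IsTv.left {H K : Subgroup G} {ι : Type*} {t : ι → G} (ht : IsTv H K t)
    {k : G} (hk : k ∈ K) : IsTv H K (fun i => k * t i) where
  mem i := K.mul_mem hk (ht.mem i)
  surj k' hk' := by
    obtain ⟨i, hi⟩ := ht.surj (k⁻¹ * k') (K.mul_mem (K.inv_mem hk) hk')
    exact ⟨i, by simpa [mul_assoc] using hi⟩
  inj i j h := ht.inj i j (by simpa [mul_assoc] using h)

theorem fixed_tr {H K : Subgroup G} (hHK : H ≤ K) {x : B} (hx : Fixed H x) :
    Fixed K (tr H K x) := by
  intro k hk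
  haveI : Fintype {q : G ⧸ H // q.out ∈ K} := Fintype.ofFinite _
  have h1 := tr_eq_sum hHK (isTv_out hHK) hx
  have h2 := tr_eq_sum hHK ((isTv_out hHK).left hk) hx
  conv_lhs => rw [h1]
  rw [h2, Finset.smul_sum]
  exact Finset.sum_congr rfl fun i _ => by rw [mul_smul]

theorem IsTv.comp {H K L : Subgroup G} (hHK : H ≤ K) (hKL : K ≤ L) {ι κ : Type*} {t : ι → G}
    {s : κ → G}
    (ht : IsTv H K t) (hs : IsTv K L s) : IsTv H L (fun i : κ × ι => s i.1 * t i.2) where
  mem i := L.mul_mem (hs.mem _) (hKL (ht.mem _))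
  surj l hl := by
    obtain ⟨i, hi⟩ := hs.surj l hl
    obtain ⟨j, hj⟩ := ht.surj _ hi
    exact ⟨(i, j), by simpa [mul_assoc] using hj⟩
  inj i j h := by
    have h1 : (s i.1)⁻¹ * s j.1 ∈ K := by
      have : t i.2 * ((s i.1 * t i.2)⁻¹ * (s j.1 * t j.2)) * (t j.2)⁻¹ ∈ K :=
        K.mul_mem (K.mul_mem (ht.mem _) (hHK h)) (K.inv_mem (ht.mem _))
      have e : t i.2 * ((s i.1 * t i.2)⁻¹ * (s j.1 * t j.2)) * (t j.2)⁻¹ =
        (s i.1)⁻¹ * s j.1 := by group
      rwa [e] at this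
    have h2 := hs.inj _ _ h1
    have h3 : (t i.2)⁻¹ * t j.2 ∈ H := by
      have e : (s i.1 * t i.2)⁻¹ * (s j.1 * t j.2) = (t i.2)⁻¹ * t j.2 := by
        rw [h2]; group
      rwa [e] at h
    exact Prod.ext h2 (ht.inj _ _ h3)

theorem tr_tr {H K L : Subgroup G} (hHK : H ≤ K) (hKL : K ≤ L) {x : B} (hx : Fixed H x) :
    tr K L (tr H K x) = tr H L x := by
  haveI : Fintype {q : G ⧸ H // q.out ∈ K} := Fintype.ofFinite _
  haveI : Fintype {q : G ⧸ K // q.out ∈ L} := Fintype.ofFinite _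
  rw [tr_eq_sum hKL (isTv_out hKL) (fixed_tr hHK hx), tr_eq_sum hHK (isTv_out hHK) hx,
    tr_eq_sum (hHK.trans hKL) (IsTv.comp hHK hKL (isTv_out hHK) (isTv_out hKL)) hx,
    Fintype.sum_prod_type]
  refine Finset.sum_congr rfl fun i _ => ?_
  rw [Finset.smul_sum]
  exact Finset.sum_congr rfl fun j _ => by rw [mul_smul]

theorem mul_tr {H K : Subgroup G} (hHK : H ≤ K) {x e : B} (hx : Fixed H x) (he : Fixed K e) :
    e * tr H K x = tr H K (e * x) := by
  haveI : Fintype {q : G ⧸ H // q.out ∈ K} := Fintype.ofFinite _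
  rw [tr_eq_sum hHK (isTv_out hHK) hx, tr_eq_sum hHK (isTv_out hHK) ((he.mono hHK).mul hx),
    Finset.mul_sum]
  refine Finset.sum_congr rfl fun i _ => ?_
  rw [smul_mul', he _ i.2]

theorem tr_mul {H K : Subgroup G} (hHK : H ≤ K) {x e : B} (hx : Fixed H x) (he : Fixed K e) :
    tr H K x * e = tr H K (x * e) := by
  haveI : Fintype {q : G ⧸ H // q.out ∈ K} := Fintype.ofFinite _
  rw [tr_eq_sum hHK (isTv_out hHK) hx, tr_eq_sum hHK (isTv_out hHK) (hx.mul (he.mono hHK)),
    Finset.sum_mul]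
  refine Finset.sum_congr rfl fun i _ => ?_
  rw [smul_mul', he _ i.2]

theorem tr_add (H K : Subgroup G) (x y : B) :
    tr H K (x + y) = tr H K x + tr H K y := by
  haveI : Fintype (G ⧸ H) := Fintype.ofFinite _
  unfold tr
  rw [finsum_eq_sum_of_fintype, finsum_eq_sum_of_fintype, finsum_eq_sum_of_fintype,
    ← Finset.sum_add_distrib]
  refine Finset.sum_congr rfl fun i _ => ?_
  split_ifs <;> simp

theorem tr_top (H : Subgroup G) (x : B) : tr H ⊤ x = ∑ᶠ q : G ⧸ H, q.out • x := by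
  unfold tr
  simp

theorem tr_fixed {H K : Subgroup G} (hHK : H ≤ K) {x : B} (hx : Fixed K x) :
    tr H K x = (H.relIndex K) • x := by
  haveI : Fintype {q : G ⧸ H // q.out ∈ K} := Fintype.ofFinite _
  rw [tr_eq_sum hHK (isTv_out hHK) (hx.mono hHK)]
  rw [Finset.sum_congr rfl (fun (i : {q : G ⧸ H // q.out ∈ K}) _ => hx _ i.2)]
  rw [Finset.sum_const, Finset.card_univ, ← Nat.card_eq_fintype_card]
  congr 1
  refine Nat.card_congr ?_
  refine Equiv.ofBijective (fun q => ((⟨q.1.out, q.2⟩ : K) : K ⧸ H.subgroupOf K)) ⟨?_, ?_⟩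
  · intro i j hij
    have := QuotientGroup.eq.1 hij
    rw [Subgroup.mem_subgroupOf] at this
    exact (isTv_out hHK).inj i j this
  · intro q
    obtain ⟨k, rfl⟩ := QuotientGroup.mk_surjective q
    obtain ⟨i, hi⟩ := (isTv_out hHK).surj k.1 k.2
    refine ⟨i, QuotientGroup.eq.2 ?_⟩
    rw [Subgroup.mem_subgroupOf]
    exact hi

end finite

end Pool.Agent.Lib.MP_d1e4d8_al
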