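import Pool.Agent.Lib.MP_d1e4d8_al.Higman

/-!
# Existence of vertices and sources (for MP_d1e4d8_al)
-/

set_option autoImplicit false
set_option linter.style.haveILetI false
set_option linter.unusedSectionVars false

namespace Pool.Agent.Lib.MP_d1e4d8_al

universe u v

open Representation

variable {F : Type u} [Field F] {G : Type v} [Group G] {V : Type u} [AddCommGroup V] [Module F V]

theorem schur_inter [IsAlgClosed F] [Module.Finite F V] (ρ : Representation F G V)
    [ρ.IsIrreducible] (f : ρ.IntertwiningMap ρ) : ∃ c : F, ∀ v, f v = c • v := by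
  obtain ⟨c, hc⟩ :=
    (Representation.IsIrreducible.algebraMap_intertwiningMap_bijective_of_isAlgClosed
      (ρ := ρ)).2 f
  refine ⟨c, fun v => ?_⟩
  rw [← hc]; rfl

theorem summand_or_zero [IsAlgClosed F] [Module.Finite F V] (ρ : Representation F G V)
    [ρ.IsIrreducible] {W W1 : Type*} [AddCommGroup W] [Module F W] [AddCommGroup W1]
    [Module F W1] {σ : Representation F G W}
    {σ1 : Representation F G W1} (i : ρ.IntertwiningMap σ) (π : σ.IntertwiningMap ρ)
    (p1 : σ.IntertwiningMap σ1) (j1 : σ1.IntertwiningMap σ) :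
    (∀ v, π (j1 (p1 (i v))) = 0) ∨ IsSummand ρ σ1 := by
  obtain ⟨c, hc⟩ := schur_inter ρ (π.comp (j1.comp (p1.comp i)))
  by_cases h0 : c = 0
  · left
    intro v
    have := hc v
    rw [h0, zero_smul] at this
    exact this
  · right
    let π' : σ1.IntertwiningMap ρ :=
      ⟨c⁻¹ • (π.comp j1).toLinearMap, fun g => by
        rw [LinearMap.smul_comp, LinearMap.comp_smul, (π.comp j1).isIntertwining' g]⟩
    refine ⟨p1.comp i, π', fun v => ?_⟩
    change c⁻¹ • (π (j1 (p1 (i v)))) = v
    have := hc v
    change π (j1 (p1 (i v))) = c • v at this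
    rw [this, smul_smul, inv_mul_cancel₀ h0, one_smul]

theorem nontrivial_of_irreducible (ρ : Representation F G V) [ρ.IsIrreducible] :
    Nontrivial V := by
  haveI := (inferInstance : IsSimpleOrder (Subrepresentation ρ))
  by_contra hV
  rw [not_nontrivial_iff_subsingleton] at hV
  have : (⊥ : Subrepresentation ρ) = ⊤ := by
    apply Subrepresentation.toSubmodule_injective
    exact Subsingleton.elim _ _
  exact bot_ne_top this

/-- If `ρ` is a summand of a module which is a sum of two modules, then `ρ` is a
summand of one of them. -/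
theorem summand_of_sum [IsAlgClosed F] [Module.Finite F V] (ρ : Representation F G V)
    [ρ.IsIrreducible] {W W1 W2 : Type*} [AddCommGroup W] [Module F W] [AddCommGroup W1]
    [Module F W1] [AddCommGroup W2] [Module F W2] {σ : Representation F G W}
    {σ1 : Representation F G W1} {σ2 : Representation F G W2} (h : IsSummand ρ σ)
    (p1 : σ.IntertwiningMap σ1) (j1 : σ1.IntertwiningMap σ) (p2 : σ.IntertwiningMap σ2)
    (j2 : σ2.IntertwiningMap σ) (hsum : ∀ w, j1 (p1 w) + j2 (p2 w) = w) :
    IsSummand ρ σ1 ∨ IsSummand ρ σ2 := by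
  obtain ⟨i, π, hπ⟩ := h
  rcases summand_or_zero ρ i π p1 j1 with h1 | h1
  · rcases summand_or_zero ρ i π p2 j2 with h2 | h2
    · exfalso
      haveI : Nontrivial V := nontrivial_of_irreducible ρ
      obtain ⟨v, hv⟩ := exists_ne (0 : V)
      have h3 := hπ v
      rw [← hsum (i v), map_add, h1, h2, add_zero] at h3
      exact hv h3.symm
    · exact Or.inr h2
  · exact Or.inl h1

/-- the restriction of a representation to an invariant submodule -/
def resRep {W : Type*} [AddCommGroup W] [Module F W] (τ : Representation F G W)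
    (U : Submodule F W) (hU : ∀ g, ∀ x ∈ U, τ g x ∈ U) : Representation F G U where
  toFun g := (τ g).restrict (hU g)
  map_one' := by ext; simp
  map_mul' x y := by ext; simp

theorem exists_vertex [Finite G] [IsAlgClosed F] [Module.Finite F V] (ρ : Representation F G V)
    [ρ.IsIrreducible] (H : Subgroup G) (hH : RelProj H ρ) :
    ∃ P ≤ H, ∃ (L : Type u) (_ : AddCommGroup L) (_ : Module F L) (_ : Module.Finite F L)
      (τ : Representation F P L), IsVertexSource ρ P τ := by
  classical
  obtain ⟨P, ⟨hPH, hP⟩, hmin⟩ := (wellFounded_lt (α := Subgroup G)).has_min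
    {P | P ≤ H ∧ RelProj P ρ} ⟨H, le_rfl, hH⟩
  have hmin' : ∀ P' : Subgroup G, P' < P → ¬ RelProj P' ρ :=
    fun P' hlt hP' => hmin P' ⟨hlt.le.trans hPH, hP'⟩ hlt
  have hex : ∃ n : ℕ, ∃ (W : Type u) (_ : AddCommGroup W) (_ : Module F W) (_ : Module.Finite F W)
    (τ : Representation F P W), Module.finrank F W = n ∧ IsSummand ρ (indRep P τ) := by
    obtain ⟨W, _, _, _, τ, hτ⟩ := hP
    exact ⟨_, W, _, _, ‹_›, τ, rfl, hτ⟩
  obtain ⟨W, _, _, _, τ, hW, hτ⟩ := Nat.find_spec hex
  have hfmin := fun m => Nat.find_min (m := m) hex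
  rw [← hW] at hfmin
  haveI : Nontrivial V := nontrivial_of_irreducible ρ
  refine ⟨P, hPH, W, inferInstance, inferInstance, inferInstance, τ, ⟨?_, ?_⟩, hτ, hmin'⟩
  · by_contra hWn
    rw [not_nontrivial_iff_subsingleton] at hWn
    obtain ⟨i, π, hπ⟩ := hτ
    obtain ⟨v, hv⟩ := exists_ne (0 : V)
    have h1 : i v = 0 := by
      apply Subtype.ext; funext x; exact Subsingleton.elim _ _
    have h2 := hπ v
    rw [h1, map_zero] at h2
    exact hv h2.symm
  · intro U U' hU hU' hc
    by_contra hne
    push Not at hne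
    have hUlt : Module.finrank F U < Module.finrank F W := by
      refine Submodule.finrank_lt ?_
      intro htop
      have := hc.disjoint
      rw [htop, disjoint_comm, disjoint_top] at this
      exact hne.2 this
    have hUlt' : Module.finrank F U' < Module.finrank F W := by
      refine Submodule.finrank_lt ?_
      intro htop
      have := hc.disjoint
      rw [htop, disjoint_top] at this
      exact hne.1 this
    -- inclusions and projections
    let τ1 := resRep τ U hU
    let τ2 := resRep τ U' hU'
    have hproj : ∀ (U U' : Submodule F W) (hU : ∀ g, ∀ x ∈ U, τ g x ∈ U)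
        (hU' : ∀ g, ∀ x ∈ U', τ g x ∈ U') (hc : IsCompl U U') (g : P),
        (Submodule.projectionOnto U U' hc) ∘ₗ τ g =
          (resRep τ U hU g) ∘ₗ (Submodule.projectionOnto U U' hc) := by
      intro U U' hU hU' hc g
      apply LinearMap.ext
      intro w
      obtain ⟨a, ha, b, hb, rfl⟩ : ∃ a ∈ U, ∃ b ∈ U', a + b = w := by
        have : w ∈ U ⊔ U' := by rw [hc.sup_eq_top]; trivial
        exact Submodule.mem_sup.1 this
      have e1 : Submodule.projectionOnto U U' hc a = ⟨a, ha⟩ :=
        Submodule.projectionOnto_apply_left hc ⟨a, ha⟩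
      have e2 : Submodule.projectionOnto U U' hc b = 0 :=
        Submodule.projectionOnto_apply_right hc ⟨b, hb⟩
      have e3 : Submodule.projectionOnto U U' hc (τ g a) = ⟨τ g a, hU g a ha⟩ :=
        Submodule.projectionOnto_apply_left hc ⟨_, hU g a ha⟩
      have e4 : Submodule.projectionOnto U U' hc (τ g b) = 0 :=
        Submodule.projectionOnto_apply_right hc ⟨_, hU' g b hb⟩
      simp only [LinearMap.comp_apply, map_add, e1, e2, e3, e4, add_zero, map_zero]
      rfl
    let p1 : τ.IntertwiningMap τ1 := ⟨_, hproj U U' hU hU' hc⟩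
    let p2 : τ.IntertwiningMap τ2 := ⟨_, hproj U' U hU' hU hc.symm⟩
    let j1 : τ1.IntertwiningMap τ := ⟨U.subtype, fun g => rfl⟩
    let j2 : τ2.IntertwiningMap τ := ⟨U'.subtype, fun g => rfl⟩
    have hsum : ∀ w : W, ((Submodule.projectionOnto U U' hc w : U) : W) +
        ((Submodule.projectionOnto U' U hc.symm w : U') : W) = w := by
      intro w
      obtain ⟨a, ha, b, hb, rfl⟩ : ∃ a ∈ U, ∃ b ∈ U', a + b = w := by
        have : w ∈ U ⊔ U' := by rw [hc.sup_eq_top]; trivial
        exact Submodule.mem_sup.1 this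
      have e1 : Submodule.projectionOnto U U' hc a = ⟨a, ha⟩ :=
        Submodule.projectionOnto_apply_left hc ⟨a, ha⟩
      have e2 : Submodule.projectionOnto U U' hc b = 0 :=
        Submodule.projectionOnto_apply_right hc ⟨b, hb⟩
      have e3 : Submodule.projectionOnto U' U hc.symm b = ⟨b, hb⟩ :=
        Submodule.projectionOnto_apply_left hc.symm ⟨b, hb⟩
      have e4 : Submodule.projectionOnto U' U hc.symm a = 0 :=
        Submodule.projectionOnto_apply_right hc.symm ⟨a, ha⟩
      simp only [map_add, e1, e2, e3, e4]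
      simp
    rcases summand_of_sum ρ hτ (coindMap P.subtype p1) (coindMap P.subtype j1)
      (coindMap P.subtype p2) (coindMap P.subtype j2) (by
        intro f
        apply Subtype.ext
        funext x
        exact hsum (f.1 x)) with h | h
    · exact hfmin _ hUlt ⟨U, inferInstance, inferInstance, inferInstance, τ1, rfl, h⟩
    · exact hfmin _ hUlt' ⟨U', inferInstance, inferInstance, inferInstance, τ2, rfl, h⟩

end Pool.Agent.Lib.MP_d1e4d8_al
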